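import Pool.Agent.H514.NG.StmE
import Pool.Graph.R_pool_sql_team_seeded_efc1946e.K1H79.TOR.Ev
import Pool.Graph.R_pool_sql_team_seeded_efc1946e.K1H2.RF.Num
import Pool.Agent.H514.TR.CLT

/-! # The explicit exponent for primitive fields (helper707 for helper514) -/

set_option autoImplicit false

namespace Pool.Agent.H514.NG

open NumberField Filter Pool.Agent.TH847.LS Pool.Agent.TH847.LG
open scoped Classical nonZeroDivisors

namespace EXPLH

/-- a lower bound of Chebyshev for the number of primes -/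
theorem primes_ge (X : ℕ) (hX : 40 ≤ X) :
    1 / 2 * (X : ℝ) / Real.log X ≤ (((Finset.Icc 1 X).filter Nat.Prime).card : ℝ) := by
  have hXr : (40 : ℝ) ≤ X := by exact_mod_cast hX
  have hlog : 0 < Real.log X := Real.log_pos (by linarith)
  have h1 := Chebyshev.psi_ge X
  have h2 := Chebyshev.psi_le_primeCounting_mul_log X
  have h3 : (Nat.primeCounting X : ℝ) ≤ (((Finset.Icc 1 X).filter Nat.Prime).card : ℝ) := by
    rw [← Nat.primesLE_card_eq_primeCounting]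
    have h : (Nat.primesLE X) ⊆ (Finset.Icc 1 X).filter Nat.Prime := by
      intro p hp
      have hp1 := Nat.prime_of_mem_primesLE hp
      have hp2 : p ≤ X := Nat.le_of_mem_primesLE hp
      exact Finset.mem_filter.2 ⟨Finset.mem_Icc.2 ⟨hp1.one_lt.le, hp2⟩, hp1⟩
    exact_mod_cast Finset.card_le_card h
  have h4 : Real.log ((X : ℝ) + 1) ≤ 19 / 100 * X := by
    have h5 := Real.log_le_sub_one_of_pos (show (0 : ℝ) < ((X : ℝ) + 1) / 8 by positivity)
    rw [Real.log_div (by positivity) (by norm_num), show (8 : ℝ) = 2 ^ 3 by norm_num, Real.log_pow]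
      at h5
    have h6 := Real.log_two_lt_d9
    push_cast at h5
    linarith
  have h7 := Real.log_two_gt_d9
  rw [div_le_iff₀ hlog]
  have h8 : 1 / 2 * (X : ℝ) ≤ (Nat.primeCounting X : ℝ) * Real.log X := by nlinarith
  refine h8.trans (mul_le_mul_of_nonneg_right h3 hlog.le)

/-- the bound for one field -/
theorem field_bound (hSEP : S_SEP) (hPRM : S_PRM) {n l : ℕ} (hl : 1 ≤ l) (L : Type) [Field L]
    [NumberField L] (hn : Module.finrank ℚ L = n)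
    (hprim : ∀ E : IntermediateField ℚ L, E = ⊥ ∨ E = ⊤) (Y : ℝ)
    (hY : (2 * (150 * Y) ^ l) ^ (n * (n - 1)) < |(discr L : ℝ)|) (B : Finset ℕ)
    (hBm : ∀ p ∈ B, p.Prime ∧ (p : ℝ) ≤ Y ∧ ¬ Bad (⊥ : IntermediateField ℚ L) p) (N : ℕ)
    (hN : 2 ^ n * √|(discr L : ℝ)| < N) :
    (B.card : ℝ) * (Nat.card {c : ClassGroup (𝓞 L) // c ^ l = 1} : ℝ) ≤
      (n + 1) * ∑ J ∈ FI L N, (1 + Real.log ((N : ℝ) / Ideal.absNorm J)) ^ n := by
  have hex : ∀ p : ℕ, ∃ (Q Q' J : Ideal (𝓞 L)) (m : ℕ), p ∈ B → (m ≤ n ∧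
      Q.IsPrime ∧ Q'.IsPrime ∧ (p : 𝓞 L) ∈ Q ∧ (p : 𝓞 L) ∈ Q' ∧ Q ≠ Q' ∧
      Q.comap (algebraMap (𝓞 (⊥ : IntermediateField ℚ L)) (𝓞 L)) =
        Q'.comap (algebraMap (𝓞 (⊥ : IntermediateField ℚ L)) (𝓞 L)) ∧
      Q ≠ ⊥ ∧ J ≠ ⊥ ∧ Q * J = Ideal.span {(p : 𝓞 L)} ∧ Ideal.absNorm Q = p ^ m ∧
      Ideal.absNorm J = p ^ (n - m)) := by
    intro p
    by_cases hp : p ∈ B
    · obtain ⟨h1, h2, h3⟩ := hBm p hp
      obtain ⟨Q, Q', J, m, h4⟩ := hPRM L n hn (⊥ : IntermediateField ℚ L) p h1 h3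
      exact ⟨Q, Q', J, m, fun _ => h4⟩
    · exact ⟨⊥, ⊥, ⊥, 0, fun h => absurd h hp⟩
  choose Q Q' J m hQ using hex
  set W := ∑ J ∈ FI L N, (1 + Real.log ((N : ℝ) / Ideal.absNorm J)) ^ n with hW
  set T : ℝ := (Nat.card {c : ClassGroup (𝓞 L) // c ^ l = 1} : ℝ) with hT
  have hT0 : 0 ≤ T := Nat.cast_nonneg _
  have key : ∀ k ≤ n, ((B.filter fun p => m p = k).card : ℝ) * T ≤ W := by
    intro k hk
    have hm : ∀ p : {p // p ∈ B.filter fun p => m p = k}, p.1 ∈ B ∧ m p.1 = k := by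
      rintro ⟨p, hp⟩
      exact Finset.mem_filter.1 hp
    have hQ0 : ∀ p : {p // p ∈ B.filter fun p => m p = k}, Q p.1 ≠ ⊥ := by
      intro p
      obtain ⟨-, -, -, -, -, -, -, h, -⟩ := hQ p.1 (hm p).1
      exact h
    have hJ0 : ∀ p : {p // p ∈ B.filter fun p => m p = k}, J p.1 ≠ ⊥ := by
      intro p
      obtain ⟨-, -, -, -, -, -, -, -, h, -⟩ := hQ p.1 (hm p).1
      exact h
    refine Pool.Agent.K1H79.TOR.ev_m hk hn hl N hN (B.filter fun p => m p = k)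
      (fun p => ⟨Q p.1, mem_nonZeroDivisors_of_ne_zero (hQ0 p)⟩)
      (fun p => ⟨J p.1, mem_nonZeroDivisors_of_ne_zero (hJ0 p)⟩) ?_ ?_
    · intro p
      obtain ⟨-, -, -, -, -, -, -, -, -, h1, h2, h3⟩ := hQ p.1 (hm p).1
      rw [(hm p).2] at h2 h3
      exact ⟨(hBm p.1 (hm p).1).1, h1, h2, h3⟩
    · intro p q hpq z hz0 hz hw
      have hpB := hBm p.1 (hm p).1
      have hqB := hBm q.1 (hm q).1
      obtain ⟨-, g1, g2, g3, g4, g5, g6, -⟩ := hQ q.1 (hm q).1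
      obtain ⟨-, -, -, -, -, -, -, -, -, h1, -⟩ := hQ p.1 (hm p).1
      have hz1 : (z : L) ∉ (⊥ : IntermediateField ℚ L) :=
        hSEP L (⊥ : IntermediateField ℚ L) l p.1 q.1 hl hpB.1 hqB.1
          (fun h => hpq (Subtype.ext h)) (Q q.1)
          (Q' q.1) (Q p.1) (J p.1) g1 g2 g3 g4 g5 g6 h1 z hz
      have hz2 : IntermediateField.adjoin ℚ {(z : L)} = ⊤ := by
        rcases hprim (IntermediateField.adjoin ℚ {(z : L)}) with h | h
        · exact absurd (IntermediateField.adjoin_simple_eq_bot_iff.1 h) hz1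
        · exact h
      have hmax : ((max p.1 q.1 : ℕ) : ℝ) ≤ Y := by
        push_cast
        exact max_le hpB.2.1 hqB.2.1
      have h3 := disc_bound hn z hz2 (B := (150 * Y) ^ l) (fun w => (hw w).trans (by gcongr))
      linarith
  have hsum : (B.card : ℝ) = ∑ k ∈ Finset.range (n + 1),
      ((B.filter fun p => m p = k).card : ℝ) := by
    have h3 := Finset.card_eq_sum_card_fiberwise (s := B) (t := Finset.range (n + 1))
      (f := m) (fun p hp => by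
        have := (hQ p hp).1
        exact Finset.mem_coe.2 (Finset.mem_range.2 (by omega)))
    exact_mod_cast h3
  rw [hsum, Finset.sum_mul]
  refine (Finset.sum_le_sum fun k hk => key k (by
    have := Finset.mem_range.1 hk
    omega)).trans ?_
  rw [Finset.sum_const, Finset.card_range, nsmul_eq_mul]
  push_cast
  exact le_rfl

/-- the count of the primes which are used -/
theorem count_ge {D : ℤ} (hD : D ≠ 0) {Y κ : ℝ} (hY : 1 ≤ Y) (hκ : κ < 1)
    (h40 : 40 ≤ ⌊Y⌋₊) (hm : 2 * Y ^ (1 - κ) + Real.log |(D : ℝ)| / Real.log 2 ≤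
      1 / 2 * (⌊Y⌋₊ : ℝ) / Real.log (⌊Y⌋₊ : ℝ)) :
    Y ^ (1 - κ) ≤ ((((Finset.Icc 1 ⌊Y⌋₊).filter Nat.Prime).filter
      (fun p : ℕ => p ≠ 2 ∧ ¬ (p : ℤ) ∣ D)).card : ℝ) := by
  have h1 := primes_ge ⌊Y⌋₊ h40
  obtain ⟨A, hA⟩ : ∃ A : Finset ℕ, A = (Finset.Icc 1 ⌊Y⌋₊).filter Nat.Prime := ⟨_, rfl⟩
  rw [← hA] at h1 ⊢
  have hD0 : D.natAbs ≠ 0 := Int.natAbs_ne_zero.2 hD
  have h2 : A ⊆ A.filter (fun p : ℕ => p ≠ 2 ∧ ¬ (p : ℤ) ∣ D) ∪ ({2} ∪ D.natAbs.primeFactors) := by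
    intro p hp
    by_cases h3 : p = 2
    · exact Finset.mem_union_right _ (Finset.mem_union_left _ (Finset.mem_singleton.2 h3))
    · by_cases h4 : (p : ℤ) ∣ D
      · refine Finset.mem_union_right _ (Finset.mem_union_right _ (Nat.mem_primeFactors.2
          ⟨?_, Int.natCast_dvd.1 h4, hD0⟩))
        rw [hA] at hp
        exact (Finset.mem_filter.1 hp).2
      · exact Finset.mem_union_left _ (Finset.mem_filter.2 ⟨hp, h3, h4⟩)
  have h3 : A.card ≤ (A.filter (fun p : ℕ => p ≠ 2 ∧ ¬ (p : ℤ) ∣ D)).card +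
      (1 + D.natAbs.primeFactors.card) := by
    refine (Finset.card_le_card h2).trans ((Finset.card_union_le _ _).trans
      (Nat.add_le_add_left ?_ _))
    exact (Finset.card_union_le _ _).trans (by rw [Finset.card_singleton])
  have h4 : (A.card : ℝ) ≤ ((A.filter (fun p : ℕ => p ≠ 2 ∧ ¬ (p : ℤ) ∣ D)).card : ℝ) +
      (1 + (D.natAbs.primeFactors.card : ℝ)) := by exact_mod_cast h3
  have h5 := Pool.Agent.K1H2.RF.few hD0
  have h6 : ((D.natAbs : ℕ) : ℝ) = |(D : ℝ)| := by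
    rw [Nat.cast_natAbs]
    push_cast
    rfl
  rw [h6] at h5
  have h7 : 1 ≤ Y ^ (1 - κ) := Real.one_le_rpow hY (by linarith)
  linarith

end EXPLH

open EXPLH in
theorem t_EXPLof : S_EXPLof := by
  intro hSEP hPRM n l hn2 hl ε hε
  have hnr : (2 : ℝ) ≤ n := by exact_mod_cast hn2
  have hlr : (1 : ℝ) ≤ l := by exact_mod_cast hl
  obtain ⟨κ, hκ⟩ : ∃ κ : ℝ, κ = min (ε / 3) (1 / 2) := ⟨_, rfl⟩
  have hκ0 : 0 < κ := by
    rw [hκ]
    exact lt_min (by positivity) (by norm_num)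
  have hκ1 : κ ≤ 1 / 2 := by rw [hκ]; exact min_le_right _ _
  have hκε : 3 * κ ≤ ε := by
    have : κ ≤ ε / 3 := by rw [hκ]; exact min_le_left _ _
    linarith
  obtain ⟨w, hw⟩ : ∃ w : ℝ, w = l * n * (n - 1) := ⟨_, rfl⟩
  have hw2 : 2 ≤ w := by
    rw [hw]
    have h1 : (2 : ℝ) ≤ l * n := by nlinarith
    nlinarith
  have hw0 : 0 < w := by linarith
  obtain ⟨θ, hθ⟩ : ∃ θ : ℝ, θ = (1 - κ) / w := ⟨_, rfl⟩
  have hθ0 : 0 < θ := by
    rw [hθ]
    exact div_pos (by linarith) hw0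
  obtain ⟨C1, hC10, hC1⟩ := Pool.Agent.Y159.PT.W_bound n hn2 κ hκ0
  obtain ⟨C0, hC0, hCl⟩ := Pool.Agent.H514.TR.t_CLT n
  obtain ⟨b, hb⟩ : ∃ b : ℝ, b = (2 * 150 ^ l) ^ (n * (n - 1)) := ⟨_, rfl⟩
  have e2 : ∀ᶠ x : ℝ in atTop, b < x ^ κ := (tendsto_rpow_atTop hκ0).eventually_gt_atTop _
  have e3 := Pool.Agent.K1H2.RF.many (δ := 1 / 2) (by norm_num) hθ0 hκ0 (by linarith : κ < 1) 40
  obtain ⟨D0, hD0⟩ := eventually_atTop.1 (e2.and e3)
  have hexp : 1 / 2 + κ - θ * (1 - κ) ≤ 1 / 2 - 1 / w + ε := by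
    have h1 := Pool.Agent.K1H2.RF.expo (by linarith : 1 ≤ w) hκ0 hκε
    refine le_trans (le_of_eq ?_) h1
    rw [hθ]
    ring
  have hexp0 : 0 ≤ 1 / 2 - 1 / w + ε := by
    have : 1 / w ≤ 1 / 2 := one_div_le_one_div_of_le (by norm_num) hw2
    linarith
  rw [← hw]
  refine ⟨max (C0 * |D0|) ((n + 1) * C1), lt_max_of_lt_right (by positivity), ?_⟩
  intro L _ _ hL hprim hnb
  obtain ⟨D, hD⟩ : ∃ D : ℝ, D = |(discr L : ℝ)| := ⟨_, rfl⟩
  have hD1 : (1 : ℝ) ≤ D := by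
    rw [hD]
    have := Int.one_le_abs (discr_ne_zero L)
    exact_mod_cast this
  have hDpos : 0 < D := by linarith
  obtain ⟨T, hT⟩ : ∃ T : ℝ, T = (Nat.card {c : ClassGroup (𝓞 L) // c ^ l = 1} : ℝ) := ⟨_, rfl⟩
  have hT0 : 0 ≤ T := by
    rw [hT]
    exact Nat.cast_nonneg _
  rw [← hT, ← hD]
  have hDe : 1 ≤ D ^ (1 / 2 - 1 / w + ε) := Real.one_le_rpow hD1 hexp0
  rcases lt_or_ge D D0 with hlt | hge
  · have h1 : T ≤ C0 * D := by
      rw [hT, hD]
      refine le_trans ?_ (hCl L hL)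
      exact_mod_cast Nat.card_le_card_of_injective
        (fun c : {c : ClassGroup (𝓞 L) // c ^ l = 1} => c.1) Subtype.val_injective
    have h2 : C0 * D ≤ C0 * |D0| := mul_le_mul_of_nonneg_left (hlt.le.trans (le_abs_self D0)) hC0.le
    calc T ≤ C0 * |D0| := h1.trans h2
      _ ≤ C0 * |D0| * D ^ (1 / 2 - 1 / w + ε) := le_mul_of_one_le_right (by positivity) hDe
      _ ≤ _ := mul_le_mul_of_nonneg_right (le_max_left _ _) (by positivity)
  · obtain ⟨g2, g3, g4⟩ := hD0 D hge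
    obtain ⟨N, hN, hW⟩ := hC1 L hL
    have hDn : ((discr L).natAbs : ℝ) = D := by
      rw [hD, Nat.cast_natAbs]
      push_cast
      rfl
    rw [hDn] at hW
    have hY1 : 1 ≤ D ^ θ := Real.one_le_rpow hD1 hθ0.le
    have hcount := count_ge (discr_ne_zero L) hY1 (by linarith : κ < 1) g3 (by rw [← hD]; exact g4)
    have hYk : (2 * (150 * D ^ θ) ^ l) ^ (n * (n - 1)) < |(discr L : ℝ)| := by
      rw [← hD]
      have h1 : (2 * (150 * D ^ θ) ^ l) ^ (n * (n - 1)) = b * (D ^ θ) ^ (l * (n * (n - 1))) := by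
        rw [hb, mul_pow 150, ← mul_assoc, mul_pow, ← pow_mul]
      have h2 : (D ^ θ) ^ (l * (n * (n - 1))) = D ^ (1 - κ) := by
        rw [← Real.rpow_natCast, ← Real.rpow_mul hDpos.le]
        congr 1
        have h3 : ((l * (n * (n - 1)) : ℕ) : ℝ) = w := by
          rw [hw]
          have : 1 ≤ n := by omega
          push_cast [Nat.cast_sub this]
          ring
        rw [h3, hθ, div_mul_cancel₀ _ hw0.ne']
      rw [h1, h2]
      calc b * D ^ (1 - κ) < D ^ κ * D ^ (1 - κ) :=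
            mul_lt_mul_of_pos_right g2 (Real.rpow_pos_of_pos hDpos _)
        _ = D := by
          rw [← Real.rpow_add hDpos]
          have : κ + (1 - κ) = 1 := by ring
          rw [this, Real.rpow_one]
    have hfb := field_bound hSEP hPRM hl L hL hprim (D ^ θ) hYk
      (((Finset.Icc 1 ⌊D ^ θ⌋₊).filter Nat.Prime).filter
        (fun p : ℕ => p ≠ 2 ∧ ¬ (p : ℤ) ∣ discr L)) (by
      intro p hp
      rw [Finset.mem_filter, Finset.mem_filter, Finset.mem_Icc] at hp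
      obtain ⟨⟨⟨-, h2⟩, h3⟩, h4, h5⟩ := hp
      exact ⟨h3, (Nat.le_floor_iff (by linarith)).1 h2, hnb p h3 h4 h5⟩) N hN
    rw [← hT] at hfb
    have h1 : (D ^ θ) ^ (1 - κ) * T ≤ (n + 1) * (C1 * D ^ (1 / 2 + κ)) := by
      refine (mul_le_mul_of_nonneg_right hcount hT0).trans (hfb.trans ?_)
      exact mul_le_mul_of_nonneg_left hW (by positivity)
    have h2 : (D ^ θ) ^ (1 - κ) = D ^ (θ * (1 - κ)) := by rw [← Real.rpow_mul hDpos.le]
    have h3 : D ^ (1 / 2 + κ) = D ^ (θ * (1 - κ)) * D ^ (1 / 2 + κ - θ * (1 - κ)) := by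
      rw [← Real.rpow_add hDpos]
      congr 1
      ring
    rw [h2, h3] at h1
    have h4 : D ^ (θ * (1 - κ)) * T ≤
        D ^ (θ * (1 - κ)) * ((n + 1) * C1 * D ^ (1 / 2 + κ - θ * (1 - κ))) := by
      refine h1.trans (le_of_eq ?_)
      ring
    have h5 : T ≤ (n + 1) * C1 * D ^ (1 / 2 + κ - θ * (1 - κ)) :=
      le_of_mul_le_mul_left h4 (Real.rpow_pos_of_pos hDpos _)
    calc T ≤ (n + 1) * C1 * D ^ (1 / 2 + κ - θ * (1 - κ)) := h5
      _ ≤ (n + 1) * C1 * D ^ (1 / 2 - 1 / w + ε) := by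
        refine mul_le_mul_of_nonneg_left ?_ (by positivity)
        exact Real.rpow_le_rpow_of_exponent_le hD1 hexp
      _ ≤ _ := mul_le_mul_of_nonneg_right (le_max_right _ _) (by positivity)

end Pool.Agent.H514.NG
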