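import Mathlib

/-!
# The discriminant of a quadratic field is not a square (helper252, for helper514)
-/

set_option autoImplicit false

namespace Pool.Agent.H514.NG

namespace QD252

open Module

theorem exists_tau (K : Type) [Field K] [NumberField K] (h : Module.finrank ℚ K = 2) :
    ∃ τ : K ≃ₐ[ℚ] K, (∀ x, τ (τ x) = x) ∧
      ∀ x : K, algebraMap ℚ K (Algebra.trace ℚ K x) = x + τ x := by
  classical
  have : Algebra.IsQuadraticExtension ℚ K := ⟨h⟩
  have hc : Nat.card (K ≃ₐ[ℚ] K) = 2 := by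
    rw [IsGalois.card_aut_eq_finrank, h]
  obtain ⟨τ, hτ, hu⟩ := (Nat.card_eq_two_iff' (1 : K ≃ₐ[ℚ] K)).1 hc
  refine ⟨τ, fun x => ?_, fun x => ?_⟩
  · have h1 : τ ^ 2 = 1 := by
      rw [← hc]
      exact pow_card_eq_one'
    have h2 : (τ ^ 2) x = x := by
      rw [h1]
      rfl
    rw [pow_two] at h2
    exact h2
  · rw [trace_eq_sum_automorphisms]
    have h1 : (Finset.univ : Finset (K ≃ₐ[ℚ] K)) = {1, τ} := by
      ext σ
      simp only [Finset.mem_univ, Finset.mem_insert, Finset.mem_singleton, true_iff]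
      by_cases h2 : σ = 1
      · exact Or.inl h2
      · exact Or.inr (hu σ h2)
    rw [h1, Finset.sum_pair (Ne.symm hτ)]
    rfl

theorem main (K : Type) [Field K] [NumberField K] (h : Module.finrank ℚ K = 2)
    (hs : IsSquare (NumberField.discr K)) : NumberField.discr K = 0 := by
  classical
  obtain ⟨τ, h2, ht⟩ := exists_tau K h
  have hcard : Fintype.card (Free.ChooseBasisIndex ℤ (NumberField.RingOfIntegers K)) = 2 := by
    rw [← Module.finrank_eq_card_basis (NumberField.integralBasis K), h]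
  set e := Fintype.equivFinOfCardEq hcard with he
  set b : Fin 2 → K := NumberField.integralBasis K ∘ e.symm with hb
  have hd : (NumberField.discr K : ℚ) = Algebra.discr ℚ b := by
    rw [hb, Algebra.discr_reindex, NumberField.coe_discr]
  have hd2 : algebraMap ℚ K (NumberField.discr K : ℚ) = (b 0 * τ (b 1) - b 1 * τ (b 0)) ^ 2 := by
    rw [hd, Algebra.discr_def, Matrix.det_fin_two]
    simp only [Algebra.traceMatrix_apply, Algebra.traceForm_apply, map_sub, map_mul, ht]
    ring
  obtain ⟨s, hs⟩ := hs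
  have h3 : (b 0 * τ (b 1) - b 1 * τ (b 0)) ^ 2 = (algebraMap ℚ K (s : ℚ)) ^ 2 := by
    rw [← hd2, hs, Int.cast_mul, map_mul]
    ring
  have h4 : τ (b 0 * τ (b 1) - b 1 * τ (b 0)) = -(b 0 * τ (b 1) - b 1 * τ (b 0)) := by
    rw [map_sub, map_mul, map_mul, h2, h2]
    ring
  have h5 : τ (b 0 * τ (b 1) - b 1 * τ (b 0)) = b 0 * τ (b 1) - b 1 * τ (b 0) := by
    rcases sq_eq_sq_iff_eq_or_eq_neg.1 h3 with h6 | h6
    · rw [h6]
      exact τ.commutes _
    · rw [h6, map_neg]
      congr 1
      exact τ.commutes _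
  have h6 : b 0 * τ (b 1) - b 1 * τ (b 0) = 0 := by
    rw [h5] at h4
    exact self_eq_neg.1 h4
  rw [h6] at hd2
  have h7 : ((NumberField.discr K : ℤ) : K) = 0 := by
    have h8 : algebraMap ℚ K (NumberField.discr K : ℚ) = ((NumberField.discr K : ℤ) : K) := by
      simp
    rw [← h8, hd2]
    ring
  exact_mod_cast h7

end QD252

theorem t_QD (K : Type) [Field K] [NumberField K] (h : Module.finrank ℚ K = 2) :
    ¬ IsSquare (NumberField.discr K) := fun hs =>
  NumberField.discr_ne_zero K (QD252.main K h hs)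

end Pool.Agent.H514.NG
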