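import Pool.Agent.H514.NG.Stm
import Pool.Agent.H514.NG.QD

/-! # Examples of fields with the parity condition

Owner helper514. -/

set_option autoImplicit false

namespace Pool.Agent.H514.NG

open NumberField

theorem isSquare_sq_mul {s a : ℤ} (hs : s ≠ 0) : IsSquare (s * s * a) ↔ IsSquare a := by
  constructor
  · rintro ⟨t, ht⟩
    have h1 : s ^ 2 ∣ t ^ 2 := ⟨a, by rw [sq, sq, ht]⟩
    obtain ⟨u, hu⟩ := (Int.pow_dvd_pow_iff two_ne_zero).1 h1
    refine ⟨u, ?_⟩
    have h2 : s * s * a = s * s * (u * u) := by rw [ht, hu]; ring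
    exact mul_left_cancel₀ (mul_ne_zero hs hs) h2
  · rintro ⟨u, rfl⟩
    exact ⟨s * u, by ring⟩

variable {L : Type} [Field L] [NumberField L]

theorem discr_bot : discr (⊥ : IntermediateField ℚ L) = 1 := by
  rw [discr_eq_discr_of_algEquiv _ (IntermediateField.botEquiv ℚ L)]
  exact Rat.numberField_discr

/-- even degree and square discriminant -/
theorem par_even (h1 : Even (Module.finrank ℚ L)) (h2 : IsSquare (discr L))
    (h3 : ∀ R : IntermediateField ℚ L, R ≠ ⊥ → R ≠ ⊤ → (IsSquare (discr R) ↔ Odd (Module.finrank ℚ R))) :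
    ParC 1 L := by
  obtain ⟨s, hs⟩ := h2
  have hs0 : s ≠ 0 := by
    rintro rfl
    exact discr_ne_zero L (by rw [hs, zero_mul])
  refine ⟨⟨1, s, by rw [hs]; ring, by norm_num⟩, fun R hR => ?_⟩
  rw [hs, isSquare_sq_mul hs0, Nat.odd_add']
  by_cases hb : R = ⊥
  · subst hb
    rw [discr_bot, IntermediateField.finrank_bot]
    exact ⟨fun _ => ⟨fun _ => h1, fun _ => odd_one⟩, fun _ => IsSquare.one⟩
  · rw [h3 R hb hR]
    exact ⟨fun h => ⟨fun _ => h1, fun _ => h⟩, fun h => h.2 h1⟩

/-- quartic fields with square discriminant -/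
theorem par_quartic (h1 : Module.finrank ℚ L = 4) (h2 : IsSquare (discr L)) : ParC 1 L := by
  refine par_even (by rw [h1]; decide) h2 fun R hb hR => ?_
  have e1 := Module.finrank_mul_finrank ℚ R L
  rw [h1] at e1
  have hpos : 0 < Module.finrank ℚ R := Module.finrank_pos
  have h1' : Module.finrank ℚ R ≠ 1 := fun h => hb (IntermediateField.finrank_eq_one_iff.1 h)
  have h4 : Module.finrank ℚ R ≠ 4 := by
    intro h
    apply hR
    refine IntermediateField.eq_of_le_of_finrank_eq le_top ?_
    rw [h, IntermediateField.finrank_top', h1]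
  have hle : Module.finrank ℚ R ≤ 4 := Nat.le_of_dvd (by norm_num) ⟨_, e1.symm⟩
  have hdvd : Module.finrank ℚ R ∣ 4 := ⟨_, e1.symm⟩
  have hR2 : Module.finrank ℚ R = 2 := by
    interval_cases h : Module.finrank ℚ R
    · exact absurd rfl h1'
    · rfl
    · exact absurd hdvd (by decide)
    · exact absurd rfl h4
  constructor
  · intro h
    exact absurd h (t_QD R hR2)
  · intro h
    rw [hR2] at h
    exact absurd h (by decide)

/-- odd degree, no subfields -/
theorem par_odd {κ : ℕ} (h1 : Odd (Module.finrank ℚ L)) (h2 : ¬ IsSquare (discr L))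
    (h3 : ∀ R : IntermediateField ℚ L, R = ⊥ ∨ R = ⊤) (h4 : ∃ d m : ℤ, discr L = d * m ^ 2 ∧ |d| ≤ κ) :
    ParC κ L := by
  refine ⟨h4, fun R hR => ?_⟩
  rcases h3 R with rfl | h
  · rw [discr_bot, mul_one, IntermediateField.finrank_bot]
    constructor
    · intro h
      exact absurd h h2
    · intro h
      exfalso
      exact (Nat.not_even_iff_odd.2 h) h1.add_one
  · exact absurd h hR

end Pool.Agent.H514.NG
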