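import Pool.Agent.H514.NG.StmG

/-! # Galois fields satisfy the criterion -/

set_option autoImplicit false

namespace Pool.Agent.H514.NG

open NumberField Pointwise
open scoped Classical nonZeroDivisors

namespace GCRH

open Pool.Agent.K1H79.TOR

variable {L : Type} [Field L] [NumberField L] [IsGalois ℚ L]

omit [IsGalois ℚ L] in
theorem smul_nat (c : Gal(L/ℚ)) (p : ℕ) : c • ((p : ℕ) : 𝓞 L) = ((p : ℕ) : 𝓞 L) := by
  refine RingOfIntegers.ext ?_
  have h1 : (((p : ℕ) : 𝓞 L) : L) = (p : L) := map_natCast (algebraMap (𝓞 L) L) p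
  have h2 : ((c • ((p : ℕ) : 𝓞 L) : 𝓞 L) : L) = c (((p : ℕ) : 𝓞 L) : L) := rfl
  rw [h2, h1, map_natCast]

omit [IsGalois ℚ L] in
/-- the group of `R` fixes the primes above a bad prime -/
theorem smul_eq (R : IntermediateField ℚ L) {p : ℕ} (hb : Bad R p) (P : Ideal (𝓞 L)) (hP : P.IsPrime)
    (hpP : (p : 𝓞 L) ∈ P) (u : Gal(L/ℚ)) (hu : u ∈ R.fixingSubgroup) : u • P = P := by
  refine hb (u • P) P inferInstance hP ?_ hpP ?_
  · rw [Ideal.mem_pointwise_smul_iff_inv_smul_mem]
    rw [smul_nat]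
    exact hpP
  · ext x
    rw [Ideal.mem_comap, Ideal.mem_comap, Ideal.mem_pointwise_smul_iff_inv_smul_mem]
    have h1 : u⁻¹ • algebraMap (𝓞 R) (𝓞 L) x = algebraMap (𝓞 R) (𝓞 L) x := by
      refine RingOfIntegers.ext ?_
      have h2 := (IntermediateField.mem_fixingSubgroup_iff R u⁻¹).1 (R.fixingSubgroup.inv_mem hu)
      exact h2 _ (x : R).2
    rw [h1]

omit [IsGalois ℚ L] in
/-- the normal closure of the group of `R` fixes the primes above a bad prime -/
theorem le_stab (R : IntermediateField ℚ L) {p : ℕ} (hb : Bad R p) (P : Ideal (𝓞 L)) (hP : P.IsPrime)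
    (hpP : (p : 𝓞 L) ∈ P) :
    Subgroup.normalClosure (R.fixingSubgroup : Set Gal(L/ℚ)) ≤ MulAction.stabilizer Gal(L/ℚ) P := by
  rw [Subgroup.normalClosure, Subgroup.closure_le]
  intro x hx
  obtain ⟨u, hu, hux⟩ := Group.mem_conjugatesOfSet_iff.1 hx
  obtain ⟨c, rfl⟩ := isConj_iff.1 hux
  have h1 : ((p : ℕ) : 𝓞 L) ∈ c⁻¹ • P := by
    rw [Ideal.mem_inv_pointwise_smul_iff]
    rw [smul_nat]
    exact hpP
  have h3 := smul_eq R hb (c⁻¹ • P) inferInstance h1 u hu
  change c * u * c⁻¹ ∈ MulAction.stabilizer Gal(L/ℚ) P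
  rw [MulAction.mem_stabilizer_iff, mul_smul, mul_smul, h3, smul_inv_smul]

omit [IsGalois ℚ L] in
/-- a prime of `L` above `p` -/
theorem exi_over {p : ℕ} (hp : p.Prime) : ∃ P : Ideal (𝓞 L), P.IsPrime ∧ P.LiesOver (Ideal.span {(p : ℤ)}) := by
  have hm := span_prime hp
  obtain ⟨P⟩ : Nonempty (Ideal.primesOver (Ideal.span {(p : ℤ)}) (𝓞 L)) := inferInstance
  exact ⟨P.1, inferInstance, inferInstance⟩

theorem disc_le {x : ℤ} (hx : x ≠ 0) {n : ℕ} (hn : 1 ≤ n) : |(x : ℝ)| ≤ n * |(x : ℝ)| ^ n := by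
  have h1 : (1 : ℝ) ≤ |(x : ℝ)| := by
    have : (1 : ℤ) ≤ |x| := Int.one_le_abs hx
    exact_mod_cast this
  have h2 : |(x : ℝ)| ≤ |(x : ℝ)| ^ n := le_self_pow₀ h1 (by omega)
  have h3 : (1 : ℝ) ≤ n := by exact_mod_cast hn
  have h4 : (0 : ℝ) ≤ |(x : ℝ)| ^ n := by positivity
  nlinarith

end GCRH

open Pool.Agent.K1H79.TOR GCRH in
/-- GCR: Galois fields whose group satisfies `GrpC` satisfy the criterion -/
theorem t_GCR : S_GCR := by
  intro L _ _ _ hG R hR
  have hn0 : 1 ≤ Module.finrank ℚ L := Module.finrank_pos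
  obtain ⟨N, hN⟩ : ∃ N : Subgroup Gal(L/ℚ),
    N = Subgroup.normalClosure (R.fixingSubgroup : Set Gal(L/ℚ)) := ⟨_, rfl⟩
  have hNn : N.Normal := by rw [hN]; infer_instance
  have hUN : R.fixingSubgroup ≤ N := by
    rw [hN]
    exact Subgroup.subset_normalClosure
  have hN0 : N ≠ ⊥ := by
    intro h
    apply hR
    have h1 : R.fixingSubgroup = ⊥ := by
      rw [eq_bot_iff, ← h]
      exact hUN
    rw [← IsGalois.fixedField_fixingSubgroup R, h1, IntermediateField.fixedField_bot]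
  -- the stabilizers at the bad primes
  have hst : ∀ p : ℕ, p.Prime → ¬ (p : ℤ) ∣ discr L → Bad R p → ∃ (P : Ideal (𝓞 L)) (g : Gal(L/ℚ)),
      P.IsPrime ∧ P.LiesOver (Ideal.span {(p : ℤ)}) ∧
      MulAction.stabilizer Gal(L/ℚ) P = Subgroup.zpowers g ∧ N ≤ Subgroup.zpowers g := by
    intro p hp hd hb
    obtain ⟨P, hP1, hP2⟩ := exi_over (L := L) hp
    have hcy := stab_cyclic hp hd P
    obtain ⟨⟨g, hg⟩, hgen⟩ := hcy.exists_generator
    have h1 : MulAction.stabilizer Gal(L/ℚ) P = Subgroup.zpowers g := by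
      apply le_antisymm
      · intro x hx
        obtain ⟨k, hk⟩ := Subgroup.mem_zpowers_iff.1 (hgen ⟨x, hx⟩)
        exact Subgroup.mem_zpowers_iff.2 ⟨k, congrArg Subtype.val hk⟩
      · exact Subgroup.zpowers_le.2 hg
    refine ⟨P, g, hP1, hP2, h1, ?_⟩
    rw [← h1, hN]
    exact le_stab R hb P hP1 (mem_of_over (p := p) P)
  by_cases hc : IsCyclic N
  · obtain ⟨H, hHn, hHt, hNH, hH⟩ := grp hG N hN0 hc
    let F := (FixedPoints.intermediateField H : IntermediateField ℚ L)
    have hgal : IsGaloisGroup H F L := inferInstance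
    have hdeg : 2 ≤ Module.finrank ℚ F ∧ Module.finrank ℚ F ≤ Module.finrank ℚ L := by
      have e1 := Module.finrank_mul_finrank ℚ F L
      have e2 : Module.finrank F L = Nat.card H := (IsGaloisGroup.card_eq_finrank H F L).symm
      have e3 : Module.finrank ℚ L = Nat.card Gal(L/ℚ) := (IsGaloisGroup.card_eq_finrank _ ℚ L).symm
      rw [e2] at e1
      have hpos : 0 < Nat.card H := Nat.card_pos
      have hne : Nat.card H ≠ Nat.card Gal(L/ℚ) := fun h => hHt (Subgroup.eq_top_of_card_eq H h)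
      constructor
      · rcases Nat.lt_or_ge (Module.finrank ℚ F) 2 with h | h
        · interval_cases h5 : Module.finrank ℚ F
          · rw [zero_mul] at e1; omega
          · rw [one_mul] at e1; exact absurd (e1.trans e3) hne
        · exact h
      · rw [← e1]
        exact Nat.le_mul_of_pos_right _ hpos
    have hFR : F ≤ R := by
      intro x hx
      have h1 : x ∈ IntermediateField.fixedField R.fixingSubgroup := by
        rintro ⟨u, hu⟩
        exact hx ⟨u, hNH (hUN hu)⟩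
      rwa [IsGalois.fixedField_fixingSubgroup R] at h1
    refine ⟨F, inferInstance, inferInstance, hdeg.2, ?_, ?_⟩
    · refine le_trans ?_ (disc_le (discr_ne_zero R) hn0)
      have h1 : discr F ∣ discr R := by
        let _ : Algebra F R := (IntermediateField.inclusion hFR).toRingHom.toAlgebra
        exact NumberField.discr_dvd_discr F R
      have h2 := Int.natAbs_le_of_dvd_ne_zero h1 (discr_ne_zero R)
      have h3 : |discr F| ≤ |discr R| := by
        rw [Int.abs_eq_natAbs, Int.abs_eq_natAbs]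
        exact_mod_cast h2
      exact_mod_cast h3
    · intro p hp _ hd hb
      obtain ⟨P, g, hP1, hP2, hPg, hNg⟩ := hst p hp hd hb
      have hgH : g ∈ H := hH g hNg
      obtain ⟨S, hS1, hS2⟩ := split (V := H) F hp P (by
        rw [hPg, Subgroup.zpowers_le]; exact hgH)
      exact ⟨S, by rw [hS1]; exact hdeg.1, hS2⟩
  · refine ⟨ℚ, inferInstance, inferInstance, ?_, ?_, ?_⟩
    · rw [Module.finrank_self]
      exact hn0
    · refine le_trans ?_ (disc_le (discr_ne_zero R) hn0)
      rw [Rat.numberField_discr, Int.cast_one, abs_one]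
      have : (1 : ℤ) ≤ |discr R| := Int.one_le_abs (discr_ne_zero R)
      exact_mod_cast this
    · intro p hp _ hd hb
      obtain ⟨P, g, hP1, hP2, hPg, hNg⟩ := hst p hp hd hb
      exfalso
      apply hc
      exact isCyclic_of_injective (Subgroup.inclusion hNg) (Subgroup.inclusion_injective hNg)

end Pool.Agent.H514.NG
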