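import Pool.Agent.H514.TR.Stm
import Pool.Graph.R_pool_sql_team_seeded_efc1946e.K1H79.GE.StmA

/-! # `ℓ`-torsion for fields which need not be Galois: statements

Owner helper514 (MP_695920_nt).  Everything else this file needs is in `Pool.Agent.H514.TR`. -/

set_option autoImplicit false

namespace Pool.Agent.H514.NG

open NumberField Pool.Agent.TH847.LS
open Pool.Agent.K1H79.GE (Hs S_SUB)
open Pool.Agent.H514.TR (ManyN S_MANY S_CLT)
open scoped Classical nonZeroDivisors

/-- different primes of `L` above `p` lie above different primes of `R` -/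
def Bad {L : Type} [Field L] [NumberField L] (R : IntermediateField ℚ L) (p : ℕ) : Prop :=
  ∀ P Q : Ideal (𝓞 L), P.IsPrime → Q.IsPrime → (p : 𝓞 L) ∈ P → (p : 𝓞 L) ∈ Q →
    P.comap (algebraMap (𝓞 R) (𝓞 L)) = Q.comap (algebraMap (𝓞 R) (𝓞 L)) → P = Q

/-- the criterion: for every subfield `R ≠ L` the bad primes have two prime factors of degree one in a fixed
field `F` whose discriminant is not much larger than that of `R` -/
def Crit (κ : ℕ) (L : Type) [Field L] [NumberField L] : Prop :=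
  ∀ R : IntermediateField ℚ L, R ≠ ⊤ → ∃ (F : Type) (_ : Field F) (_ : NumberField F),
    Module.finrank ℚ F ≤ κ ∧ |(discr F : ℝ)| ≤ κ * |(discr R : ℝ)| ^ κ ∧
    ∀ p : ℕ, p.Prime → κ < p → ¬ (p : ℤ) ∣ discr L → Bad R p →
      ∃ S : Finset (Ideal (𝓞 F)), 2 ≤ S.card ∧ ∀ Q ∈ S, Q.IsPrime ∧ Ideal.absNorm Q = p

/-- NG: **the result for the fields with the criterion, all `l`** -/
def S_NG : Prop := ∀ n l κ : ℕ, 1 ≤ l → ∃ δ C : ℝ, 0 < δ ∧ 0 < C ∧
  ∀ (L : Type) [Field L] [NumberField L], Module.finrank ℚ L = n → Crit κ L →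
    (Nat.card {c : ClassGroup (𝓞 L) // c ^ l = 1} : ℝ) ≤ C * |(discr L : ℝ)| ^ (1 / 2 - δ : ℝ)

/-- the number of prime ideals of `K` above `p` -/
noncomputable def rr (K : Type) [Field K] [NumberField K] (p : ℕ) : ℕ :=
  Nat.card {P : Ideal (𝓞 K) // P.IsPrime ∧ (p : 𝓞 K) ∈ P}

/-- an algebraic closure of `𝔽_p` -/
abbrev kk (p : ℕ) [Fact p.Prime] : Type := AlgebraicClosure (ZMod p)

/-- PEL1.  Proof.  Let `n = [K : ℚ]`, `A = integralClosure ℤ ℂ`, `𝔪` a maximal ideal of `A` which contains `p`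
(`p` is not a unit of `A`); `A / 𝔪` is a field, algebraic over `ZMod p` (every element is integral over `ℤ`), so
there is a homomorphism `A / 𝔪 → kk p` (`IsAlgClosed.lift`), and altogether `π : A →+* kk p`.  Let `φ_1, …, φ_n : K → ℂ` be
the embeddings and `h_i = π ∘ φ_i : 𝓞 K → kk p` (`φ_i` maps `𝓞 K` to `A`).  With an integral basis `b_1, …, b_n` one has
`discr K = det(φ_i(b_j)) ^ 2` (`NumberField.discr`, `Algebra.discr_eq_det_embeddingsMatrixReindex_pow_two`), so
`det(h_i(b_j)) ^ 2 = discr K` in `kk p` (apply `π`; `π (discr K) = discr K`).  This is not zero as `p ∤ discr K`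
(`CharP (kk p) p`), so the `h_i` are different (two equal rows).  Every ring homomorphism `h : 𝓞 K → kk p` is some `h_i`:
otherwise `h, h_1, …, h_n` are `n + 1` different monoid homomorphisms `𝓞 K → kk p`, which are linearly independent over
`kk p` (`linearIndependent_monoidHom`), but additive maps `𝓞 K → kk p` are determined by their values at
`b_1, …, b_n`, so that `n + 1` of them are linearly dependent (their vectors of values in `Fin n → kk p` are). -/
def S_PEL1 : Prop := ∀ (K : Type) [Field K] [NumberField K] (p : ℕ) [Fact p.Prime], ¬ (p : ℤ) ∣ discr K →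
  ∃ (n : ℕ) (h : Fin n → (𝓞 K →+* kk p)) (b : Fin n → 𝓞 K), n = Module.finrank ℚ K ∧ Function.Bijective h ∧
    (Matrix.of fun i j => h i (b j)).det ^ 2 = ((discr K : ℤ) : kk p)

/-- PEL2: the cycles of the Frobenius and the prime ideals.  Proof.  The kernel of `h : 𝓞 K → kk p` is a prime
ideal which contains `p`; `ker (frob ∘ h) = ker h`; so the kernel is constant on the cycles.  If `ker h = ker h' = P`,
then `h, h'` induce two embeddings of the finite field `𝓞 K / P` into `kk p`; they have the same image (the roots of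
`X ^ q - X`, `q = |𝓞 K / P|`) and differ by an automorphism of a finite field over `𝔽_p`, which is a power of the
Frobenius (e.g. `FiniteField.bijective_frobeniusAlgEquivOfAlgebraic_pow`, or the generator of `(𝓞 K / P)ˣ` goes under
`h'` to a root of the minimal polynomial over `𝔽_p` of its image under `h`, and these roots are the `p ^ m`-th powers), so
`h' = frob ^ m ∘ h` and `h, h'` are in one cycle.  Every prime `P` containing `p` is a kernel: `𝓞 K / P` is finite, hence
algebraic over `ZMod p`, and embeds into `kk p` (`IsAlgClosed.lift`). -/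
def S_PEL2 : Prop := ∀ (K : Type) [Field K] [NumberField K] (p : ℕ) [Fact p.Prime] (n : ℕ)
  (h : Fin n → (𝓞 K →+* kk p)), Function.Bijective h → ∀ σ : Equiv.Perm (Fin n),
  (∀ i, h (σ i) = (frobenius (kk p) p).comp (h i)) →
  Nat.card (Quotient (Equiv.Perm.SameCycle.setoid σ)) = rr K p

/-- SGN: the sign and the number of cycles (fixed points included).  Proof: `Equiv.Perm.sign_of_cycleType` and the
count of the cycles of `σ`: the classes of `SameCycle` are the fixed points and the supports of the factors in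
`σ.cycleFactorsFinset`, whose number is the number of elements of `σ.cycleType`, and the sum of `σ.cycleType` is the number of
points which are not fixed.  Or induction by `Equiv.Perm.swap_induction_on`-like argument / `cycle_induction_on`. -/
def S_SGN : Prop := ∀ (n : ℕ) (σ : Equiv.Perm (Fin n)),
  Equiv.Perm.sign σ = (-1 : ℤˣ) ^ (n + Nat.card (Quotient (Equiv.Perm.SameCycle.setoid σ)))

/-- PEL (Pellet, Stickelberger) -/
def S_PEL : Prop := ∀ (K : Type) [Field K] [NumberField K] (p : ℕ), p.Prime → p ≠ 2 → ¬ (p : ℤ) ∣ discr K →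
  (IsSquare ((discr K : ℤ) : ZMod p) ↔ Even (Module.finrank ℚ K + rr K p))

/-- PEL3.  Proof.  Take `n, h, b` from PEL1, `Δ = det(h_i(b_j))`, `Δ ^ 2 = discr K ≠ 0` in `kk p`.  `h_i ↦ frob ∘ h_i` is
injective, hence a permutation of the finite set of all homomorphisms; let `σ` be the permutation of `Fin n` with
`h (σ i) = frob ∘ h i`.  `Δ ^ p = frob Δ = det(frob(h_i(b_j))) = det(h_{σ i}(b_j)) = sign σ * Δ` (`RingHom.map_det`,
`Matrix.det_permute`).  `sign σ = (-1) ^ (n + rr K p)` by SGN and PEL2.  If `sign σ = 1`, then `Δ ^ p = Δ`, so `Δ` is in the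
image of `ZMod p` (the polynomial `X ^ p - X` has at most `p` roots and all elements of `ZMod p` are roots), and
`discr K` is a square in `ZMod p` (the map `ZMod p → kk p` is injective).  If `discr K = e ^ 2` in `ZMod p`, then `Δ = ± e`, so
`Δ ^ p = Δ` and `sign σ * Δ = Δ`, and `sign σ = 1` as `2 Δ ≠ 0`. -/
def S_PEL3 : Prop := S_PEL1 → S_PEL2 → S_SGN → S_PEL

/-- RR.  Proof: `P ↦ P ∩ 𝓞 R` is a map from the primes of `L` containing `p` to those of `R` containing `p`; it is
surjective (lying over, `𝓞 L` is integral over `𝓞 R`) and injective by `Bad`. -/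
def S_RR : Prop := ∀ (L : Type) [Field L] [NumberField L] (R : IntermediateField ℚ L) (p : ℕ), p.Prime →
  Bad R p → rr L p = rr R p

/-- QF.  Proof: `F = ℚ(θ)`, `θ ^ 2 = d` (a subfield of `ℂ`, or `AdjoinRoot`).  The bound for the discriminant is
`Pool.Agent.TH847.LG.disc_bound` with `z = θ`, `B = √|d|` (`(2 B) ^ (2 * 1) = 4 |d|`).  Let `a ^ 2 = d` modulo `p`.
`(θ - a) (θ + a) = d - a ^ 2` is divisible by `p`; a prime `Q` of `F` containing `p` contains `θ - a` or `θ + a` and not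
both (else `2 a ∈ Q`, but `p ∤ 2 a`); the automorphism `θ ↦ - θ` moves a prime of one kind to one of the other
kind; so there are two different primes above `p`, and both have norm `p` because the product of the norms divides
`p ^ 2` (they are coprime, so their product divides `(p)`) and each is a power of `p` different from `1`. -/
def S_QF : Prop := ∀ d : ℤ, ¬ IsSquare d → ∃ (F : Type) (_ : Field F) (_ : NumberField F),
  Module.finrank ℚ F = 2 ∧ |(discr F : ℝ)| ≤ 4 * |(d : ℝ)| ∧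
  ∀ p : ℕ, p.Prime → p ≠ 2 → ¬ (p : ℤ) ∣ d → IsSquare ((d : ℤ) : ZMod p) →
    ∃ S : Finset (Ideal (𝓞 F)), 2 ≤ S.card ∧ ∀ Q ∈ S, Q.IsPrime ∧ Ideal.absNorm Q = p

/-- the parity condition: the discriminant of `L` is `d m ^ 2` with `|d| ≤ κ`, and for the subfields `R ≠ L` the
product `disc L * disc R` is a square if and only if the degrees of `L` and `R` have different parity -/
def ParC (κ : ℕ) (L : Type) [Field L] [NumberField L] : Prop :=
  (∃ d m : ℤ, discr L = d * m ^ 2 ∧ |d| ≤ κ) ∧ ∀ R : IntermediateField ℚ L, R ≠ ⊤ →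
    (IsSquare (discr L * discr R) ↔ Odd (Module.finrank ℚ L + Module.finrank ℚ R))

/-- PAR.  Proof.  Let `R ≠ ⊤`, `n, e` the degrees of `L, R`, `discr L = d m ^ 2`.
Case `n + e` odd: `discr L * discr R` is a square.  `F = ℚ`.  There is no bad `p > 4 κ + 2`, `p ∤ discr L`: otherwise
`rr L p = rr R p` (RR), `p ∤ discr R` (`NumberField.discr_dvd_discr`), and by PEL `discr L` is a square mod `p` iff
`n + r` is even and `discr R` is a square mod `p` iff `e + r` is even, so exactly one of `discr L`, `discr R` is a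
square modulo `p`, and the product of a nonzero square and a nonsquare of the field `ZMod p` is not a square;
contradiction.
Case `n + e` even: `discr L * discr R = d m ^ 2 discr R` is not a square, so `D = d * discr R` is not a square. `F` = the
quadratic field of QF for `D`: `|discr F| ≤ 4 |d| |discr R| ≤ 4 κ |discr R| ≤ (4 κ + 2) |discr R| ^ (4 κ + 2)`.  If `p` is
bad, `p ∤ discr L`, `p > 4 κ + 2` then as above both or none of `discr L`, `discr R` are squares modulo `p`, so their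
product is a (nonzero) square modulo `p` (for `p` odd the product of two nonsquares in `ZMod p` is a square, e.g. by
`ZMod.euler_criterion` or `quadraticChar`), `p ∤ m`, so `D` is a square modulo `p`, `p ∤ D`. -/
def S_PARof : Prop := S_PEL → S_RR → S_QF → ∀ (κ : ℕ) (L : Type) [Field L] [NumberField L],
  ParC κ L → Crit (4 * κ + 2) L

/-- SEP.  Proof: if `(z : L) ∈ R` then `z` is the image of some `z' ∈ 𝓞 R`; `z ∈ Q` (`l ≥ 1`), so `z'` is in the
contraction of `Q`, which is the contraction of `Q'`, so `z ∈ Q'`.  So `Q ^ l * J ^ l ≤ Q'` and `Q ≤ Q'` or `J ≤ Q'`.  In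
the first case `Q = Q'` (`Q` is maximal because it is not zero), in the second `p ∈ J ≤ Q'` (as `(p) = Q₁ * J ≤ J`) and
`q ∈ Q'`, so `1 ∈ Q'`. -/
def S_SEP : Prop := ∀ (L : Type) [Field L] [NumberField L] (R : IntermediateField ℚ L) (l p q : ℕ), 1 ≤ l →
  p.Prime → q.Prime → p ≠ q → ∀ Q Q' Q₁ J : Ideal (𝓞 L), Q.IsPrime → Q'.IsPrime → (q : 𝓞 L) ∈ Q →
  (q : 𝓞 L) ∈ Q' → Q ≠ Q' →
  Q.comap (algebraMap (𝓞 R) (𝓞 L)) = Q'.comap (algebraMap (𝓞 R) (𝓞 L)) →
  Q₁ * J = Ideal.span {(p : 𝓞 L)} → ∀ z : 𝓞 L, Ideal.span {z} = Q ^ l * J ^ l → (z : L) ∉ R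

/-- PRM.  Proof: `Bad` fails, which gives `Q, Q'`; `Q ∣ (p)` gives `J`; `absNorm Q * absNorm J = p ^ n`
(`Ideal.absNorm_span_natCast`, `RingOfIntegers.rank`), so that both are powers of `p` (`Nat.dvd_prime_pow`). -/
def S_PRM : Prop := ∀ (L : Type) [Field L] [NumberField L] (n : ℕ), Module.finrank ℚ L = n →
  ∀ (R : IntermediateField ℚ L) (p : ℕ), p.Prime → ¬ Bad R p → ∃ (Q Q' J : Ideal (𝓞 L)) (m : ℕ), m ≤ n ∧
    Q.IsPrime ∧ Q'.IsPrime ∧ (p : 𝓞 L) ∈ Q ∧ (p : 𝓞 L) ∈ Q' ∧ Q ≠ Q' ∧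
    Q.comap (algebraMap (𝓞 R) (𝓞 L)) = Q'.comap (algebraMap (𝓞 R) (𝓞 L)) ∧ Q ≠ ⊥ ∧ J ≠ ⊥ ∧
    Q * J = Ideal.span {(p : 𝓞 L)} ∧ Ideal.absNorm Q = p ^ m ∧ Ideal.absNorm J = p ^ (n - m)

/-- SCN: the bound at one scale.  Proof.  Put `R = Hs L H` (`≠ ⊤`), `F` the field of `Crit` for `R`, `B` the set of
the primes `p ≤ X` with `κ < p`, `p ∤ discr L`, `¬ Bad R p`.  All other primes `p ≤ X` outside of `{q ≤ κ} ∪ {q ∣ discr L}` are bad,
so `ManyN κ A` for `F` with `B ∪ (primes ≤ κ) ∪ (prime divisors of discr L)` gives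
`X ^ (1/200) ≤ |B| + κ + ω(discr L)`.  For `p ∈ B` choose `Q_p, Q'_p, J_p, m_p` by PRM.  For every `m ≤ n` apply
`Pool.Agent.K1H79.TOR.ev_m` to `B_m = {p ∈ B | m_p = m}` with `P p = Q_p`, `J p = J_p`; its hypothesis `hsep`: if
`(z) = Q_q ^ l * J_p ^ l` and `w z ≤ (150 max(p, q)) ^ l ≤ (150 X) ^ l ≤ H` for all infinite places `w`, then `(z : L)` is one of the
generators of `Hs L H`, so `z ∈ R`, against SEP.  So `|B_m| h ≤ W` for every `m ≤ n`, and `|B| h ≤ (n + 1) W`. (Compare
`Pool.Agent.K1H79.TOR.scale`.) -/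
def S_SCNof : Prop := S_SEP → S_PRM → ∀ (L : Type) [Field L] [NumberField L] (n l κ : ℕ),
  Module.finrank ℚ L = n → 1 ≤ l → Crit κ L → ∀ A : ℝ, 1 ≤ A → ManyN κ A → ∀ X H : ℝ, 1 < X → Hs L H ≠ ⊤ →
  A * (1 + Real.log (κ * |(discr (Hs L H) : ℝ)| ^ κ)) ≤ Real.log X → (150 * X) ^ l ≤ H →
  ∀ N : ℕ, 2 ^ n * √|(discr L : ℝ)| < N →
    (X ^ (1 / 200 : ℝ) - (discr L).natAbs.primeFactors.card - κ) *
      (Nat.card {c : ClassGroup (𝓞 L) // c ^ l = 1} : ℝ) ≤
      (n + 1) * ∑ J ∈ FI L N, (1 + Real.log ((N : ℝ) / Ideal.absNorm J)) ^ n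

/-- the conclusion of `S_SCNof` -/
def S_SCN : Prop := ∀ (L : Type) [Field L] [NumberField L] (n l κ : ℕ),
  Module.finrank ℚ L = n → 1 ≤ l → Crit κ L → ∀ A : ℝ, 1 ≤ A → ManyN κ A → ∀ X H : ℝ, 1 < X → Hs L H ≠ ⊤ →
  A * (1 + Real.log (κ * |(discr (Hs L H) : ℝ)| ^ κ)) ≤ Real.log X → (150 * X) ^ l ≤ H →
  ∀ N : ℕ, 2 ^ n * √|(discr L : ℝ)| < N →
    (X ^ (1 / 200 : ℝ) - (discr L).natAbs.primeFactors.card - κ) *
      (Nat.card {c : ClassGroup (𝓞 L) // c ^ l = 1} : ℝ) ≤
      (n + 1) * ∑ J ∈ FI L N, (1 + Real.log ((N : ℝ) / Ideal.absNorm J)) ^ n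

/-- FIN: the chain of scales.  Proof (adapt `Pool.Agent.H514.TR.t_GALof` in `Pool/Agent/H514/TR/GAL.lean`, which has the
count of ideals `GALH.cnt`, `GALH.omega_le` and the real analysis `GALH.real_part`).  Let `C₀ = C ≥ 1` be the constant
of `S_SUB` (enlarge it: `|discr (Hs L H)| ≤ C₀ H ^ C₀` for `H ≥ 1`), `D = |discr L|`, `T_j = D ^ (κ₀ E ^ j)`, `j = 0, …, n + 1`, with a large
`E = E(n, l, κ, A, C₀)` and a small `κ₀`.  The degrees of the fields `Hs L T_j` increase with `j` (`Hs` is monotone: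
`Pool.Agent.H514.GE.Hs_mono` or directly `IntermediateField.adjoin.mono`) and lie in `1, …, n`, so there is `j ≤ n` with
`Hs L T_j = Hs L T_{j+1}` (same degree and `≤` give equality).  Put `H = T_{j+1}`, `t = T_j`, `X = t ^ a` with `a = a(κ, A, C₀)` large:
`|discr (Hs L H)| = |discr (Hs L t)| ≤ C₀ t ^ C₀`, so that `A (1 + log(κ |discr (Hs L H)| ^ κ)) ≤ a log t = log X` for large
`D` (if `κ = 0` the logarithm of `0` is `0`), and `(150 X) ^ l ≤ t ^ E = H` for large `E`; `Hs L H ≠ ⊤` because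
`C₀ t ^ C₀ < D` if `κ₀ E ^ n C₀ < 1` (small `κ₀`, large `D`; `discr` of the field `⊤ : IntermediateField ℚ L` is `discr L`:
`IntermediateField.topEquiv` and `NumberField.discr_eq_discr_of_algEquiv`).  Conclude as in `t_GALof`:
`X ^ (1/200) ≥ D ^ (κ₀ a / 200)` and `ω(discr L) ≤ 2 log D`; for small `D` use `S_CLT`. -/
def S_NGof : Prop := S_SUB → S_MANY → S_CLT → S_SCN → S_NG

end Pool.Agent.H514.NG
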