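import Pool.Agent.H514.TR.MAIN
import Pool.Agent.H514.NG.Stm

/-! # Fields generated by subfields with a power saving, or with such a subfield of large discriminant

Owner helper514. -/

set_option autoImplicit false

namespace Pool.Agent.H514.NG

open NumberField
open scoped Classical nonZeroDivisors

/-- a power saving for the fields of degree `n` with the property `P` -/
def Sv (P : ∀ (L : Type) [Field L] [NumberField L], Prop) (l n : ℕ) : Prop :=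
  ∃ δ C : ℝ, 0 < δ ∧ 0 < C ∧ ∀ (E : Type) [Field E] [NumberField E], Module.finrank ℚ E = n → P E →
      (Nat.card {c : ClassGroup (𝓞 E) // c ^ l = 1} : ℝ) ≤ C * |(discr E : ℝ)| ^ (1 / 2 - δ : ℝ)

variable {P : ∀ (L : Type) [Field L] [NumberField L], Prop}

theorem sv_or {Q : ∀ (L : Type) [Field L] [NumberField L], Prop} {l n : ℕ} (h1 : Sv (fun L _ _ => P L) l n)
    (h2 : Sv (fun L _ _ => Q L) l n) : Sv (fun L _ _ => P L ∨ Q L) l n := by
  obtain ⟨δ1, C1, hδ1, hC1, h1⟩ := h1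
  obtain ⟨δ2, C2, hδ2, hC2, h2⟩ := h2
  refine ⟨min δ1 δ2, max C1 C2, lt_min hδ1 hδ2, lt_max_of_lt_left hC1, ?_⟩
  intro E _ _ hE hG
  have hD := Pool.Agent.H514.GE.SIXN.one_le_disc E
  rcases hG with h | h
  · exact Pool.Agent.H514.GE.VVx.mono (h1 E hE h) hC1 hD (le_max_left _ _) (min_le_left _ _)
  · exact Pool.Agent.H514.GE.VVx.mono (h2 E hE h) hC2 hD (le_max_right _ _) (min_le_right _ _)

/-- uniformly in the degree -/
theorem sv' {l : ℕ} (hP : ∀ n, Sv (fun L _ _ => P L) l n) (n : ℕ) : ∃ δ C : ℝ, 0 < δ ∧ 0 < C ∧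
    ∀ (E : Type) [Field E] [NumberField E], Module.finrank ℚ E ≤ n → P E →
      (Nat.card {c : ClassGroup (𝓞 E) // c ^ l = 1} : ℝ) ≤ C * |(discr E : ℝ)| ^ (1 / 2 - δ : ℝ) := by
  induction n with
  | zero =>
    refine ⟨1, 1, one_pos, one_pos, fun E _ _ hE _ => ?_⟩
    have : 0 < Module.finrank ℚ E := Module.finrank_pos
    omega
  | succ n ih =>
    obtain ⟨δ1, C1, hδ1, hC1, h1⟩ := ih
    obtain ⟨δ2, C2, hδ2, hC2, h2⟩ := hP (n + 1)
    refine ⟨min δ1 δ2, max C1 C2, lt_min hδ1 hδ2, lt_max_of_lt_left hC1, ?_⟩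
    intro E _ _ hE hG
    have hD := Pool.Agent.H514.GE.SIXN.one_le_disc E
    rcases Nat.lt_or_ge n (Module.finrank ℚ E) with h | h
    · exact Pool.Agent.H514.GE.VVx.mono (h2 E (by omega) hG) hC2 hD (le_max_right _ _) (min_le_right _ _)
    · exact Pool.Agent.H514.GE.VVx.mono (h1 E h hG) hC1 hD (le_max_left _ _) (min_le_left _ _)

theorem bigP {l : ℕ} (hP : ∀ n, Sv (fun L _ _ => P L) l n) (n : ℕ) (A C1 : ℝ) (hA : 0 < A)
    (hC1 : 0 < C1) :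
    ∃ δ C : ℝ, 0 < δ ∧ 0 < C ∧ ∀ (L : Type) [Field L] [NumberField L], Module.finrank ℚ L = n →
      ∀ E : IntermediateField ℚ L, P E → |(discr L : ℝ)| ≤ C1 * |(discr E : ℝ)| ^ A →
      (Nat.card {c : ClassGroup (𝓞 L) // c ^ l = 1} : ℝ) ≤ C * |(discr L : ℝ)| ^ (1 / 2 - δ : ℝ) := by
  obtain ⟨δ, C, hδ, hC, h⟩ := sv' hP n
  obtain ⟨C2, hC2, h2⟩ := Pool.Agent.H514.TR.t_TL n l (δ / (2 * A)) (by positivity)
  refine ⟨δ / (2 * A), C2 * C * C1 ^ (δ / A), by positivity, by positivity, ?_⟩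
  intro L _ _ hL E hGE hED
  have hEn : Module.finrank ℚ E ≤ n := by
    rw [← hL, ← Module.finrank_mul_finrank ℚ E L]
    exact Nat.le_mul_of_pos_right _ Module.finrank_pos
  have h3 := h E hEn hGE
  have h4 : (Nat.card {c : ClassGroup (𝓞 L) // c ^ l = 1} : ℝ) ≤
      C2 * |(discr L : ℝ)| ^ (δ / (2 * A)) * √(|(discr L : ℝ)| / |(discr E : ℝ)|) *
        (Nat.card {c : ClassGroup (𝓞 E) // c ^ l = 1} : ℝ) := h2 E L hL
  obtain ⟨x, hx⟩ : ∃ x : ℝ, x = |(discr L : ℝ)| := ⟨_, rfl⟩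
  obtain ⟨y, hy⟩ : ∃ y : ℝ, y = |(discr E : ℝ)| := ⟨_, rfl⟩
  have hx1 : 1 ≤ x := by rw [hx]; exact Pool.Agent.H514.GE.SIXN.one_le_disc L
  have hy1 : 1 ≤ y := by rw [hy]; exact Pool.Agent.H514.GE.SIXN.one_le_disc E
  rw [← hx, ← hy] at h4
  rw [← hx] at hED ⊢
  rw [← hy] at h3 hED
  have hx0 : 0 < x := by linarith
  have hy0 : 0 < y := by linarith
  have h5 : √(x / y) = x ^ (1 / 2 : ℝ) * y ^ (-(1 / 2) : ℝ) := by
    rw [Real.sqrt_eq_rpow, Real.div_rpow hx0.le hy0.le, Real.rpow_neg hy0.le, div_eq_mul_inv]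
  have h6 : y ^ (-δ) ≤ C1 ^ (δ / A) * x ^ (-(δ / A)) := by
    have h7 : x ^ (δ / A) ≤ C1 ^ (δ / A) * y ^ δ := by
      calc x ^ (δ / A) ≤ (C1 * y ^ A) ^ (δ / A) := Real.rpow_le_rpow hx0.le hED (by positivity)
        _ = C1 ^ (δ / A) * y ^ δ := by
            rw [Real.mul_rpow hC1.le (by positivity), ← Real.rpow_mul hy0.le]
            congr 2
            field_simp
    rw [Real.rpow_neg hy0.le, Real.rpow_neg hx0.le]
    rw [inv_le_iff_one_le_mul₀ (by positivity)]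
    have h8 : 0 < x ^ (δ / A) := by positivity
    calc (1 : ℝ) = x ^ (δ / A) * (x ^ (δ / A))⁻¹ := (mul_inv_cancel₀ h8.ne').symm
      _ ≤ (C1 ^ (δ / A) * y ^ δ) * (x ^ (δ / A))⁻¹ := mul_le_mul_of_nonneg_right h7 (by positivity)
      _ = _ := by ring
  calc (Nat.card {c : ClassGroup (𝓞 L) // c ^ l = 1} : ℝ)
      ≤ C2 * x ^ (δ / (2 * A)) * √(x / y) * (Nat.card {c : ClassGroup (𝓞 E) // c ^ l = 1} : ℝ) := h4
    _ ≤ C2 * x ^ (δ / (2 * A)) * √(x / y) * (C * y ^ (1 / 2 - δ : ℝ)) :=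
        mul_le_mul_of_nonneg_left h3 (by positivity)
    _ = C2 * C * (x ^ (δ / (2 * A)) * x ^ (1 / 2 : ℝ)) * (y ^ (-(1 / 2) : ℝ) * y ^ (1 / 2 - δ : ℝ)) := by
        rw [h5]; ring
    _ = C2 * C * (x ^ (δ / (2 * A) + 1 / 2)) * y ^ (-δ) := by
        rw [← Real.rpow_add hx0, ← Real.rpow_add hy0]
        congr 2
        ring
    _ ≤ C2 * C * (x ^ (δ / (2 * A) + 1 / 2)) * (C1 ^ (δ / A) * x ^ (-(δ / A))) :=
        mul_le_mul_of_nonneg_left h6 (by positivity)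
    _ = C2 * C * C1 ^ (δ / A) * (x ^ (δ / (2 * A) + 1 / 2) * x ^ (-(δ / A))) := by ring
    _ = C2 * C * C1 ^ (δ / A) * x ^ (1 / 2 - δ / (2 * A) : ℝ) := by
        rw [← Real.rpow_add hx0]
        congr 2
        field_simp
        ring

/-- fields generated by subfields with the property `P`, or with such a subfield of large discriminant -/
theorem mainP {l : ℕ} (hP : ∀ n, Sv (fun L _ _ => P L) l n) (n : ℕ) (hn : 2 ≤ n) (η : ℝ) (hη : 0 < η) :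
    ∃ δ C : ℝ, 0 < δ ∧ 0 < C ∧ ∀ (L : Type) [Field L] [NumberField L], Module.finrank ℚ L = n →
      (sSup {E : IntermediateField ℚ L | P E} = ⊤ ∨
        ∃ E : IntermediateField ℚ L, P E ∧ |(discr L : ℝ)| ^ η ≤ |(discr E : ℝ)|) →
      (Nat.card {c : ClassGroup (𝓞 L) // c ^ l = 1} : ℝ) ≤ C * |(discr L : ℝ)| ^ (1 / 2 - δ : ℝ) := by
  obtain ⟨A0, C0, hA0, hC0, h0⟩ := Pool.Agent.H514.GE.t_CMPof Pool.Agent.K1H39.GE.t_SUB n
  obtain ⟨δ1, C1, hδ1, hC1, h1⟩ := bigP hP n A0 C0 hA0 hC0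
  obtain ⟨δ2, C2, hδ2, hC2, h2⟩ := bigP hP n (1 / η) 1 (by positivity) one_pos
  refine ⟨min δ1 δ2, max C1 C2, lt_min hδ1 hδ2, lt_max_of_lt_left hC1, ?_⟩
  intro L _ _ hL h
  have hD := Pool.Agent.H514.GE.SIXN.one_le_disc L
  rcases h with h | ⟨E, hE, hED⟩
  · obtain ⟨E, hE, hED⟩ := h0 L hL hn _ h
    exact Pool.Agent.H514.GE.VVx.mono (h1 L hL E hE hED) hC1 hD (le_max_left _ _) (min_le_left _ _)
  · refine Pool.Agent.H514.GE.VVx.mono (h2 L hL E hE ?_) hC2 hD (le_max_right _ _) (min_le_right _ _)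
    have hL0 : 0 < |(discr L : ℝ)| := by linarith
    have h5 := Real.rpow_le_rpow (by positivity) hED (show 0 ≤ 1 / η by positivity)
    rw [← Real.rpow_mul hL0.le, mul_one_div_cancel hη.ne', Real.rpow_one] at h5
    rw [one_mul]
    exact h5

end Pool.Agent.H514.NG
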