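import Pool.Agent.H514.NG.Stm
import Pool.Agent.H514.TR.GAL

/-! # The chain of scales (helper370 for helper514), adapted from `Pool.Agent.H514.TR.GAL` (helper895) -/

set_option autoImplicit false

namespace Pool.Agent.H514.NG

open NumberField Pool.Agent.TH847.LS
open Pool.Agent.K1H79.GE (Hs S_SUB)
open Pool.Agent.H514.TR (ManyN S_MANY S_CLT)
open scoped Classical nonZeroDivisors

namespace NGFH

open Filter Topology in
/-- the constants and the inequalities between real numbers -/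
theorem real_part (m l κ : ℕ) (A C : ℝ) (hA : 1 ≤ A) (hC : 1 ≤ C) : ∃ k E a D0 : ℝ, 0 < k ∧ 1 ≤ E ∧
    0 < a ∧ 1 ≤ D0 ∧ ∀ D : ℝ, D0 ≤ D → 2 * Real.log D + κ ≤ 1 / 2 * D ^ (k * a / 200) ∧
    ∀ j ≤ m, ∀ t t' X : ℝ, t = D ^ (k * E ^ j) → t' = D ^ (k * E ^ (j + 1)) → X = t ^ a →
      1 ≤ t ∧ 1 ≤ t' ∧ C * t ^ C < D ∧ 1 < X ∧
      (∀ d : ℝ, 1 ≤ d → d ≤ C * t ^ C → A * (1 + Real.log (κ * d ^ κ)) ≤ Real.log X) ∧
      (150 * X) ^ l ≤ t' ∧ D ^ (k * a / 200) ≤ X ^ (1 / 200 : ℝ) := by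
  have hκ0 : (0 : ℝ) ≤ κ := Nat.cast_nonneg κ
  obtain ⟨a, ha⟩ : ∃ a : ℝ, a = A * (2 + κ * (1 + C)) := ⟨_, rfl⟩
  have hκC : 0 ≤ (κ : ℝ) * (1 + C) := mul_nonneg hκ0 (by linarith)
  have ha1 : 1 ≤ a := by
    rw [ha]
    nlinarith
  have ha0 : 0 < a := by linarith
  have hl0 : (0 : ℝ) ≤ l := Nat.cast_nonneg l
  obtain ⟨E, hE⟩ : ∃ E : ℝ, E = 1 + (1 + a) * l := ⟨_, rfl⟩
  have hal : 0 ≤ (1 + a) * (l : ℝ) := mul_nonneg (by linarith) hl0
  have hE1 : 1 ≤ E := by
    rw [hE]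
    linarith
  have hE0 : 0 < E := by linarith
  have hEm : 0 < E ^ m := pow_pos hE0 _
  have hC0 : 0 < C := by linarith
  obtain ⟨k, hk⟩ : ∃ k : ℝ, k = 1 / (2 * C * E ^ m) := ⟨_, rfl⟩
  have hk0 : 0 < k := by
    rw [hk]
    positivity
  have hkC : k * E ^ m * C = 1 / 2 := by
    rw [hk]
    field_simp
  obtain ⟨t0, ht0⟩ : ∃ t0 : ℝ, t0 = 150 + κ + C := ⟨_, rfl⟩
  have hη : 0 < k * a / 200 := by positivity
  have hev1 : ∀ᶠ D : ℝ in atTop, t0 ≤ D ^ k := (tendsto_rpow_atTop hk0).eventually_ge_atTop t0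
  have hev2 : ∀ᶠ D : ℝ in atTop, C ^ 2 < D := eventually_gt_atTop _
  have hev3 : ∀ᶠ D : ℝ in atTop, 2 * Real.log D ≤ 1 / 4 * D ^ (k * a / 200) := by
    have h1 := (isLittleO_log_rpow_atTop hη).bound (show (0 : ℝ) < 1 / 8 by norm_num)
    filter_upwards [h1, eventually_ge_atTop 1] with D hD hD1
    rw [Real.norm_of_nonneg (Real.log_nonneg hD1), Real.norm_of_nonneg (Real.rpow_nonneg (by linarith) _)]
      at hD
    linarith
  have hev4 : ∀ᶠ D : ℝ in atTop, 4 * (κ : ℝ) ≤ D ^ (k * a / 200) :=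
    (tendsto_rpow_atTop hη).eventually_ge_atTop _
  obtain ⟨D1, hD1⟩ := (hev1.and (hev2.and (hev3.and hev4))).exists_forall_of_atTop
  refine ⟨k, E, a, max D1 1, hk0, hE1, ha0, le_max_right _ _, fun D hD => ?_⟩
  obtain ⟨h1, h2, h3, h3'⟩ := hD1 D ((le_max_left _ _).trans hD)
  have hDge : 1 ≤ D := (le_max_right _ _).trans hD
  have hDpos : 0 < D := by linarith
  refine ⟨by linarith, ?_⟩
  rintro j hj t t' X ht ht' hX
  have hEj : 1 ≤ E ^ j := one_le_pow₀ hE1
  have htt0 : t0 ≤ t := by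
    rw [ht]
    refine h1.trans (Real.rpow_le_rpow_of_exponent_le hDge ?_)
    nlinarith
  have htpos : 0 < t := by
    rw [ht]
    exact Real.rpow_pos_of_pos hDpos _
  rw [ht0] at htt0
  have ht150 : 150 ≤ t := by linarith
  have htκ : (κ : ℝ) ≤ t := by linarith
  have htC : C ≤ t := by linarith
  have htE : t' = t ^ E := by
    rw [ht', ht, ← Real.rpow_mul hDpos.le]
    congr 1
    rw [pow_succ]
    ring
  have htt1 : 1 ≤ t := by linarith
  have hX1 : t ≤ X := by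
    rw [hX]
    calc t = t ^ (1 : ℝ) := (Real.rpow_one t).symm
      _ ≤ t ^ a := Real.rpow_le_rpow_of_exponent_le htt1 ha1
  have hlogt : 1 ≤ Real.log t := by
    rw [Real.le_log_iff_exp_le htpos]
    have := Real.exp_one_lt_d9
    linarith
  refine ⟨htt1, ?_, ?_, by linarith, ?_, ?_, ?_⟩
  · rw [htE]
    exact Real.one_le_rpow htt1 hE0.le
  · have e1 : t ^ C ≤ D ^ (1 / 2 : ℝ) := by
      rw [ht, ← Real.rpow_mul hDpos.le]
      apply Real.rpow_le_rpow_of_exponent_le hDge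
      rw [← hkC]
      apply mul_le_mul_of_nonneg_right _ hC0.le
      apply mul_le_mul_of_nonneg_left _ hk0.le
      exact pow_le_pow_right₀ hE1 hj
    have e3 : C < D ^ (1 / 2 : ℝ) := by
      rw [← Real.sqrt_eq_rpow]
      exact Real.lt_sqrt_of_sq_lt h2
    calc C * t ^ C ≤ C * D ^ (1 / 2 : ℝ) := mul_le_mul_of_nonneg_left e1 hC0.le
      _ < D ^ (1 / 2 : ℝ) * D ^ (1 / 2 : ℝ) :=
          mul_lt_mul_of_pos_right e3 (Real.rpow_pos_of_pos hDpos _)
      _ = D := by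
          rw [← Real.rpow_add hDpos]
          norm_num
  · intro d hd1 hd
    have hd0 : 0 < d := by linarith
    have e1 : Real.log d ≤ (1 + C) * Real.log t := by
      have e2 := Real.log_le_log hd0 hd
      rw [Real.log_mul hC0.ne' (Real.rpow_pos_of_pos htpos _).ne', Real.log_rpow htpos] at e2
      have e3 := Real.log_le_log hC0 htC
      linarith
    have e4 : Real.log (κ * d ^ κ) ≤ Real.log t + κ * ((1 + C) * Real.log t) := by
      rcases Nat.eq_zero_or_pos κ with h0 | h0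
      · subst h0
        simp only [Nat.cast_zero, zero_mul, Real.log_zero, add_zero]
        linarith
      · have h0' : (0 : ℝ) < κ := by exact_mod_cast h0
        rw [Real.log_mul h0'.ne' (pow_pos hd0 _).ne', Real.log_pow]
        exact add_le_add (Real.log_le_log h0' htκ) (mul_le_mul_of_nonneg_left e1 hκ0)
    rw [hX, Real.log_rpow htpos, ha]
    have e5 : 1 + Real.log (κ * d ^ κ) ≤ (2 + κ * (1 + C)) * Real.log t := by linarith
    calc A * (1 + Real.log (κ * d ^ κ)) ≤ A * ((2 + κ * (1 + C)) * Real.log t) :=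
          mul_le_mul_of_nonneg_left e5 (by linarith)
      _ = A * (2 + κ * (1 + C)) * Real.log t := by ring
  · have hXpos : 0 < X := by linarith
    have e1 : 150 * X ≤ t ^ (1 + a) := by
      rw [Real.rpow_add htpos, Real.rpow_one, hX]
      exact mul_le_mul_of_nonneg_right ht150 (Real.rpow_nonneg htpos.le _)
    calc (150 * X) ^ l ≤ (t ^ (1 + a)) ^ l := pow_le_pow_left₀ (by positivity) e1 _
      _ = t ^ ((1 + a) * l) := by
          rw [← Real.rpow_natCast, ← Real.rpow_mul htpos.le]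
      _ ≤ t ^ E := by
          apply Real.rpow_le_rpow_of_exponent_le htt1
          rw [hE]
          linarith
      _ = t' := htE.symm
  · rw [hX, ht, ← Real.rpow_mul hDpos.le, ← Real.rpow_mul hDpos.le]
    apply Real.rpow_le_rpow_of_exponent_le hDge
    have h5 : k ≤ k * E ^ j := le_mul_of_one_le_right hk0.le hEj
    have h6 : k * a ≤ k * E ^ j * a := mul_le_mul_of_nonneg_right h5 ha0.le
    linarith

theorem Hs_mono {L : Type} [Field L] [NumberField L] {H H' : ℝ} (h : H ≤ H') : Hs L H ≤ Hs L H' := by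
  unfold Hs
  apply IntermediateField.adjoin.mono
  rintro x ⟨h1, h2⟩
  exact ⟨h1, fun w => (h2 w).trans h⟩

/-- two consecutive scales have the same field -/
theorem scale_gap {L : Type} [Field L] [NumberField L] (T : ℕ → ℝ) (hT : Monotone T) :
    ∃ j ≤ Module.finrank ℚ L, Hs L (T (j + 1)) = Hs L (T j) := by
  by_contra hcon
  push Not at hcon
  have h1 : ∀ j ≤ Module.finrank ℚ L,
      Module.finrank ℚ (Hs L (T j)) < Module.finrank ℚ (Hs L (T (j + 1))) := by
    intro j hj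
    have h2 : Hs L (T j) ≤ Hs L (T (j + 1)) := Hs_mono (hT (Nat.le_succ j))
    have h3 : Module.finrank ℚ (Hs L (T j)) ≤ Module.finrank ℚ (Hs L (T (j + 1))) :=
      Submodule.finrank_mono (s := Subalgebra.toSubmodule (Hs L (T j)).toSubalgebra)
        (t := Subalgebra.toSubmodule (Hs L (T (j + 1))).toSubalgebra) h2
    refine lt_of_le_of_ne h3 fun h4 => hcon j hj ?_
    exact (IntermediateField.eq_of_le_of_finrank_eq h2 h4).symm
  have h2 : ∀ j ≤ Module.finrank ℚ L + 1, j ≤ Module.finrank ℚ (Hs L (T j)) := by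
    intro j
    induction j with
    | zero => intro _; exact Nat.zero_le _
    | succ j ih =>
      intro hj
      have := h1 j (by omega)
      have := ih (by omega)
      omega
  have h3 := h2 (Module.finrank ℚ L + 1) le_rfl
  have h4 : Module.finrank ℚ (Hs L (T (Module.finrank ℚ L + 1))) ≤ Module.finrank ℚ L :=
    Submodule.finrank_le (Subalgebra.toSubmodule (Hs L (T (Module.finrank ℚ L + 1))).toSubalgebra)
  omega

theorem discr_top {L : Type} [Field L] [NumberField L] (R : IntermediateField ℚ L) (hR : R = ⊤) :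
    discr R = discr L := by
  subst hR
  exact NumberField.discr_eq_discr_of_algEquiv _ (IntermediateField.topEquiv (F := ℚ) (E := L))

end NGFH

open NGFH in
/-- **the chain of scales** -/
theorem t_NGof : S_NGof := by
  intro hSub hMany hClt hScn n l κ hl
  obtain ⟨A, hA1, hA⟩ := hMany κ
  obtain ⟨C2, hC2, hsub⟩ := hSub n
  obtain ⟨C0, hC0, hcl⟩ := hClt n
  obtain ⟨C, hC⟩ : ∃ C : ℝ, C = max C2 1 := ⟨_, rfl⟩
  have hCge : 1 ≤ C := hC ▸ le_max_right _ _
  have hC2C : C2 ≤ C := hC ▸ le_max_left _ _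
  obtain ⟨k, E, a, D0, hk, hE, ha, hD0, hreal⟩ := real_part n l κ A C hA1 hCge
  have hη : 0 < k * a / 200 := by positivity
  obtain ⟨η, hηd⟩ : ∃ η : ℝ, η = k * a / 200 := ⟨_, rfl⟩
  rw [← hηd] at hη hreal
  obtain ⟨C1, hC1, hcnt⟩ := Pool.Agent.H514.TR.GALH.cnt n (η / 2) (by linarith)
  have hD0pos : 0 < D0 := by linarith
  refine ⟨η / 2, max (C0 * D0 * D0 ^ (η / 2)) (2 * ((n + 1) * C1)), by linarith,
    lt_max_of_lt_left (mul_pos (mul_pos hC0 hD0pos) (Real.rpow_pos_of_pos hD0pos _)), ?_⟩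
  intro L _ _ hL hcrit
  obtain ⟨D, hD⟩ : ∃ D : ℝ, D = |(discr L : ℝ)| := ⟨_, rfl⟩
  have hD1 : (1 : ℝ) ≤ D := by
    rw [hD]
    have := Int.one_le_abs (discr_ne_zero L)
    exact_mod_cast this
  have hDpos : 0 < D := by linarith
  obtain ⟨H, hH⟩ : ∃ H : ℝ, H = (Nat.card {c : ClassGroup (𝓞 L) // c ^ l = 1} : ℝ) := ⟨_, rfl⟩
  have hH0 : 0 ≤ H := by
    rw [hH]
    exact Nat.cast_nonneg _
  rw [← hH, ← hD]
  by_cases hsmall : D < D0
  · have h1 : H ≤ C0 * D := by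
      rw [hD, hH]
      refine le_trans ?_ (hcl L hL)
      exact_mod_cast Nat.card_le_card_of_injective
        (fun c : {c : ClassGroup (𝓞 L) // c ^ l = 1} => c.1) Subtype.val_injective
    have h2 : 1 ≤ D0 ^ (η / 2) * D ^ (1 / 2 - η / 2 : ℝ) := by
      have h3 : D ^ (η / 2) ≤ D0 ^ (η / 2) := Real.rpow_le_rpow hDpos.le hsmall.le (by linarith)
      calc (1 : ℝ) ≤ D ^ (1 / 2 : ℝ) := Real.one_le_rpow hD1 (by norm_num)
        _ = D ^ (η / 2) * D ^ (1 / 2 - η / 2 : ℝ) := by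
            rw [← Real.rpow_add hDpos]
            ring_nf
        _ ≤ D0 ^ (η / 2) * D ^ (1 / 2 - η / 2 : ℝ) :=
            mul_le_mul_of_nonneg_right h3 (Real.rpow_nonneg hDpos.le _)
    have h4 : C0 * D ≤ C0 * D0 := mul_le_mul_of_nonneg_left hsmall.le hC0.le
    have h5 : 0 ≤ C0 * D0 := (mul_pos hC0 hD0pos).le
    calc H ≤ C0 * D0 * 1 := by linarith
      _ ≤ C0 * D0 * (D0 ^ (η / 2) * D ^ (1 / 2 - η / 2 : ℝ)) := mul_le_mul_of_nonneg_left h2 h5
      _ = C0 * D0 * D0 ^ (η / 2) * D ^ (1 / 2 - η / 2 : ℝ) := by ring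
      _ ≤ _ := mul_le_mul_of_nonneg_right (le_max_left _ _) (Real.rpow_nonneg hDpos.le _)
  · have hlarge : D0 ≤ D := not_lt.1 hsmall
    obtain ⟨hlog, hj⟩ := hreal D hlarge
    obtain ⟨j, hjm, hgap⟩ := scale_gap (L := L)
      (fun j => D ^ (k * E ^ j)) (monotone_nat_of_le_succ fun j =>
        Real.rpow_le_rpow_of_exponent_le hD1 (mul_le_mul_of_nonneg_left
          (pow_le_pow_right₀ hE (Nat.le_succ j)) hk.le))
    rw [hL] at hjm
    obtain ⟨e1, e2, e3, e4, e5, e6, e7⟩ := hj j hjm _ _ _ rfl rfl rfl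
    have hgap' : Hs L (D ^ (k * E ^ (j + 1))) = Hs L (D ^ (k * E ^ j)) := hgap
    have hdis : |(discr (Hs L (D ^ (k * E ^ (j + 1)))) : ℝ)| ≤ C * (D ^ (k * E ^ j)) ^ C := by
      rw [hgap']
      refine (hsub L hL _ e1).trans ?_
      have h0 : (D ^ (k * E ^ j)) ^ C2 ≤ (D ^ (k * E ^ j)) ^ C :=
        Real.rpow_le_rpow_of_exponent_le e1 hC2C
      exact mul_le_mul hC2C h0 (Real.rpow_nonneg (by linarith) _) (by linarith)
    have htop : Hs L (D ^ (k * E ^ (j + 1))) ≠ ⊤ := by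
      intro h0
      have h1 := discr_top _ h0
      rw [h1, ← hD] at hdis
      linarith
    have hdis1 : 1 ≤ |(discr (Hs L (D ^ (k * E ^ (j + 1)))) : ℝ)| := by
      have := Int.one_le_abs (discr_ne_zero (Hs L (D ^ (k * E ^ (j + 1)))))
      exact_mod_cast this
    obtain ⟨N, hN, hsum⟩ := hcnt L hL
    have hmain := hScn L n l κ hL hl hcrit A hA1 hA _ _ e4 htop (e5 _ hdis1 hdis) e6 N hN
    rw [← hD] at hsum
    rw [← hH] at hmain
    have h1 := Pool.Agent.H514.TR.GALH.omega_le (discr L) (discr_ne_zero L)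
    rw [← hD] at h1
    have h2 : 1 / 2 * D ^ η ≤ ((D ^ (k * E ^ j)) ^ a) ^ (1 / 200 : ℝ) -
        ((discr L).natAbs.primeFactors.card : ℝ) - κ := by linarith
    have h3 : 1 / 2 * D ^ η * H ≤ (n + 1) * (C1 * D ^ (1 / 2 + η / 2 : ℝ)) := by
      refine (mul_le_mul_of_nonneg_right h2 hH0).trans (hmain.trans ?_)
      exact mul_le_mul_of_nonneg_left hsum (by positivity)
    have h4 : D ^ (1 / 2 + η / 2 : ℝ) = D ^ η * D ^ (1 / 2 - η / 2 : ℝ) := by
      rw [← Real.rpow_add hDpos]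
      ring_nf
    have h5 : 0 < D ^ η := Real.rpow_pos_of_pos hDpos _
    have h6 : H ≤ 2 * ((n + 1) * C1) * D ^ (1 / 2 - η / 2 : ℝ) := by
      rw [h4] at h3
      have h7 : D ^ η * H ≤ D ^ η * (2 * ((n + 1) * C1) * D ^ (1 / 2 - η / 2 : ℝ)) := by
        linarith
      exact le_of_mul_le_mul_left h7 h5
    exact h6.trans (mul_le_mul_of_nonneg_right (le_max_right _ _) (Real.rpow_nonneg hDpos.le _))

end Pool.Agent.H514.NG
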