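import Pool.Agent.H514.NG.Stm

/-! # The parity of the discriminants implies the criterion (PAR)

Proof of `S_PARof`, written by helper134 for helper514 (MP_695920_nt). -/

set_option autoImplicit false

namespace Pool.Agent.H514.NG

open NumberField

namespace PARH

/-- in a field of prime order the product of two elements which are both squares or both nonsquares is a square -/
theorem isSquare_mul {p : ℕ} [Fact p.Prime] {a b : ZMod p} (h : IsSquare a ↔ IsSquare b) : IsSquare (a * b) := by
  by_cases ha : IsSquare a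
  · exact ha.mul (h.1 ha)
  · have hb : ¬ IsSquare b := fun hb => ha (h.2 hb)
    have ha' := quadraticChar_neg_one_iff_not_isSquare.2 ha
    have hb' := quadraticChar_neg_one_iff_not_isSquare.2 hb
    have ha0 : a ≠ 0 := by
      rintro rfl
      exact ha (IsSquare.zero)
    have hb0 : b ≠ 0 := by
      rintro rfl
      exact hb (IsSquare.zero)
    rw [← quadraticChar_one_iff_isSquare (mul_ne_zero ha0 hb0), map_mul, ha', hb']
    norm_num

/-- if `a ≠ 0` and `a b` is a square, then `a` is a square if and only if `b` is -/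
theorem isSquare_iff {p : ℕ} [Fact p.Prime] {a b : ZMod p} (ha : a ≠ 0) (hb : b ≠ 0)
    (h : IsSquare (a * b)) : IsSquare a ↔ IsSquare b := by
  constructor
  · intro h1
    have h2 : b = a * b / a := by
      rw [mul_div_cancel_left₀ b ha]
    rw [h2]
    exact h.div h1
  · intro h1
    have h2 : a = a * b / b := by
      rw [mul_div_cancel_right₀ a hb]
    rw [h2]
    exact h.div h1

theorem isSquare_cast {p : ℕ} {z : ℤ} (h : IsSquare z) : IsSquare ((z : ℤ) : ZMod p) := by
  obtain ⟨y, rfl⟩ := h
  exact ⟨(y : ZMod p), by push_cast; ring⟩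

end PARH

open PARH in
theorem t_PARof : S_PARof := by
  intro hPEL hRR hQF κ L _ _ hP R hR
  obtain ⟨⟨d, m, hdm, hd⟩, hpar⟩ := hP
  have hL0 : discr L ≠ 0 := discr_ne_zero L
  have hR0 : discr R ≠ 0 := discr_ne_zero R
  have hdvd : discr R ∣ discr L := discr_dvd_discr R L
  have hR1 : (1 : ℝ) ≤ |(discr R : ℝ)| := by
    have := Int.one_le_abs hR0
    exact_mod_cast this
  have hRpow : |(discr R : ℝ)| ≤ |(discr R : ℝ)| ^ (4 * κ + 2) :=
    le_self_pow₀ hR1 (by omega)
  -- the two discriminants at a bad prime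
  have key : ∀ p : ℕ, p.Prime → 4 * κ + 2 < p → ¬ (p : ℤ) ∣ discr L → Bad R p →
      ((IsSquare ((discr L : ℤ) : ZMod p) ↔ Even (Module.finrank ℚ L + rr L p)) ∧
      (IsSquare ((discr R : ℤ) : ZMod p) ↔ Even (Module.finrank ℚ R + rr L p))) := by
    intro p hp hκ hpL hbad
    refine ⟨hPEL L p hp (by omega) hpL, ?_⟩
    rw [hRR L R p hp hbad]
    exact hPEL R p hp (by omega) (fun h => hpL (h.trans hdvd))
  by_cases hodd : Odd (Module.finrank ℚ L + Module.finrank ℚ R)
  · have hsq := (hpar R hR).2 hodd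
    refine ⟨ℚ, inferInstance, inferInstance, ?_, ?_, ?_⟩
    · have : Module.finrank ℚ ℚ = 1 := Module.finrank_self ℚ
      omega
    · rw [discr_rat]
      push_cast
      rw [abs_one]
      nlinarith
    · intro p hp hκ hpL hbad
      exfalso
      have : Fact p.Prime := ⟨hp⟩
      obtain ⟨h1, h2⟩ := key p hp hκ hpL hbad
      have hLz : ((discr L : ℤ) : ZMod p) ≠ 0 := by
        rw [Ne, ZMod.intCast_zmod_eq_zero_iff_dvd]
        exact hpL
      have hRz : ((discr R : ℤ) : ZMod p) ≠ 0 := by
        rw [Ne, ZMod.intCast_zmod_eq_zero_iff_dvd]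
        exact fun h => hpL (h.trans hdvd)
      have h3 : IsSquare (((discr L : ℤ) : ZMod p) * ((discr R : ℤ) : ZMod p)) := by
        rw [← Int.cast_mul]
        exact isSquare_cast hsq
      have h4 := isSquare_iff hLz hRz h3
      rw [h1, h2] at h4
      rw [Nat.odd_add] at hodd
      rw [Nat.even_add, Nat.even_add] at h4
      have h5 := Nat.not_even_iff_odd (n := Module.finrank ℚ L)
      tauto
  · have hnsq : ¬ IsSquare (discr L * discr R) := fun h => hodd ((hpar R hR).1 h)
    have hm0 : m ≠ 0 := by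
      rintro rfl
      apply hL0
      rw [hdm]
      ring
    have hd0 : d ≠ 0 := by
      rintro rfl
      apply hL0
      rw [hdm]
      ring
    have hprod : discr L * discr R = (d * discr R) * m ^ 2 := by
      rw [hdm]
      ring
    have hD : ¬ IsSquare (d * discr R) := by
      intro h
      apply hnsq
      rw [hprod]
      exact h.mul (IsSquare.sq m)
    obtain ⟨F, iF, iN, hfin, hdisc, hspl⟩ := hQF (d * discr R) hD
    refine ⟨F, iF, iN, ?_, ?_, ?_⟩
    · omega
    · refine hdisc.trans ?_
      push_cast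
      rw [abs_mul]
      have hd' : |(d : ℝ)| ≤ κ := by exact_mod_cast hd
      have hκ0 : (0 : ℝ) ≤ κ := Nat.cast_nonneg κ
      have h0 : 0 ≤ |(discr R : ℝ)| := abs_nonneg _
      calc 4 * (|(d : ℝ)| * |(discr R : ℝ)|) ≤ 4 * (κ * |(discr R : ℝ)|) := by gcongr
        _ ≤ (4 * κ + 2) * |(discr R : ℝ)| := by nlinarith
        _ ≤ (4 * κ + 2) * |(discr R : ℝ)| ^ (4 * κ + 2) := by gcongr
    · intro p hp hκ hpL hbad
      have : Fact p.Prime := ⟨hp⟩
      obtain ⟨h1, h2⟩ := key p hp hκ hpL hbad
      have hLz : ((discr L : ℤ) : ZMod p) ≠ 0 := by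
        rw [Ne, ZMod.intCast_zmod_eq_zero_iff_dvd]
        exact hpL
      have hpd : ¬ (p : ℤ) ∣ d := fun h => hpL (by rw [hdm]; exact h.mul_right _)
      have hpm : ¬ (p : ℤ) ∣ m := fun h => hpL (by rw [hdm]; exact (h.pow two_ne_zero).mul_left _)
      have hpR : ¬ (p : ℤ) ∣ discr R := fun h => hpL (h.trans hdvd)
      have hpp : Prime (p : ℤ) := Nat.prime_iff_prime_int.1 hp
      refine hspl p hp (by omega) ?_ ?_
      · intro h
        rcases hpp.dvd_or_dvd h with h | h
        · exact hpd h
        · exact hpR h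
      · have h3 : IsSquare ((discr L : ℤ) : ZMod p) ↔ IsSquare ((discr R : ℤ) : ZMod p) := by
          rw [h1, h2, Nat.even_add, Nat.even_add]
          rw [Nat.not_odd_iff_even, Nat.even_add] at hodd
          tauto
        have h4 := isSquare_mul h3
        rw [← Int.cast_mul, hprod, Int.cast_mul] at h4
        have hmz : ((m : ℤ) : ZMod p) ≠ 0 := by
          rw [Ne, ZMod.intCast_zmod_eq_zero_iff_dvd]
          exact hpm
        have hm2 : (((m ^ 2 : ℤ)) : ZMod p) ≠ 0 := by
          push_cast
          exact pow_ne_zero 2 hmz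
        have h5 : IsSquare (((m ^ 2 : ℤ)) : ZMod p) := isSquare_cast (IsSquare.sq m)
        have h6 : ((d * discr R : ℤ) : ZMod p) =
            ((d * discr R : ℤ) : ZMod p) * ((m ^ 2 : ℤ) : ZMod p) / ((m ^ 2 : ℤ) : ZMod p) := by
          rw [mul_div_cancel_right₀ _ hm2]
        rw [h6]
        exact h4.div h5

end Pool.Agent.H514.NG
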