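import Pool.Agent.H514.NG.Stm

/-! # PEL1: the homomorphisms from `𝓞 K` to the closure of `𝔽_p` and the discriminant

Written by helper364. -/

set_option autoImplicit false

namespace Pool.Agent.H514.NG

open NumberField

namespace PEL1

/-- a homomorphism from the algebraic integers to the closure of `𝔽_p` -/
theorem exists_pi (p : ℕ) [Fact p.Prime] : Nonempty (integralClosure ℤ ℂ →+* kk p) := by
  have hp : p.Prime := Fact.out
  have hmax : (Ideal.span {(p : ℤ)}).IsMaximal := by
    apply PrincipalIdealRing.isMaximal_of_irreducible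
    exact (Nat.prime_iff_prime_int.1 hp).irreducible
  obtain ⟨Q, hQ, hQc⟩ := Ideal.exists_ideal_over_maximal_of_isIntegral
    (S := integralClosure ℤ ℂ) (Ideal.span {(p : ℤ)}) (by
      have : Function.Injective (algebraMap ℤ (integralClosure ℤ ℂ)) :=
        FaithfulSMul.algebraMap_injective _ _
      rw [(RingHom.injective_iff_ker_eq_bot _).1 this]
      exact bot_le)
  let _ : Field (integralClosure ℤ ℂ ⧸ Q) := Ideal.Quotient.field Q
  have hpQ : ((p : ℕ) : integralClosure ℤ ℂ ⧸ Q) = 0 := by
    have h1 : algebraMap ℤ (integralClosure ℤ ℂ) (p : ℤ) ∈ Q := by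
      rw [← Ideal.mem_comap, hQc]
      exact Ideal.mem_span_singleton_self _
    have h2 := Ideal.Quotient.eq_zero_iff_mem.2 h1
    rw [← h2]
    simp
  have : CharP (integralClosure ℤ ℂ ⧸ Q) p := (CharP.charP_iff_prime_eq_zero hp).2 hpQ
  let _ : Algebra (ZMod p) (integralClosure ℤ ℂ ⧸ Q) := ZMod.algebra _ p
  have : Algebra.IsAlgebraic (ZMod p) (integralClosure ℤ ℂ ⧸ Q) := by
    constructor
    intro x
    obtain ⟨y, rfl⟩ := Ideal.Quotient.mk_surjective x
    have h1 : IsIntegral ℤ y := Algebra.IsIntegral.isIntegral y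
    have h2 : IsIntegral ℤ (Ideal.Quotient.mk Q y) := h1.map (Ideal.Quotient.mkₐ ℤ Q)
    exact (h2.tower_top (A := ZMod p)).isAlgebraic
  exact ⟨((IsAlgClosed.lift : (integralClosure ℤ ℂ ⧸ Q) →ₐ[ZMod p] kk p) :
    (integralClosure ℤ ℂ ⧸ Q) →+* kk p).comp (Ideal.Quotient.mk Q)⟩

end PEL1

/-- PEL1 -/
theorem t_PEL1 : S_PEL1 := by
  intro K _ _ p _ hp
  obtain ⟨π⟩ := PEL1.exists_pi p
  have hcard : Fintype.card (Module.Free.ChooseBasisIndex ℤ (𝓞 K)) = Module.finrank ℚ K := by
    rw [← RingOfIntegers.rank, Module.finrank_eq_card_chooseBasisIndex]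
  have hcard2 : Fintype.card (K →ₐ[ℚ] ℂ) = Module.finrank ℚ K := AlgHom.card ℚ K ℂ
  let e0 : Fin (Module.finrank ℚ K) ≃ Module.Free.ChooseBasisIndex ℤ (𝓞 K) :=
    (Fintype.equivFinOfCardEq hcard).symm
  let e1 : Fin (Module.finrank ℚ K) ≃ (K →ₐ[ℚ] ℂ) := (Fintype.equivFinOfCardEq hcard2).symm
  let bb : Module.Basis (Fin (Module.finrank ℚ K)) ℤ (𝓞 K) := (RingOfIntegers.basis K).reindex e0.symm
  have hint : ∀ (φ : K →ₐ[ℚ] ℂ) (x : 𝓞 K), ((φ : K →+* ℂ).comp (algebraMap (𝓞 K) K)) x ∈
      integralClosure ℤ ℂ := by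
    intro φ x
    have h1 : IsIntegral ℤ (algebraMap (𝓞 K) K x) := RingOfIntegers.isIntegral_coe x
    exact h1.map (φ.restrictScalars ℤ)
  let h' : Fin (Module.finrank ℚ K) → (𝓞 K →+* integralClosure ℤ ℂ) := fun i =>
    RingHom.codRestrict (((e1 i : K →ₐ[ℚ] ℂ) : K →+* ℂ).comp (algebraMap (𝓞 K) K))
      (integralClosure ℤ ℂ) (hint (e1 i))
  have hA : (Matrix.of fun i j => h' i (bb j)).det ^ 2 = ((discr K : ℤ) : integralClosure ℤ ℂ) := by
    have hinjv : Function.Injective ((integralClosure ℤ ℂ).val : integralClosure ℤ ℂ →+* ℂ) :=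
      Subtype.coe_injective
    apply hinjv
    have h1 := Algebra.discr_eq_det_embeddingsMatrixReindex_pow_two ℚ ℂ
      (integralBasis K ∘ e0) e1
    have h2 : Algebra.discr ℚ (integralBasis K ∘ e0) = Algebra.discr ℚ (integralBasis K) :=
      Algebra.discr_reindex ℚ (integralBasis K) e0.symm
    rw [h2, ← coe_discr] at h1
    have h3 : ((integralClosure ℤ ℂ).val : integralClosure ℤ ℂ →+* ℂ)
        ((Matrix.of fun i j => h' i (bb j)).det ^ 2) =
        (Algebra.embeddingsMatrixReindex ℚ ℂ (integralBasis K ∘ e0) e1).det ^ 2 := by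
      rw [map_pow, RingHom.map_det, ← Matrix.det_transpose]
      congr 2
      ext i j
      have : bb i = RingOfIntegers.basis K (e0 i) := by
        show ((RingOfIntegers.basis K).reindex e0.symm) i = _
        rw [Module.Basis.reindex_apply, Equiv.symm_symm]
      simp only [Matrix.transpose_apply, RingHom.mapMatrix_apply, Matrix.map_apply, Matrix.of_apply,
        Algebra.embeddingsMatrixReindex, Matrix.reindex_apply, Matrix.submatrix_apply,
        Algebra.embeddingsMatrix_apply, Function.comp_apply, integralBasis_apply, Equiv.refl_symm,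
        Equiv.refl_apply, Equiv.symm_symm]
      rw [this]
      rfl
    have h4 : ((integralClosure ℤ ℂ).val : integralClosure ℤ ℂ →+* ℂ)
        ((discr K : ℤ) : integralClosure ℤ ℂ) = ((discr K : ℤ) : ℂ) := map_intCast _ _
    rw [h3, h4, ← h1]
    simp
  let h : Fin (Module.finrank ℚ K) → (𝓞 K →+* kk p) := fun i => π.comp (h' i)
  have hdet : (Matrix.of fun i j => h i (bb j)).det ^ 2 = ((discr K : ℤ) : kk p) := by
    have h1 := congrArg π hA
    rw [map_pow, RingHom.map_det, map_intCast] at h1
    exact h1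
  have hne : (Matrix.of fun i j => h i (bb j)).det ≠ 0 := by
    intro h0
    rw [h0, zero_pow two_ne_zero] at hdet
    have : CharP (kk p) p := inferInstance
    exact hp ((CharP.intCast_eq_zero_iff (kk p) p _).1 hdet.symm)
  have hinj : Function.Injective h := by
    intro i j hij
    by_contra hne'
    apply hne
    apply Matrix.det_zero_of_row_eq hne'
    funext k
    simp only [Matrix.of_apply]
    rw [hij]
  refine ⟨Module.finrank ℚ K, h, bb, rfl, ⟨hinj, ?_⟩, hdet⟩
  intro h0
  by_contra hno
  push Not at hno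
  let gg : Option (Fin (Module.finrank ℚ K)) → (𝓞 K →+* kk p) := fun o => o.elim h0 h
  have hgi : Function.Injective gg := by
    intro a b hab
    cases a with
    | none =>
      cases b with
      | none => rfl
      | some b => exact absurd hab.symm (hno b)
    | some a =>
      cases b with
      | none => exact absurd hab (hno a)
      | some b => exact congrArg some (hinj hab)
  have hli0 := linearIndependent_monoidHom (𝓞 K) (kk p)
  have hli : LinearIndependent (kk p) (fun o : Option (Fin (Module.finrank ℚ K)) =>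
      (fun x => gg o x : 𝓞 K → kk p)) := by
    have := hli0.comp (fun o => ((gg o : 𝓞 K →+* kk p) : 𝓞 K →* kk p)) (by
      intro a b hab
      apply hgi
      ext x
      exact DFunLike.congr_fun hab x)
    exact this
  have hli2 : LinearIndependent (kk p) (fun o : Option (Fin (Module.finrank ℚ K)) =>
      (fun j => gg o (bb j) : Fin (Module.finrank ℚ K) → kk p)) := by
    rw [Fintype.linearIndependent_iff] at hli ⊢
    intro c hc
    apply hli c
    let F : 𝓞 K →+ kk p := ∑ o, (AddMonoidHom.mulLeft (c o)).comp ((gg o : 𝓞 K →+* kk p) : 𝓞 K →+ kk p)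
    have hF : ∀ x, F x = ∑ o, c o * gg o x := by
      intro x
      simp only [F]
      rw [AddMonoidHom.finsetSum_apply]
      rfl
    have hF0 : F.toIntLinearMap = 0 := by
      apply bb.ext
      intro j
      have := congrFun hc j
      rw [Finset.sum_apply] at this
      rw [AddMonoidHom.coe_toIntLinearMap, hF, LinearMap.zero_apply]
      simpa using this
    funext x
    have h2 : F x = 0 := by
      have := DFunLike.congr_fun hF0 x
      simpa using this
    rw [hF] at h2
    rw [Finset.sum_apply]
    simpa using h2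
  have := hli2.fintype_card_le_finrank
  rw [Module.finrank_fin_fun, Fintype.card_option, Fintype.card_fin] at this
  omega

end Pool.Agent.H514.NG
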