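import Pool.Agent.H514.NG.Stm

/-!
# NG-PEL2: the cycles of the Frobenius on the homomorphisms to the closure of `𝔽_p` are the primes
-/

set_option autoImplicit false

namespace Pool.Agent.H514.NG

open NumberField
open scoped Classical nonZeroDivisors

namespace XPEL2

theorem ne_bot {K : Type} [Field K] [NumberField K] {p : ℕ} [hp : Fact p.Prime] {P : Ideal (𝓞 K)}
    (hpP : (p : 𝓞 K) ∈ P) : P ≠ ⊥ := by
  rintro rfl
  rw [Ideal.mem_bot] at hpP
  exact hp.out.ne_zero (by exact_mod_cast hpP)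

/-- two homomorphisms with the same kernel differ by a power of the Frobenius -/
theorem two_emb {K : Type} [Field K] [NumberField K] {p : ℕ} [hp : Fact p.Prime] {P : Ideal (𝓞 K)}
    (hP : P.IsPrime) (hpP : (p : 𝓞 K) ∈ P) (f g : 𝓞 K →+* kk p) (hf : RingHom.ker f = P)
    (hg : RingHom.ker g = P) : ∃ m : ℕ, ∀ x, g x = (f x) ^ p ^ m := by
  have hne : P ≠ ⊥ := ne_bot hpP
  have hmax : P.IsMaximal := hP.isMaximal hne
  let _ : Field (𝓞 K ⧸ P) := Ideal.Quotient.field P
  have _ : Finite (𝓞 K ⧸ P) := Ideal.finiteQuotientOfFreeOfNeBot P hne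
  have _ : CharP (𝓞 K ⧸ P) p := by
    refine (CharP.charP_iff_prime_eq_zero hp.out).2 ?_
    have h1 := Ideal.Quotient.eq_zero_iff_mem.2 hpP
    rwa [map_natCast] at h1
  let _ : Algebra (ZMod p) (𝓞 K ⧸ P) := ZMod.algebra _ p
  let ef : (𝓞 K ⧸ P) →+* kk p := Ideal.Quotient.lift P f (fun a ha => by
    rw [← hf] at ha
    exact ha)
  let eg : (𝓞 K ⧸ P) →+* kk p := Ideal.Quotient.lift P g (fun a ha => by
    rw [← hg] at ha
    exact ha)
  let af : (𝓞 K ⧸ P) →ₐ[ZMod p] kk p :=
    { ef with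
      commutes' := fun r => RingHom.congr_fun
        (Subsingleton.elim (ef.comp (algebraMap (ZMod p) (𝓞 K ⧸ P))) (algebraMap (ZMod p) (kk p))) r }
  let ag : (𝓞 K ⧸ P) →ₐ[ZMod p] kk p :=
    { eg with
      commutes' := fun r => RingHom.congr_fun
        (Subsingleton.elim (eg.comp (algebraMap (ZMod p) (𝓞 K ⧸ P))) (algebraMap (ZMod p) (kk p))) r }
  have hinj : Function.Injective (fun m : Fin (Module.finrank (ZMod p) (𝓞 K ⧸ P)) =>
      af.comp (FiniteField.frobeniusAlgHom (ZMod p) (𝓞 K ⧸ P) ^ m.1)) := by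
    intro a b hab
    refine (FiniteField.bijective_frobeniusAlgHom_pow (ZMod p) (𝓞 K ⧸ P)).1 ?_
    refine AlgHom.ext fun x => ?_
    have h1 := DFunLike.congr_fun hab x
    exact af.toRingHom.injective h1
  have hbij := hinj.bijective_of_nat_card_le
    ((card_algHom_le_finrank (ZMod p) (𝓞 K ⧸ P) (kk p)).trans_eq (by simp))
  obtain ⟨m, hm⟩ := hbij.2 ag
  refine ⟨m.1, fun x => ?_⟩
  have h1 := DFunLike.congr_fun hm (Ideal.Quotient.mk P x)
  have h2 : ag (Ideal.Quotient.mk P x) = g x := rfl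
  have h3 : (FiniteField.frobeniusAlgHom (ZMod p) (𝓞 K ⧸ P) ^ m.1) (Ideal.Quotient.mk P x) =
      Ideal.Quotient.mk P (x ^ p ^ m.1) := by
    rw [AlgHom.coe_pow, FiniteField.coe_frobeniusAlgHom, pow_iterate, ZMod.card, map_pow]
  have h4 : af ((FiniteField.frobeniusAlgHom (ZMod p) (𝓞 K ⧸ P) ^ m.1) (Ideal.Quotient.mk P x)) =
      ag (Ideal.Quotient.mk P x) := h1
  rw [h3, h2] at h4
  have h5 : af (Ideal.Quotient.mk P (x ^ p ^ m.1)) = f (x ^ p ^ m.1) := rfl
  rw [← h4, h5, map_pow]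

/-- every prime above `p` is a kernel -/
theorem exists_hom {K : Type} [Field K] [NumberField K] {p : ℕ} [hp : Fact p.Prime]
    {P : Ideal (𝓞 K)} (hP : P.IsPrime) (hpP : (p : 𝓞 K) ∈ P) :
    ∃ f : 𝓞 K →+* kk p, RingHom.ker f = P := by
  have hne : P ≠ ⊥ := ne_bot hpP
  have hmax : P.IsMaximal := hP.isMaximal hne
  let _ : Field (𝓞 K ⧸ P) := Ideal.Quotient.field P
  have _ : Finite (𝓞 K ⧸ P) := Ideal.finiteQuotientOfFreeOfNeBot P hne
  have _ : CharP (𝓞 K ⧸ P) p := by
    refine (CharP.charP_iff_prime_eq_zero hp.out).2 ?_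
    have h1 := Ideal.Quotient.eq_zero_iff_mem.2 hpP
    rwa [map_natCast] at h1
  let _ : Algebra (ZMod p) (𝓞 K ⧸ P) := ZMod.algebra _ p
  have _ : Module.Finite (ZMod p) (𝓞 K ⧸ P) := Module.Finite.of_finite
  have _ : Algebra.IsAlgebraic (ZMod p) (𝓞 K ⧸ P) := inferInstance
  let e : (𝓞 K ⧸ P) →ₐ[ZMod p] kk p := IsAlgClosed.lift
  refine ⟨e.toRingHom.comp (Ideal.Quotient.mk P), ?_⟩
  ext x
  rw [RingHom.mem_ker]
  constructor
  · intro h
    have h1 : e (Ideal.Quotient.mk P x) = 0 := h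
    have h2 : Ideal.Quotient.mk P x = 0 := e.toRingHom.injective (by
      rw [map_zero]
      exact h1)
    exact Ideal.Quotient.eq_zero_iff_mem.1 h2
  · intro h
    have h1 : e (Ideal.Quotient.mk P x) = 0 := by
      rw [Ideal.Quotient.eq_zero_iff_mem.2 h, map_zero]
    exact h1

end XPEL2

open XPEL2 in
theorem t_PEL2 : S_PEL2 := by
  intro K _ _ p hp n h hh σ hσ
  have hmem : ∀ i, (p : 𝓞 K) ∈ RingHom.ker (h i) := by
    intro i
    rw [RingHom.mem_ker, map_natCast]
    exact CharP.cast_eq_zero (kk p) p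
  have hstep : ∀ i, RingHom.ker (h (σ i)) = RingHom.ker (h i) := by
    intro i
    ext x
    rw [RingHom.mem_ker, RingHom.mem_ker, hσ i]
    constructor
    · intro hx
      have hx' : (h i x) ^ p = 0 := hx
      exact pow_eq_zero_iff hp.out.ne_zero |>.1 hx'
    · intro hx
      show (h i x) ^ p = 0
      rw [hx, zero_pow hp.out.ne_zero]
  have hpowN : ∀ (m : ℕ) i, RingHom.ker (h ((σ ^ m) i)) = RingHom.ker (h i) := by
    intro m
    induction m with
    | zero => intro i; simp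
    | succ m ih =>
      intro i
      rw [pow_succ, Equiv.Perm.mul_apply, ih, hstep]
  have hpow : ∀ (z : ℤ) i, RingHom.ker (h ((σ ^ z) i)) = RingHom.ker (h i) := by
    intro z i
    obtain ⟨m, hm | hm⟩ := z.eq_nat_or_neg
    · rw [hm, zpow_natCast, hpowN]
    · rw [hm, zpow_neg, zpow_natCast]
      have h1 := hpowN m ((σ ^ m)⁻¹ i)
      have h0 : (σ ^ m) ((σ ^ m)⁻¹ i) = i := (σ ^ m).apply_symm_apply i
      rw [h0] at h1
      exact h1.symm
  have hfrob : ∀ (m : ℕ) i x, h ((σ ^ m) i) x = (h i x) ^ p ^ m := by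
    intro m
    induction m with
    | zero => intro i x; simp
    | succ m ih =>
      intro i x
      rw [pow_succ, Equiv.Perm.mul_apply, ih, hσ i]
      show ((h i x) ^ p) ^ p ^ m = _
      rw [← pow_mul, ← pow_succ']
  unfold rr
  refine Nat.card_eq_of_bijective (α := Quotient (Equiv.Perm.SameCycle.setoid σ))
    (β := {P : Ideal (𝓞 K) // P.IsPrime ∧ (p : 𝓞 K) ∈ P})
    (Quotient.lift (fun i => ⟨RingHom.ker (h i), RingHom.ker_isPrime (h i), hmem i⟩) ?_) ?_
  · intro i j hij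
    obtain ⟨z, hz⟩ := hij
    have h1 := hpow z i
    rw [hz] at h1
    exact Subtype.ext h1.symm
  · constructor
    · intro a b
      induction a using Quotient.inductionOn with
      | h i =>
        induction b using Quotient.inductionOn with
        | h j =>
          intro hab
          have h1 : RingHom.ker (h i) = RingHom.ker (h j) := congrArg Subtype.val hab
          obtain ⟨m, hm⟩ := two_emb (RingHom.ker_isPrime (h i)) (hmem i) (h i) (h j) rfl h1.symm
          refine Quotient.sound ?_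
          refine ⟨(m : ℤ), ?_⟩
          apply hh.1
          refine RingHom.ext fun x => ?_
          rw [zpow_natCast, hfrob, hm]
    · rintro ⟨P, hP, hpP⟩
      obtain ⟨f, hf⟩ := exists_hom hP hpP
      obtain ⟨i, hi⟩ := hh.2 f
      refine ⟨Quotient.mk _ i, Subtype.ext ?_⟩
      show RingHom.ker (h i) = P
      rw [hi, hf]

end Pool.Agent.H514.NG
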