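import Pool.Agent.H514.NG.Stm

/-! # PEL3: the Pellet-Stickelberger theorem from its three pieces (helper93 for helper514) -/

set_option autoImplicit false

namespace Pool.Agent.H514.NG

open NumberField

namespace PEL3H93

/-- the Frobenius acts on the determinant by the sign -/
theorem frob_det {S : Type} [CommRing S] (p : ℕ) [Fact p.Prime] (n : ℕ) (h : Fin n → (S →+* kk p))
    (b : Fin n → S) (σ : Equiv.Perm (Fin n)) (hσ : ∀ i, h (σ i) = (frobenius (kk p) p).comp (h i)) :
    (Matrix.of fun i j => h i (b j)).det ^ p =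
      ((Equiv.Perm.sign σ : ℤ) : kk p) * (Matrix.of fun i j => h i (b j)).det := by
  have h1 := RingHom.map_det (frobenius (kk p) p) (Matrix.of fun i j => h i (b j))
  have h2 : (frobenius (kk p) p).mapMatrix (Matrix.of fun i j => h i (b j)) =
      (Matrix.of fun i j => h i (b j)).submatrix σ id := by
    ext i j
    rw [RingHom.mapMatrix_apply, Matrix.map_apply, Matrix.submatrix_apply, Matrix.of_apply,
      Matrix.of_apply, hσ i]
    rfl
  rw [h2, Matrix.det_permute] at h1
  rw [← h1]
  rfl

/-- the permutation -/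
theorem perm_ex {S : Type} [CommRing S] (p : ℕ) [Fact p.Prime] (n : ℕ) (h : Fin n → (S →+* kk p))
    (hb : Function.Bijective h) :
    ∃ σ : Equiv.Perm (Fin n), ∀ i, h (σ i) = (frobenius (kk p) p).comp (h i) := by
  set e : Fin n ≃ (S →+* kk p) := Equiv.ofBijective h hb with he
  have hinj : Function.Injective (fun i : Fin n => e.symm ((frobenius (kk p) p).comp (h i))) := by
    intro i j hij
    have h1 : (frobenius (kk p) p).comp (h i) = (frobenius (kk p) p).comp (h j) := e.symm.injective hij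
    apply hb.1
    ext x
    have h2 := RingHom.congr_fun h1 x
    exact frobenius_inj (kk p) p h2
  refine ⟨Equiv.ofBijective _ (Finite.injective_iff_bijective.mp hinj), fun i => ?_⟩
  rw [Equiv.ofBijective_apply]
  have h3 : ∀ g : S →+* kk p, h (e.symm g) = g := fun g => e.apply_symm_apply g
  exact h3 _

end PEL3H93

open PEL3H93 in
theorem t_PEL3 : S_PEL3 := by
  intro H1 H2 H3 K _ _ p hp hp2 hpd
  have : Fact p.Prime := ⟨hp⟩
  obtain ⟨n, h, b, hn, hbij, hdet⟩ := H1 K p hpd
  obtain ⟨σ, hσ⟩ := perm_ex p n h hbij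
  have hfr := frob_det p n h b σ hσ
  have hcard := H2 K p n h hbij σ hσ
  have hsgn := H3 n σ
  rw [hcard] at hsgn
  rw [← hn]
  set Δ := (Matrix.of fun i j => h i (b j)).det with hΔ
  have hd0 : ((discr K : ℤ) : kk p) ≠ 0 := by
    intro h0
    exact hpd ((CharP.intCast_eq_zero_iff (kk p) p _).mp h0)
  have hΔ0 : Δ ≠ 0 := by
    intro h0
    rw [h0] at hdet
    apply hd0
    rw [← hdet]
    exact zero_pow (by norm_num)
  have h20 : (2 : kk p) ≠ 0 := by
    intro h0
    have h1 : ((2 : ℕ) : kk p) = 0 := by exact_mod_cast h0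
    rw [CharP.cast_eq_zero_iff (kk p) p] at h1
    exact hp2 ((Nat.prime_dvd_prime_iff_eq hp Nat.prime_two).mp h1)
  constructor
  · rintro ⟨r, hr⟩
    obtain ⟨m, rfl⟩ := ZMod.intCast_surjective r
    -- in the closure
    have h1 : ((discr K : ℤ) : kk p) = (m : kk p) * (m : kk p) := by
      have h2 := congrArg (algebraMap (ZMod p) (kk p)) hr
      rwa [map_mul, map_intCast, map_intCast] at h2
    have h3 : Δ * Δ = (m : kk p) * (m : kk p) := by
      rw [← h1, ← hdet, sq]
    obtain ⟨m', hm'⟩ : ∃ m' : ℤ, Δ = (m' : kk p) := by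
      rcases mul_self_eq_mul_self_iff.mp h3 with h4 | h4
      · exact ⟨m, h4⟩
      · exact ⟨-m, by rw [h4]; push_cast; rfl⟩
    have h5 : Δ ^ p = Δ := by
      rw [hm']
      have h6 : ((m' : ZMod p)) ^ p = (m' : ZMod p) := ZMod.pow_card _
      have h7 := congrArg (algebraMap (ZMod p) (kk p)) h6
      rwa [map_pow, map_intCast] at h7
    rw [h5] at hfr
    by_contra hodd
    rw [Nat.not_even_iff_odd] at hodd
    have h8 : Equiv.Perm.sign σ = -1 := by
      rw [hsgn]; exact hodd.neg_one_pow
    rw [h8] at hfr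
    have h9 : Δ = -Δ := by
      calc Δ = (((-1 : ℤˣ) : ℤ) : kk p) * Δ := hfr
        _ = -Δ := by push_cast; ring
    have h10 : (2 : kk p) * Δ = 0 := by
      calc (2 : kk p) * Δ = Δ + Δ := by ring
        _ = Δ + (-Δ) := by rw [← h9]
        _ = 0 := by ring
    rcases mul_eq_zero.mp h10 with h11 | h11
    · exact h20 h11
    · exact hΔ0 h11
  · intro heven
    have h8 : Equiv.Perm.sign σ = 1 := by
      rw [hsgn]; exact heven.neg_one_pow
    rw [h8] at hfr
    have h5 : Δ ^ p = Δ := by
      rw [hfr]; simp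
    have h6 := (Subfield.mem_bot_iff_pow_eq_self (kk p) p).mpr h5
    obtain ⟨m, hm⟩ := (mem_bot_iff_intCast p (kk p)).mp h6
    refine ⟨(m : ZMod p), ?_⟩
    have h7 : ((discr K - m * m : ℤ) : kk p) = 0 := by
      push_cast
      rw [← hdet, ← hm]
      ring
    rw [CharP.intCast_eq_zero_iff (kk p) p] at h7
    have h9 := (ZMod.intCast_zmod_eq_zero_iff_dvd _ p).mpr h7
    push_cast at h9
    exact sub_eq_zero.mp h9

end Pool.Agent.H514.NG
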