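import Pool.Agent.H514.NG.Stm
import Pool.Graph.R_seed8.TH847.LG.Disc

/-! # Quadratic fields: the discriminant bound and the split primes -/

set_option autoImplicit false

namespace Pool.Agent.H514.NG

open NumberField Polynomial
open scoped Classical nonZeroDivisors IntermediateField

namespace QFh

/-- the polynomial -/
noncomputable def pf (d : ℤ) : ℚ[X] := X ^ 2 - C (d : ℚ)

theorem pf_irr {d : ℤ} (hd : ¬ IsSquare d) : Irreducible (pf d) := by
  unfold pf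
  refine X_pow_sub_C_irreducible_of_prime Nat.prime_two fun b hb => ?_
  apply hd
  rw [← Rat.isSquare_intCast_iff]
  exact ⟨b, by rw [← hb, sq]⟩

theorem pf_monic (d : ℤ) : (pf d).Monic := by
  unfold pf
  exact monic_X_pow_sub_C _ (by norm_num)

theorem pf_natDegree (d : ℤ) : (pf d).natDegree = 2 := by
  unfold pf
  exact natDegree_X_pow_sub_C

/-- a field of degree two with a root of `X ^ 2 - d` of trace zero -/
theorem exists_field {d : ℤ} (hd : ¬ IsSquare d) : ∃ (F : Type) (_ : Field F) (_ : NumberField F)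
    (θ : F), Module.finrank ℚ F = 2 ∧ θ ^ 2 = (d : F) ∧ ℚ⟮θ⟯ = ⊤ ∧ Algebra.trace ℚ F θ = 0 := by
  have : Fact (Irreducible (pf d)) := ⟨pf_irr hd⟩
  let pb := AdjoinRoot.powerBasis (pf_monic d).ne_zero
  have hfd : FiniteDimensional ℚ (AdjoinRoot (pf d)) := pb.finite
  have hcz : CharZero (AdjoinRoot (pf d)) := algebraRat.charZero _
  have hnf : NumberField (AdjoinRoot (pf d)) := ⟨⟩
  have hgen : pb.gen = AdjoinRoot.root (pf d) := AdjoinRoot.powerBasis_gen _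
  refine ⟨AdjoinRoot (pf d), inferInstance, hnf, AdjoinRoot.root (pf d), ?_, ?_, ?_, ?_⟩
  · have h1 := pb.finrank
    rw [AdjoinRoot.powerBasis_dim, pf_natDegree] at h1
    exact h1
  · have h1 := AdjoinRoot.eval₂_root (pf d)
    unfold pf at h1
    rw [eval₂_sub, eval₂_pow, eval₂_X, eval₂_C, sub_eq_zero] at h1
    rw [← map_intCast (AdjoinRoot.of (pf d)) d]
    exact h1
  · exact IntermediateField.adjoin_eq_top_of_algebra _ _ (AdjoinRoot.adjoinRoot_eq_top)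
  · have h1 := pb.trace_gen_eq_nextCoeff_minpoly
    rw [AdjoinRoot.minpoly_powerBasis_gen_of_monic (pf_monic d), hgen] at h1
    refine h1.trans ?_
    rw [nextCoeff, pf_natDegree, if_neg (by norm_num)]
    unfold pf
    rw [coeff_sub, coeff_X_pow, coeff_C, if_neg (by norm_num), if_neg (by norm_num), sub_zero,
      neg_zero]

section
variable {F : Type} [Field F] [NumberField F] {d : ℤ} {θ : 𝓞 F} {p : ℕ}

/-- the trace argument -/
theorem not_mem (h2 : Module.finrank ℚ F = 2) (ht : Algebra.trace ℚ F (θ : F) = 0)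
    {b : ℤ} (hb : ¬ (p : ℤ) ∣ 2 * b) : θ + (b : 𝓞 F) ∉ Ideal.span {(p : 𝓞 F)} := by
  intro h
  obtain ⟨z, hz⟩ := Ideal.mem_span_singleton'.1 h
  have h1 : (z : F) * (p : F) = (θ : F) + (b : F) := by
    have := congrArg (fun x : 𝓞 F => (x : F)) hz
    simpa using this
  have h3 : (z : F) * (p : F) = (p : ℚ) • (z : F) := by
    rw [Algebra.smul_def, map_natCast, mul_comm]
  have h4 : (b : F) = algebraMap ℚ F (b : ℚ) := by rw [map_intCast]
  have h5 := congrArg (Algebra.trace ℚ F) h1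
  rw [h3, map_smul, map_add, ht, zero_add, h4, Algebra.trace_algebraMap, h2] at h5
  obtain ⟨t, ht'⟩ : ∃ t : ℤ, (t : ℚ) = Algebra.trace ℚ F (z : F) := by
    have h6 : IsIntegral ℤ (Algebra.trace ℚ F (z : F)) :=
      Algebra.isIntegral_trace (RingOfIntegers.isIntegral_coe z)
    obtain ⟨t, ht'⟩ := IsIntegrallyClosed.isIntegral_iff.1 h6
    exact ⟨t, ht'⟩
  rw [← ht', smul_eq_mul, nsmul_eq_mul] at h5
  apply hb
  refine ⟨t, ?_⟩
  have h7 : ((2 * b : ℤ) : ℚ) = (((p : ℤ) * t : ℤ) : ℚ) := by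
    push_cast
    push_cast at h5
    exact h5.symm
  exact_mod_cast h7

theorem split (h2 : Module.finrank ℚ F = 2) (hθ : θ ^ 2 = (d : 𝓞 F))
    (ht : Algebra.trace ℚ F (θ : F) = 0) (hp : p.Prime) (hp2 : p ≠ 2) (hpd : ¬ (p : ℤ) ∣ d)
    (hsq : IsSquare ((d : ℤ) : ZMod p)) :
    ∃ S : Finset (Ideal (𝓞 F)), 2 ≤ S.card ∧ ∀ Q ∈ S, Q.IsPrime ∧ Ideal.absNorm Q = p := by
  have : Fact p.Prime := ⟨hp⟩
  obtain ⟨r, hr⟩ := hsq
  obtain ⟨a, rfl⟩ := ZMod.intCast_surjective r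
  have hda : (p : ℤ) ∣ d - a * a := by
    rw [← ZMod.intCast_zmod_eq_zero_iff_dvd]
    push_cast
    rw [hr, sub_self]
  have hpp : Prime (p : ℤ) := Nat.prime_iff_prime_int.1 hp
  have hpa : ¬ (p : ℤ) ∣ a := by
    intro h
    apply hpd
    have h1 : (p : ℤ) ∣ a * a := h.mul_right a
    have := dvd_add hda h1
    rwa [sub_add_cancel] at this
  have hp2a : ¬ (p : ℤ) ∣ 2 * a := by
    intro h
    rcases hpp.dvd_or_dvd h with h1 | h1
    · have h3 : p ∣ 2 := by exact_mod_cast h1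
      exact hp2 ((Nat.prime_dvd_prime_iff_eq hp Nat.prime_two).1 h3)
    · exact hpa h1
  have hp2a' : ¬ (p : ℤ) ∣ 2 * (-a) := by
    intro h
    apply hp2a
    rw [mul_neg, dvd_neg] at h
    exact h
  obtain ⟨x, y, hxy⟩ : IsCoprime (2 * a) (p : ℤ) := ((hpp.irreducible.coprime_iff_not_dvd).2 hp2a).symm
  obtain ⟨I, hI⟩ : ∃ I : Ideal (𝓞 F), I = Ideal.span {(p : 𝓞 F), θ + ((-a : ℤ) : 𝓞 F)} := ⟨_, rfl⟩
  obtain ⟨J, hJ⟩ : ∃ J : Ideal (𝓞 F), J = Ideal.span {(p : 𝓞 F), θ + ((a : ℤ) : 𝓞 F)} := ⟨_, rfl⟩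
  have hpI : (p : 𝓞 F) ∈ I := by
    rw [hI]; exact Ideal.subset_span (by simp)
  have hpJ : (p : 𝓞 F) ∈ J := by
    rw [hJ]; exact Ideal.subset_span (by simp)
  have hθI : θ + ((-a : ℤ) : 𝓞 F) ∈ I := by
    rw [hI]; exact Ideal.subset_span (by simp)
  have hθJ : θ + ((a : ℤ) : 𝓞 F) ∈ J := by
    rw [hJ]; exact Ideal.subset_span (by simp)
  have hIJ : I * J = Ideal.span {(p : 𝓞 F)} := by
    apply le_antisymm
    · rw [Ideal.mul_le]
      intro r hr s hs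
      rw [hI, Ideal.mem_span_pair] at hr
      rw [hJ, Ideal.mem_span_pair] at hs
      obtain ⟨r1, r2, rfl⟩ := hr
      obtain ⟨s1, s2, rfl⟩ := hs
      obtain ⟨m, hm⟩ := hda
      have hm' : (d : 𝓞 F) - a * a = p * m := by exact_mod_cast congrArg (Int.cast : ℤ → 𝓞 F) hm
      rw [Ideal.mem_span_singleton]
      refine ⟨r1 * (s1 * p + s2 * (θ + a)) + r2 * (θ - a) * s1 + r2 * s2 * m, ?_⟩
      push_cast
      linear_combination (r2 * s2) * hθ + (r2 * s2) * hm'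
    · rw [Ideal.span_le, Set.singleton_subset_iff]
      have h1 : (p : 𝓞 F) = x * ((p : 𝓞 F) * (θ + ((a : ℤ) : 𝓞 F)) -
          (θ + ((-a : ℤ) : 𝓞 F)) * (p : 𝓞 F)) + y * ((p : 𝓞 F) * (p : 𝓞 F)) := by
        have h2 : (x : 𝓞 F) * (2 * a) + y * p = 1 := by exact_mod_cast congrArg (Int.cast : ℤ → 𝓞 F) hxy
        push_cast
        linear_combination (-(p : 𝓞 F)) * h2
      have h3 : x * ((p : 𝓞 F) * (θ + ((a : ℤ) : 𝓞 F)) -
          (θ + ((-a : ℤ) : 𝓞 F)) * (p : 𝓞 F)) + y * ((p : 𝓞 F) * (p : 𝓞 F)) ∈ I * J :=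
        Ideal.add_mem _ (Ideal.mul_mem_left _ _ (Ideal.sub_mem _ (Ideal.mul_mem_mul hpI hθJ)
          (Ideal.mul_mem_mul hθI hpJ))) (Ideal.mul_mem_left _ _ (Ideal.mul_mem_mul hpI hpJ))
      rw [← h1] at h3
      exact h3
  have hI1 : I ≠ ⊤ := by
    intro h
    rw [h, Ideal.top_mul] at hIJ
    exact not_mem h2 ht hp2a (hIJ ▸ hθJ)
  have hJ1 : J ≠ ⊤ := by
    intro h
    rw [h, Ideal.mul_top] at hIJ
    exact not_mem h2 ht hp2a' (hIJ ▸ hθI)
  have hN : Ideal.absNorm I * Ideal.absNorm J = p ^ 2 := by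
    rw [← map_mul, hIJ, Ideal.absNorm_span_natCast, RingOfIntegers.rank, h2]
  obtain ⟨hNI, hNJ⟩ := (hp.mul_eq_prime_sq_iff (mt Ideal.absNorm_eq_one_iff.1 hI1)
    (mt Ideal.absNorm_eq_one_iff.1 hJ1)).1 hN
  have hne : I ≠ J := by
    intro h
    apply hI1
    rw [Ideal.eq_top_iff_one]
    have h3 : (1 : 𝓞 F) = x * ((θ + ((a : ℤ) : 𝓞 F)) - (θ + ((-a : ℤ) : 𝓞 F))) + y * (p : 𝓞 F) := by
      have h4 : (x : 𝓞 F) * (2 * a) + y * p = 1 := by exact_mod_cast congrArg (Int.cast : ℤ → 𝓞 F) hxy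
      push_cast
      linear_combination -h4
    rw [h3]
    exact Ideal.add_mem _ (Ideal.mul_mem_left _ _ (Ideal.sub_mem _ (h ▸ hθJ) hθI))
      (Ideal.mul_mem_left _ _ hpI)
  have hprime : ∀ K : Ideal (𝓞 F), Ideal.absNorm K = p → K.IsPrime := by
    intro K hK
    apply Ideal.isPrime_of_irreducible_absNorm
    rw [hK]
    exact hp
  refine ⟨{I, J}, ?_, ?_⟩
  · rw [Finset.card_pair hne]
  · intro Q hQ
    rw [Finset.mem_insert, Finset.mem_singleton] at hQ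
    rcases hQ with rfl | rfl
    · exact ⟨hprime _ hNI, hNI⟩
    · exact ⟨hprime _ hNJ, hNJ⟩

end

end QFh

/-- **QF.** -/
theorem t_QF : S_QF := by
  intro d hd
  obtain ⟨F, iF, iN, θ₀, h2, hθ, htop, ht⟩ := QFh.exists_field hd
  refine ⟨F, iF, iN, h2, ?_⟩
  have hint : IsIntegral ℤ θ₀ := by
    refine ⟨X ^ 2 - C d, monic_X_pow_sub_C _ (by norm_num), ?_⟩
    rw [eval₂_sub, eval₂_pow, eval₂_X, eval₂_C, hθ]
    simp
  obtain ⟨θ, hθ'⟩ : ∃ θ : 𝓞 F, (θ : F) = θ₀ := ⟨⟨θ₀, hint⟩, rfl⟩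
  rw [← hθ'] at hθ htop ht
  constructor
  · have h1 := Pool.Agent.TH847.LG.disc_bound h2 θ htop (B := √|(d : ℝ)|) (fun w => by
      have h3 : (w (θ : F)) ^ 2 = |(d : ℝ)| := by
        rw [← map_pow, hθ, ← InfinitePlace.norm_embedding_eq, map_intCast, Complex.norm_intCast]
      rw [← h3, Real.sqrt_sq (apply_nonneg w _)])
    refine h1.trans (le_of_eq ?_)
    rw [show 2 * (2 - 1) = 2 from rfl, mul_pow, Real.sq_sqrt (abs_nonneg _)]
    norm_num
  · intro p hp hp2 hpd hsq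
    have hθ2 : θ ^ 2 = (d : 𝓞 F) := by
      apply RingOfIntegers.coe_injective
      simpa using hθ
    exact QFh.split h2 hθ2 ht hp hp2 hpd hsq

end Pool.Agent.H514.NG
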