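import Pool.Agent.H514.NG.Stm

/-! # Bad primes have as many prime factors in `L` as in `R` (helper571 for helper514) -/

set_option autoImplicit false

namespace Pool.Agent.H514.NG

open NumberField

/-- RR -/
theorem t_RR : S_RR := by
  intro L _ _ R p hp hbad
  unfold rr
  refine Nat.card_eq_of_bijective
    (fun P : {P : Ideal (𝓞 L) // P.IsPrime ∧ (p : 𝓞 L) ∈ P} =>
      (⟨P.1.comap (algebraMap (𝓞 R) (𝓞 L)),
        haveI := P.2.1
        Ideal.comap_isPrime _ _, by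
          rw [Ideal.mem_comap, map_natCast]
          exact P.2.2⟩ : {P : Ideal (𝓞 R) // P.IsPrime ∧ (p : 𝓞 R) ∈ P})) ⟨?_, ?_⟩
  · rintro ⟨P, hP1, hP2⟩ ⟨Q, hQ1, hQ2⟩ h
    have h1 := congrArg Subtype.val h
    exact Subtype.ext (hbad P Q hP1 hQ1 hP2 hQ2 h1)
  · rintro ⟨Q, hQ1, hQ2⟩
    have := hQ1
    have hinj : Function.Injective (algebraMap (𝓞 R) (𝓞 L)) :=
      FaithfulSMul.algebraMap_injective _ _
    obtain ⟨P, -, hP1, hP2⟩ := Ideal.exists_ideal_over_prime_of_isIntegral (S := 𝓞 L) Q ⊥ (by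
      rw [Ideal.comap_bot_of_injective _ hinj]
      exact bot_le)
    refine ⟨⟨P, hP1, ?_⟩, Subtype.ext hP2⟩
    have h1 : (p : 𝓞 R) ∈ P.comap (algebraMap (𝓞 R) (𝓞 L)) := by
      rw [hP2]
      exact hQ2
    rw [Ideal.mem_comap, map_natCast] at h1
    exact h1

end Pool.Agent.H514.NG
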