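import Pool.Agent.H514.NG.Stm
import Pool.Graph.R_pool_sql_team_seeded_efc1946e.K1H79.TOR.Scale

/-! # The bound at one scale -/

set_option autoImplicit false

namespace Pool.Agent.H514.NG

open NumberField Pool.Agent.TH847.LS Pool.Agent.TH847.LG
open Pool.Agent.K1H79.GE (Hs)
open Pool.Agent.H514.TR (ManyN)
open scoped Classical nonZeroDivisors

theorem t_SCNof : S_SCNof := by
  intro hSEP hPRM L _ _ n l κ hn hl hcrit A hA1 hA X H hX1 hH hX hXH N hN
  have hX0 : 0 < X := by linarith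
  obtain ⟨F, iF1, iF2, hF1, hF2, hF3⟩ := hcrit (Hs L H) hH
  obtain ⟨U, hU⟩ : ∃ U : Finset ℕ, U = (Finset.range (⌊X⌋₊ + 1)).filter Nat.Prime := ⟨_, rfl⟩
  have hUm : ∀ p, p ∈ U ↔ p.Prime ∧ (p : ℝ) ≤ X := by
    intro p
    rw [hU, Finset.mem_filter, Finset.mem_range, Nat.lt_succ_iff, Nat.le_floor_iff hX0.le, and_comm]
  obtain ⟨B, hB⟩ : ∃ B : Finset ℕ, B = U.filter (fun p : ℕ => κ < p ∧ ¬ (p : ℤ) ∣ discr L ∧
      ¬ Bad (Hs L H) p) := ⟨_, rfl⟩
  have hBm : ∀ p, p ∈ B → p.Prime ∧ (p : ℝ) ≤ X ∧ ¬ Bad (Hs L H) p := by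
    intro p hp
    rw [hB, Finset.mem_filter, hUm] at hp
    exact ⟨hp.1.1, hp.1.2, hp.2.2.2⟩
  have hD0 : (discr L).natAbs ≠ 0 := Int.natAbs_ne_zero.2 (discr_ne_zero L)
  have hcard : ((B ∪ (Finset.Icc 1 κ ∪ (discr L).natAbs.primeFactors)).card : ℝ) ≤
      (B.card : ℝ) + (κ + (discr L).natAbs.primeFactors.card) := by
    have h1 : (B ∪ (Finset.Icc 1 κ ∪ (discr L).natAbs.primeFactors)).card ≤
        B.card + (κ + (discr L).natAbs.primeFactors.card) := by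
      refine (Finset.card_union_le _ _).trans (Nat.add_le_add_left ?_ _)
      refine (Finset.card_union_le _ _).trans ?_
      rw [Nat.card_Icc, Nat.add_sub_cancel]
    exact_mod_cast h1
  have hmany : X ^ (1 / 200 : ℝ) ≤
      ((B ∪ (Finset.Icc 1 κ ∪ (discr L).natAbs.primeFactors)).card : ℝ) := by
    refine hA F hF1 X hX1 ?_ _ ?_
    · refine le_trans ?_ hX
      have h2 : 0 < |(discr F : ℝ)| := abs_pos.2 (by exact_mod_cast discr_ne_zero F)
      have h1 := Real.log_le_log h2 hF2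
      have hA0 : 0 ≤ A := by linarith
      exact mul_le_mul_of_nonneg_left (by linarith) hA0
    · intro p hp hpX hpE
      rw [Finset.mem_union, Finset.mem_union, not_or, not_or] at hpE
      obtain ⟨h1, h2, h3⟩ := hpE
      have h4 : κ < p := by
        by_contra h4
        exact h2 (Finset.mem_Icc.2 ⟨hp.one_lt.le, Nat.le_of_not_lt h4⟩)
      have h5 : ¬ (p : ℤ) ∣ discr L := fun h => h3 (Nat.mem_primeFactors.2
        ⟨hp, Int.natCast_dvd.1 h, hD0⟩)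
      refine hF3 p hp h4 h5 ?_
      by_contra h6
      apply h1
      rw [hB, Finset.mem_filter, hUm]
      exact ⟨⟨hp, hpX⟩, h4, h5, h6⟩
  have hex : ∀ p : ℕ, ∃ (Q Q' J : Ideal (𝓞 L)) (m : ℕ), p ∈ B → (m ≤ n ∧
      Q.IsPrime ∧ Q'.IsPrime ∧ (p : 𝓞 L) ∈ Q ∧ (p : 𝓞 L) ∈ Q' ∧ Q ≠ Q' ∧
      Q.comap (algebraMap (𝓞 (Hs L H)) (𝓞 L)) = Q'.comap (algebraMap (𝓞 (Hs L H)) (𝓞 L)) ∧
      Q ≠ ⊥ ∧ J ≠ ⊥ ∧ Q * J = Ideal.span {(p : 𝓞 L)} ∧ Ideal.absNorm Q = p ^ m ∧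
      Ideal.absNorm J = p ^ (n - m)) := by
    intro p
    by_cases hp : p ∈ B
    · obtain ⟨h1, h2, h3⟩ := hBm p hp
      obtain ⟨Q, Q', J, m, h4⟩ := hPRM L n hn (Hs L H) p h1 h3
      exact ⟨Q, Q', J, m, fun _ => h4⟩
    · exact ⟨⊥, ⊥, ⊥, 0, fun h => absurd h hp⟩
  choose Q Q' J m hQ using hex
  set W := ∑ J ∈ FI L N, (1 + Real.log ((N : ℝ) / Ideal.absNorm J)) ^ n with hW
  set T : ℝ := (Nat.card {c : ClassGroup (𝓞 L) // c ^ l = 1} : ℝ) with hT
  have hT0 : 0 ≤ T := Nat.cast_nonneg _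
  have key : ∀ k ≤ n, ((B.filter fun p => m p = k).card : ℝ) * T ≤ W := by
    intro k hk
    have hm : ∀ p : {p // p ∈ B.filter fun p => m p = k}, p.1 ∈ B ∧ m p.1 = k := by
      rintro ⟨p, hp⟩
      exact Finset.mem_filter.1 hp
    have hQ0 : ∀ p : {p // p ∈ B.filter fun p => m p = k}, Q p.1 ≠ ⊥ := by
      intro p
      obtain ⟨-, -, -, -, -, -, -, h, -⟩ := hQ p.1 (hm p).1
      exact h
    have hJ0 : ∀ p : {p // p ∈ B.filter fun p => m p = k}, J p.1 ≠ ⊥ := by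
      intro p
      obtain ⟨-, -, -, -, -, -, -, -, h, -⟩ := hQ p.1 (hm p).1
      exact h
    refine Pool.Agent.K1H79.TOR.ev_m hk hn hl N hN (B.filter fun p => m p = k)
      (fun p => ⟨Q p.1, mem_nonZeroDivisors_of_ne_zero (hQ0 p)⟩)
      (fun p => ⟨J p.1, mem_nonZeroDivisors_of_ne_zero (hJ0 p)⟩) ?_ ?_
    · intro p
      obtain ⟨-, -, -, -, -, -, -, -, -, h1, h2, h3⟩ := hQ p.1 (hm p).1
      rw [(hm p).2] at h2 h3
      exact ⟨(hBm p.1 (hm p).1).1, h1, h2, h3⟩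
    · intro p q hpq z hz0 hz hw
      have hpB := hBm p.1 (hm p).1
      have hqB := hBm q.1 (hm q).1
      obtain ⟨-, g1, g2, g3, g4, g5, g6, -⟩ := hQ q.1 (hm q).1
      obtain ⟨-, -, -, -, -, -, -, -, -, h1, -⟩ := hQ p.1 (hm p).1
      refine hSEP L (Hs L H) l p.1 q.1 hl hpB.1 hqB.1 (fun h => hpq (Subtype.ext h)) (Q q.1)
        (Q' q.1) (Q p.1) (J p.1) g1 g2 g3 g4 g5 g6 h1 z hz ?_
      refine IntermediateField.subset_adjoin _ _ ⟨RingOfIntegers.isIntegral_coe z, fun w => ?_⟩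
      refine (hw w).trans (le_trans ?_ hXH)
      have hmax : ((max p.1 q.1 : ℕ) : ℝ) ≤ X := by
        push_cast
        exact max_le hpB.2.1 hqB.2.1
      gcongr
  have hsum : (B.card : ℝ) = ∑ k ∈ Finset.range (n + 1),
      ((B.filter fun p => m p = k).card : ℝ) := by
    have h3 := Finset.card_eq_sum_card_fiberwise (s := B) (t := Finset.range (n + 1))
      (f := m) (fun p hp => by
        have := (hQ p hp).1
        exact Finset.mem_coe.2 (Finset.mem_range.2 (by omega)))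
    exact_mod_cast h3
  have hfin : (B.card : ℝ) * T ≤ (n + 1) * W := by
    rw [hsum, Finset.sum_mul]
    refine (Finset.sum_le_sum fun k hk => key k (by
      have := Finset.mem_range.1 hk
      omega)).trans ?_
    rw [Finset.sum_const, Finset.card_range, nsmul_eq_mul]
    push_cast
    exact le_rfl
  refine le_trans ?_ hfin
  refine mul_le_mul_of_nonneg_right ?_ hT0
  linarith

end Pool.Agent.H514.NG
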