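import Pool.Agent.H514.NG.Stm

set_option autoImplicit false

namespace Pool.Agent.H514.NG

open NumberField
open scoped Classical nonZeroDivisors

theorem t_SEP : S_SEP := by
  intro L _ _ R l p q hl hp hq hpq Q Q' Q₁ J hQ hQ' hqQ hqQ' hne hc hJ z hz hzR
  have hq0 : (q : 𝓞 L) ≠ 0 := by
    exact_mod_cast hq.ne_zero
  have hQbot : Q ≠ ⊥ := by
    intro h
    rw [h] at hqQ
    exact hq0 (by simpa using hqQ)
  have hzint : IsIntegral ℤ (⟨(z : L), hzR⟩ : R) := by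
    have h1 : IsIntegral ℤ (z : L) := RingOfIntegers.isIntegral_coe z
    have h2 : algebraMap R L ⟨(z : L), hzR⟩ = (z : L) := rfl
    rw [← h2] at h1
    exact (isIntegral_algebraMap_iff (algebraMap R L).injective).1 h1
  obtain ⟨z', hz'⟩ : ∃ z' : 𝓞 R, (z' : R) = ⟨(z : L), hzR⟩ := ⟨⟨_, hzint⟩, rfl⟩
  have hzz : algebraMap (𝓞 R) (𝓞 L) z' = z := by
    apply RingOfIntegers.ext
    change algebraMap R L (z' : R) = (z : L)
    rw [hz']
    rfl
  have hzm : z ∈ Q ^ l * J ^ l := by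
    rw [← hz]
    exact Ideal.mem_span_singleton_self z
  have hzQ : z ∈ Q := by
    have h1 : Q ^ l * J ^ l ≤ Q := le_trans Ideal.mul_le_left (Ideal.pow_le_self (Nat.one_le_iff_ne_zero.1 hl))
    exact h1 hzm
  have hzQ' : z ∈ Q' := by
    have h1 : z' ∈ Q.comap (algebraMap (𝓞 R) (𝓞 L)) := by
      rw [Ideal.mem_comap, hzz]
      exact hzQ
    rw [hc, Ideal.mem_comap, hzz] at h1
    exact h1
  have hle : Q ^ l * J ^ l ≤ Q' := by
    rw [← hz, Ideal.span_singleton_le_iff_mem]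
    exact hzQ'
  rcases (hQ'.mul_le).1 hle with h | h
  · have h1 : Q ≤ Q' := (hQ'.pow_le_iff (by omega)).1 h
    have h2 : Q.IsMaximal := hQ.isMaximal hQbot
    exact hne (h2.eq_of_le hQ'.ne_top h1)
  · have h1 : J ≤ Q' := (hQ'.pow_le_iff (by omega)).1 h
    have h2 : (p : 𝓞 L) ∈ Q' := by
      apply h1
      have h3 : (p : 𝓞 L) ∈ Q₁ * J := by
        rw [hJ]
        exact Ideal.mem_span_singleton_self _
      exact Ideal.mul_le_right h3
    obtain ⟨a, b, hab⟩ : IsCoprime (p : 𝓞 L) (q : 𝓞 L) :=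
      Nat.Coprime.cast ((Nat.coprime_primes hp hq).2 hpq)
    apply hQ'.ne_top
    rw [Ideal.eq_top_iff_one, ← hab]
    exact Q'.add_mem (Q'.mul_mem_left _ h2) (Q'.mul_mem_left _ hqQ')

theorem t_PRM : S_PRM := by
  intro L _ _ n hn R p hp hB
  unfold Bad at hB
  push Not at hB
  obtain ⟨Q, Q', hQ, hQ', h1, h2, h3, h4⟩ := hB
  have hp0 : (p : 𝓞 L) ≠ 0 := by
    exact_mod_cast hp.ne_zero
  have hspan : Ideal.span {(p : 𝓞 L)} ≠ ⊥ := by
    rw [Ne, Ideal.span_singleton_eq_bot]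
    exact hp0
  obtain ⟨J, hJ⟩ : Q ∣ Ideal.span {(p : 𝓞 L)} := by
    rw [Ideal.dvd_span_singleton]
    exact h1
  have hQb : Q ≠ ⊥ := by
    intro h
    rw [h] at hJ
    exact hspan (by rw [hJ, ← Ideal.zero_eq_bot, zero_mul])
  have hJb : J ≠ ⊥ := by
    intro h
    rw [h] at hJ
    exact hspan (by rw [hJ, ← Ideal.zero_eq_bot, mul_zero])
  have hnorm : Ideal.absNorm Q * Ideal.absNorm J = p ^ n := by
    rw [← map_mul, ← hJ, Ideal.absNorm_span_natCast, RingOfIntegers.rank, hn]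
  obtain ⟨m, hm, hQm⟩ := (Nat.dvd_prime_pow hp).1 (Dvd.intro _ hnorm)
  refine ⟨Q, Q', J, m, hm, hQ, hQ', h1, h2, h4, h3, hQb, hJb, hJ.symm, hQm, ?_⟩
  rw [hQm] at hnorm
  have h5 : p ^ m * Ideal.absNorm J = p ^ m * p ^ (n - m) := by
    rw [hnorm, ← pow_add]
    congr 1
    omega
  exact Nat.eq_of_mul_eq_mul_left (pow_pos hp.pos m) h5

end Pool.Agent.H514.NG
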