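import Pool.Agent.H514.NG.Stm

/-! # Project NG of helper514, part SGN: the sign and the number of cycles -/

set_option autoImplicit false

namespace Pool.Agent.H514.NG

open Equiv.Perm

namespace H367

/-- the class of a point: a fixed point or its cycle -/
noncomputable def cl {n : ℕ} (σ : Equiv.Perm (Fin n)) (x : Fin n) : Fin n ⊕ Equiv.Perm (Fin n) :=
  if σ x = x then Sum.inl x else Sum.inr (σ.cycleOf x)

theorem cl_eq_iff {n : ℕ} (σ : Equiv.Perm (Fin n)) (x y : Fin n) :
    cl σ x = cl σ y ↔ σ.SameCycle x y := by
  unfold cl
  constructor
  · intro h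
    by_cases hx : σ x = x
    · by_cases hy : σ y = y
      · rw [if_pos hx, if_pos hy] at h
        rw [Sum.inl_injective h]
      · rw [if_pos hx, if_neg hy] at h
        exact absurd h (by simp)
    · by_cases hy : σ y = y
      · rw [if_neg hx, if_pos hy] at h
        exact absurd h (by simp)
      · rw [if_neg hx, if_neg hy] at h
        have h1 := Sum.inr_injective h
        exact (sameCycle_iff_cycleOf_eq_of_mem_support (mem_support.2 hx) (mem_support.2 hy)).2 h1
  · intro h
    by_cases hx : σ x = x
    · have h1 : x = y := h.eq_of_left hx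
      rw [h1]
    · have hy : ¬ σ y = y := by
        intro hy
        have h1 : x = y := h.eq_of_right hy
        rw [h1] at hx
        exact hx hy
      rw [if_neg hx, if_neg hy, h.cycleOf_eq]

theorem card_classes {n : ℕ} (σ : Equiv.Perm (Fin n)) :
    Nat.card (Quotient (SameCycle.setoid σ)) = (n - σ.support.card) + σ.cycleFactorsFinset.card := by
  classical
  set T : Finset (Fin n ⊕ Equiv.Perm (Fin n)) := (σ.supportᶜ).disjSum σ.cycleFactorsFinset with hT
  have hTc : T.card = (n - σ.support.card) + σ.cycleFactorsFinset.card := by
    rw [hT, Finset.card_disjSum, Finset.card_compl, Fintype.card_fin]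
  have hmem : ∀ x, cl σ x ∈ T := by
    intro x
    unfold cl
    rw [hT]
    split_ifs with hx
    · rw [Finset.inl_mem_disjSum, Finset.mem_compl, mem_support]
      exact not_not.2 hx
    · rw [Finset.inr_mem_disjSum, cycleOf_mem_cycleFactorsFinset_iff, mem_support]
      exact hx
  let G : Quotient (SameCycle.setoid σ) → T :=
    Quotient.lift (fun x => (⟨cl σ x, hmem x⟩ : T)) fun x y h =>
      Subtype.ext ((cl_eq_iff σ x y).2 h)
  have hG : Function.Bijective G := by
    constructor
    · intro a b
      induction a using Quotient.inductionOn with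
      | h x =>
        induction b using Quotient.inductionOn with
        | h y =>
          intro h
          exact Quotient.sound ((cl_eq_iff σ x y).1 (congrArg Subtype.val h))
    · rintro ⟨t, ht⟩
      rw [hT] at ht
      rcases t with x | c
      · rw [Finset.inl_mem_disjSum, Finset.mem_compl, mem_support, not_not] at ht
        refine ⟨Quotient.mk _ x, Subtype.ext ?_⟩
        show cl σ x = _
        unfold cl
        rw [if_pos ht]
      · rw [Finset.inr_mem_disjSum] at ht
        obtain ⟨x, hx⟩ := (mem_cycleFactorsFinset_iff.1 ht).1.nonempty_support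
        have h1 := cycle_is_cycleOf hx ht
        have h2 : x ∈ σ.support := mem_cycleFactorsFinset_support_le ht hx
        refine ⟨Quotient.mk _ x, Subtype.ext ?_⟩
        show cl σ x = _
        unfold cl
        rw [if_neg (mem_support.1 h2), ← h1]
  rw [Nat.card_eq_of_bijective G hG, Nat.card_eq_fintype_card, Fintype.card_coe, hTc]

end H367

theorem t_SGN : S_SGN := by
  intro n σ
  rw [H367.card_classes, sign_of_cycleType, sum_cycleType]
  have h1 : Multiset.card σ.cycleType = σ.cycleFactorsFinset.card := by
    rw [cycleType_def, Multiset.card_map]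
    rfl
  have h2 : σ.support.card ≤ n := by
    have := Finset.card_le_univ σ.support
    rwa [Fintype.card_fin] at this
  rw [h1]
  have h3 : n + (n - σ.support.card + σ.cycleFactorsFinset.card) =
      2 * (n - σ.support.card) + (σ.support.card + σ.cycleFactorsFinset.card) := by
    omega
  rw [h3, pow_add (-1 : ℤˣ) (2 * (n - σ.support.card)), pow_mul]
  have h4 : (-1 : ℤˣ) ^ 2 = 1 := rfl
  rw [h4, one_pow, one_mul]

end Pool.Agent.H514.NG
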