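import Pool.Agent.H514.TR.Fin
import Pool.Agent.H514.NG.Main
import Pool.Agent.H514.NG.Ex
import Pool.Agent.H514.NG.PEL1
import Pool.Agent.H514.NG.PEL2
import Pool.Agent.H514.NG.PEL3
import Pool.Agent.H514.NG.SGN
import Pool.Agent.H514.NG.RR
import Pool.Agent.H514.NG.QF
import Pool.Agent.H514.NG.PAR
import Pool.Agent.H514.NG.SEP
import Pool.Agent.H514.NG.SCN
import Pool.Agent.H514.NG.NGF
import Pool.Agent.H514.NG.EXPL
import Pool.Agent.H514.NG.GCR

/-! # Assembly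

Owner helper514. -/

set_option autoImplicit false

namespace Pool.Agent.H514.NG

open NumberField

theorem g_SCN : S_SCN := t_SCNof t_SEP t_PRM

theorem g_NG : S_NG := t_NGof Pool.Agent.K1H39.GE.t_SUB Pool.Agent.H514.TR.g_MANY Pool.Agent.H514.TR.t_CLT g_SCN

theorem g_PEL : S_PEL := t_PEL3 t_PEL1 t_PEL2 t_SGN

theorem g_PAR (κ : ℕ) (L : Type) [Field L] [NumberField L] (h : ParC κ L) : Crit (4 * κ + 2) L :=
  t_PARof g_PEL t_RR t_QF κ L h

theorem g_EXPL : S_EXPL := t_EXPLof t_SEP t_PRM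

/-- the criterion is monotone in the constant -/
theorem crit_mono {κ κ' : ℕ} (hκ : κ ≤ κ') {L : Type} [Field L] [NumberField L] (h : Crit κ L) : Crit κ' L := by
  intro R hR
  obtain ⟨F, i1, i2, h1, h2, h3⟩ := h R hR
  refine ⟨F, i1, i2, h1.trans hκ, h2.trans ?_, fun p hp hpk => h3 p hp (lt_of_le_of_lt hκ hpk)⟩
  have hD : (1 : ℝ) ≤ |(discr R : ℝ)| := Pool.Agent.H514.GE.SIXN.one_le_disc R
  have e1 : (κ : ℝ) ≤ κ' := by exact_mod_cast hκ
  exact mul_le_mul e1 (pow_le_pow_right₀ hD hκ) (by positivity) (Nat.cast_nonneg _)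

theorem crit_gal {κ : ℕ} {L : Type} [Field L] [NumberField L] (hκ : Module.finrank ℚ L ≤ κ)
    (h1 : IsGalois ℚ L) (h2 : Pool.Agent.H514.TR.GrpC (L ≃ₐ[ℚ] L)) : Crit κ L :=
  crit_mono hκ (t_GCR L h2)

/-- in even degree no prime is inert if the discriminant is a square -/
theorem no_inert {L : Type} [Field L] [NumberField L] (h1 : Even (Module.finrank ℚ L))
    (h2 : IsSquare (discr L)) (p : ℕ) (hp : p.Prime) (hp2 : p ≠ 2) (hd : ¬ (p : ℤ) ∣ discr L) :
    ¬ Bad (⊥ : IntermediateField ℚ L) p := by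
  intro hbad
  have e1 := t_RR L ⊥ p hp hbad
  have e2 := g_PEL L p hp hp2 hd
  have e3 := g_PEL (⊥ : IntermediateField ℚ L) p hp hp2 (by
    rw [discr_bot]
    intro h
    have h3 := Int.natAbs_dvd_natAbs.2 h
    rw [Int.natAbs_natCast, Int.natAbs_one, Nat.dvd_one] at h3
    exact hp.one_lt.ne' h3)
  have e4 : IsSquare ((discr L : ℤ) : ZMod p) := by
    obtain ⟨s, hs⟩ := h2
    exact ⟨(s : ZMod p), by rw [hs]; push_cast; rfl⟩
  have e5 : IsSquare ((discr (⊥ : IntermediateField ℚ L) : ℤ) : ZMod p) := by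
    rw [discr_bot, Int.cast_one]
    exact IsSquare.one
  have e6 := e2.1 e4
  have e7 := e3.1 e5
  rw [IntermediateField.finrank_bot, ← e1] at e7
  rw [Nat.even_add] at e6 e7
  have e8 := e6.1 h1
  exact absurd (e7.2 e8) (by decide)

end Pool.Agent.H514.NG
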