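import Pool.Agent.H514.NG.PEL2
import Pool.Agent.H514.NG.Fin

/-! # Bad primes and the orbits of the Frobenius on the embeddings

Owner helper514.  `pi_ex` and `emb_inj` follow PEL1 (helper364), with the closure of `ℚ` in the place of `ℂ`. -/

set_option autoImplicit false

namespace Pool.Agent.H514.NG

open NumberField

/-- the closure of `ℚ` -/
abbrev QB : Type := AlgebraicClosure ℚ

namespace OrbH

/-- a homomorphism from the algebraic integers to the closure of `𝔽_p` -/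
theorem pi_ex (p : ℕ) [Fact p.Prime] : Nonempty (integralClosure ℤ QB →+* kk p) := by
  have hp : p.Prime := Fact.out
  have hmax : (Ideal.span {(p : ℤ)}).IsMaximal := by
    apply PrincipalIdealRing.isMaximal_of_irreducible
    exact (Nat.prime_iff_prime_int.1 hp).irreducible
  obtain ⟨Q, hQ, hQc⟩ := Ideal.exists_ideal_over_maximal_of_isIntegral
    (S := integralClosure ℤ QB) (Ideal.span {(p : ℤ)}) (by
      have : Function.Injective (algebraMap ℤ (integralClosure ℤ QB)) :=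
        FaithfulSMul.algebraMap_injective _ _
      rw [(RingHom.injective_iff_ker_eq_bot _).1 this]
      exact bot_le)
  let _ : Field (integralClosure ℤ QB ⧸ Q) := Ideal.Quotient.field Q
  have hpQ : ((p : ℕ) : integralClosure ℤ QB ⧸ Q) = 0 := by
    have h1 : algebraMap ℤ (integralClosure ℤ QB) (p : ℤ) ∈ Q := by
      rw [← Ideal.mem_comap, hQc]
      exact Ideal.mem_span_singleton_self _
    have h2 := Ideal.Quotient.eq_zero_iff_mem.2 h1
    rw [← h2]
    simp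
  have : CharP (integralClosure ℤ QB ⧸ Q) p := (CharP.charP_iff_prime_eq_zero hp).2 hpQ
  let _ : Algebra (ZMod p) (integralClosure ℤ QB ⧸ Q) := ZMod.algebra _ p
  have : Algebra.IsAlgebraic (ZMod p) (integralClosure ℤ QB ⧸ Q) := by
    constructor
    intro x
    obtain ⟨y, rfl⟩ := Ideal.Quotient.mk_surjective x
    have h1 : IsIntegral ℤ y := Algebra.IsIntegral.isIntegral y
    have h2 : IsIntegral ℤ (Ideal.Quotient.mk Q y) := h1.map (Ideal.Quotient.mkₐ ℤ Q)
    exact (h2.tower_top (A := ZMod p)).isAlgebraic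
  exact ⟨((IsAlgClosed.lift : (integralClosure ℤ QB ⧸ Q) →ₐ[ZMod p] kk p) :
    (integralClosure ℤ QB ⧸ Q) →+* kk p).comp (Ideal.Quotient.mk Q)⟩

variable {K : Type} [Field K] [NumberField K]

theorem hint (φ : K →ₐ[ℚ] QB) (x : 𝓞 K) :
    ((φ : K →+* QB).comp (algebraMap (𝓞 K) K)) x ∈ integralClosure ℤ QB := by
  have h1 : IsIntegral ℤ (algebraMap (𝓞 K) K x) := RingOfIntegers.isIntegral_coe x
  exact h1.map (φ.restrictScalars ℤ)

/-- an embedding on the integers -/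
noncomputable def toA (φ : K →ₐ[ℚ] QB) : 𝓞 K →+* integralClosure ℤ QB :=
  RingHom.codRestrict ((φ : K →+* QB).comp (algebraMap (𝓞 K) K)) (integralClosure ℤ QB) (hint φ)

theorem coe_toA (φ : K →ₐ[ℚ] QB) (x : 𝓞 K) : ((toA φ x : integralClosure ℤ QB) : QB) = φ (x : K) :=
  rfl

theorem emb_inj {p : ℕ} [Fact p.Prime] (hp : ¬ (p : ℤ) ∣ discr K)
    (π : integralClosure ℤ QB →+* kk p) (φ ψ : K →ₐ[ℚ] QB)
    (hφψ : ∀ x : 𝓞 K, π (toA φ x) = π (toA ψ x)) : φ = ψ := by
  have hcard : Fintype.card (Module.Free.ChooseBasisIndex ℤ (𝓞 K)) = Module.finrank ℚ K := by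
    rw [← RingOfIntegers.rank, Module.finrank_eq_card_chooseBasisIndex]
  have hcard2 : Fintype.card (K →ₐ[ℚ] QB) = Module.finrank ℚ K := AlgHom.card ℚ K QB
  let e0 : Fin (Module.finrank ℚ K) ≃ Module.Free.ChooseBasisIndex ℤ (𝓞 K) :=
    (Fintype.equivFinOfCardEq hcard).symm
  let e1 : Fin (Module.finrank ℚ K) ≃ (K →ₐ[ℚ] QB) := (Fintype.equivFinOfCardEq hcard2).symm
  let bb : Module.Basis (Fin (Module.finrank ℚ K)) ℤ (𝓞 K) := (RingOfIntegers.basis K).reindex e0.symm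
  let h' : Fin (Module.finrank ℚ K) → (𝓞 K →+* integralClosure ℤ QB) := fun i => toA (e1 i)
  have hA : (Matrix.of fun i j => h' i (bb j)).det ^ 2 = ((discr K : ℤ) : integralClosure ℤ QB) := by
    have hinjv : Function.Injective ((integralClosure ℤ QB).val : integralClosure ℤ QB →+* QB) :=
      Subtype.coe_injective
    apply hinjv
    have h1 := Algebra.discr_eq_det_embeddingsMatrixReindex_pow_two ℚ QB
      (integralBasis K ∘ e0) e1
    have h2 : Algebra.discr ℚ (integralBasis K ∘ e0) = Algebra.discr ℚ (integralBasis K) :=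
      Algebra.discr_reindex ℚ (integralBasis K) e0.symm
    rw [h2, ← coe_discr] at h1
    have h3 : ((integralClosure ℤ QB).val : integralClosure ℤ QB →+* QB)
        ((Matrix.of fun i j => h' i (bb j)).det ^ 2) =
        (Algebra.embeddingsMatrixReindex ℚ QB (integralBasis K ∘ e0) e1).det ^ 2 := by
      rw [map_pow, RingHom.map_det, ← Matrix.det_transpose]
      congr 2
      ext i j
      have : bb i = RingOfIntegers.basis K (e0 i) := by
        show ((RingOfIntegers.basis K).reindex e0.symm) i = _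
        rw [Module.Basis.reindex_apply, Equiv.symm_symm]
      simp only [Matrix.transpose_apply, RingHom.mapMatrix_apply, Matrix.map_apply, Matrix.of_apply,
        Algebra.embeddingsMatrixReindex, Matrix.reindex_apply, Matrix.submatrix_apply,
        Algebra.embeddingsMatrix_apply, Function.comp_apply, integralBasis_apply, Equiv.refl_symm,
        Equiv.refl_apply, Equiv.symm_symm]
      rw [this]
      rfl
    have h4 : ((integralClosure ℤ QB).val : integralClosure ℤ QB →+* QB)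
        ((discr K : ℤ) : integralClosure ℤ QB) = ((discr K : ℤ) : QB) := map_intCast _ _
    rw [h3, h4, ← h1]
    simp
  have hdet : (Matrix.of fun i j => π (h' i (bb j))).det ^ 2 = ((discr K : ℤ) : kk p) := by
    have h1 := congrArg π hA
    rw [map_pow, RingHom.map_det, map_intCast] at h1
    exact h1
  have hne : (Matrix.of fun i j => π (h' i (bb j))).det ≠ 0 := by
    intro h0
    rw [h0, zero_pow two_ne_zero] at hdet
    have : CharP (kk p) p := inferInstance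
    exact hp ((CharP.intCast_eq_zero_iff (kk p) p _).1 hdet.symm)
  by_contra hne'
  have hij : e1.symm φ ≠ e1.symm ψ := fun h => hne' (e1.symm.injective h)
  apply hne
  apply Matrix.det_zero_of_row_eq hij
  funext k
  simp only [Matrix.of_apply]
  have e2 : h' (e1.symm φ) = toA φ := by
    show toA (e1 (e1.symm φ)) = _
    rw [Equiv.apply_symm_apply]
  have e3 : h' (e1.symm ψ) = toA ψ := by
    show toA (e1 (e1.symm ψ)) = _
    rw [Equiv.apply_symm_apply]
  rw [e2, e3]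
  exact hφψ _

theorem normal_gen (k : Type) [Field k] : Normal k (AlgebraicClosure k) :=
  IsAlgClosure.normal k (AlgebraicClosure k)

theorem normal_Q : Normal ℚ QB := by
  have h3 : ∀ i j : Algebra ℚ QB, @Normal ℚ QB _ _ i → @Normal ℚ QB _ _ j := by
    intro i j hh
    rw [Subsingleton.elim j i]
    exact hh
  exact h3 _ _ (normal_gen ℚ)

/-- a lift of the Frobenius -/
theorem frob_ex (L : Type) [Field L] [NumberField L] {p : ℕ} [hp : Fact p.Prime]
    (π : integralClosure ℤ QB →+* kk p) : ∃ σ : QB ≃ₐ[ℚ] QB, ∀ (φ : L →ₐ[ℚ] QB) (x : 𝓞 L),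
      π (toA ((σ : QB →ₐ[ℚ] QB).comp φ) x) = π (toA φ x) ^ p := by
  have hQB : Normal ℚ QB := normal_Q
  obtain ⟨N, hN⟩ : ∃ N : IntermediateField ℚ QB, N = IntermediateField.normalClosure ℚ L QB :=
    ⟨_, rfl⟩
  have i1 : FiniteDimensional ℚ N := by
    rw [hN]
    infer_instance
  have i2 : NumberField N := ⟨⟩
  have i3 : Normal ℚ N := by
    rw [hN]
    exact normalClosure.normal ℚ L QB
  have i4 : IsGalois ℚ N := ⟨⟩
  let ι : N →ₐ[ℚ] QB := N.val
  let πN : 𝓞 N →+* kk p := π.comp (toA ι)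
  obtain ⟨Q, hQ⟩ : ∃ Q : Ideal (𝓞 N), Q = RingHom.ker πN := ⟨_, rfl⟩
  have i5 : Q.IsPrime := by
    rw [hQ]
    exact RingHom.ker_isPrime πN
  have hpQ : (p : 𝓞 N) ∈ Q := by
    rw [hQ, RingHom.mem_ker, map_natCast]
    exact CharP.cast_eq_zero (kk p) p
  have i6 : Finite (𝓞 N ⧸ Q) := Ideal.finiteQuotientOfFreeOfNeBot Q (XPEL2.ne_bot hpQ)
  obtain ⟨g, hg⟩ := IsArithFrobAt.exists_of_isInvariant ℤ Gal(N/ℚ) Q
  have hmax : (Ideal.span {(p : ℤ)}).IsMaximal := by
    apply PrincipalIdealRing.isMaximal_of_irreducible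
    exact (Nat.prime_iff_prime_int.1 hp.out).irreducible
  have hunder : Q.under ℤ = Ideal.span {(p : ℤ)} := by
    refine (hmax.eq_of_le ?_ ?_).symm
    · exact (i5.comap (algebraMap ℤ (𝓞 N))).ne_top
    · rw [Ideal.span_singleton_le_iff_mem]
      change algebraMap ℤ (𝓞 N) (p : ℤ) ∈ Q
      rw [map_natCast]
      exact hpQ
  have hcard : Nat.card (ℤ ⧸ Q.under ℤ) = p := by
    rw [hunder, Nat.card_congr (Int.quotientSpanNatEquivZMod p).toEquiv, Nat.card_zmod]
  have hg' : ∀ x : 𝓞 N, πN (g • x) = πN x ^ p := by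
    intro x
    have h1 := hg x
    rw [hcard, hQ, RingHom.mem_ker, map_sub, map_pow, sub_eq_zero] at h1
    exact h1
  refine ⟨AlgEquiv.liftNormal g QB, fun φ x => ?_⟩
  have hmem : ∀ y : L, φ y ∈ N := by
    intro y
    rw [hN]
    exact φ.fieldRange_le_normalClosure ⟨y, rfl⟩
  let φN : L →ₐ[ℚ] N := φ.codRestrict N.toSubalgebra hmem
  let y : 𝓞 N := RingOfIntegers.mapRingHom (φN : L →+* N) x
  have e1 : toA φ x = toA ι y := Subtype.ext rfl
  have e2 : toA (((AlgEquiv.liftNormal g QB : QB ≃ₐ[ℚ] QB) : QB →ₐ[ℚ] QB).comp φ) x =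
      toA ι (g • y) := by
    apply Subtype.ext
    rw [coe_toA, coe_toA]
    exact AlgEquiv.liftNormal_commutes g QB (φN x)
  rw [e1, e2]
  exact hg' y

end OrbH

open OrbH

/-- the iterates -/
theorem frob_pow {L : Type} [Field L] [NumberField L] {p : ℕ} [Fact p.Prime]
    (π : integralClosure ℤ QB →+* kk p) (σ : QB ≃ₐ[ℚ] QB)
    (hσ : ∀ (φ : L →ₐ[ℚ] QB) (x : 𝓞 L),
      π (toA ((σ : QB →ₐ[ℚ] QB).comp φ) x) = π (toA φ x) ^ p) (m : ℕ) (φ : L →ₐ[ℚ] QB) (x : 𝓞 L) :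
    π (toA (((σ ^ m : QB ≃ₐ[ℚ] QB) : QB →ₐ[ℚ] QB).comp φ) x) = π (toA φ x) ^ p ^ m := by
  induction m generalizing φ with
  | zero =>
    rw [pow_zero, pow_zero, pow_one]
    rfl
  | succ m ih =>
    have h1 : ((σ ^ (m + 1) : QB ≃ₐ[ℚ] QB) : QB →ₐ[ℚ] QB).comp φ =
        ((σ ^ m : QB ≃ₐ[ℚ] QB) : QB →ₐ[ℚ] QB).comp ((σ : QB →ₐ[ℚ] QB).comp φ) := by
      rw [pow_succ]
      rfl
    rw [h1, ih, hσ, ← pow_mul, ← pow_succ']

/-- a bad prime gives an element of the Galois group with as many orbits on the embeddings of `L` as on those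
of `R` -/
theorem bad_orbit {L : Type} [Field L] [NumberField L] (R : IntermediateField ℚ L) {p : ℕ}
    (hp : p.Prime) (hd : ¬ (p : ℤ) ∣ discr L) (hb : Bad R p) : ∃ σ : QB ≃ₐ[ℚ] QB,
      ∀ φ ψ : L →ₐ[ℚ] QB, (∃ m : ℕ, ∀ y : R, φ (y : L) = (σ ^ m) (ψ (y : L))) →
        ∃ k : ℕ, ∀ y : L, φ y = (σ ^ k) (ψ y) := by
  have hf : Fact p.Prime := ⟨hp⟩
  obtain ⟨π⟩ := pi_ex p
  obtain ⟨σ, hσ⟩ := frob_ex L π
  refine ⟨σ, fun φ ψ => ?_⟩
  rintro ⟨m, hm⟩
  have hmem : ∀ φ : L →ₐ[ℚ] QB, (p : 𝓞 L) ∈ RingHom.ker (π.comp (toA φ)) := by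
    intro φ
    rw [RingHom.mem_ker, map_natCast]
    exact CharP.cast_eq_zero (kk p) p
  have hker : RingHom.ker (π.comp (toA φ)) = RingHom.ker (π.comp (toA ψ)) := by
    refine hb _ _ (RingHom.ker_isPrime _) (RingHom.ker_isPrime _) (hmem φ) (hmem ψ) ?_
    ext y
    rw [Ideal.mem_comap, Ideal.mem_comap, RingHom.mem_ker, RingHom.mem_ker]
    have h1 : toA φ (algebraMap (𝓞 R) (𝓞 L) y) =
        toA (((σ ^ m : QB ≃ₐ[ℚ] QB) : QB →ₐ[ℚ] QB).comp ψ) (algebraMap (𝓞 R) (𝓞 L) y) := by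
      apply Subtype.ext
      rw [coe_toA, coe_toA]
      exact hm (y : R)
    have h2 : (π.comp (toA φ)) (algebraMap (𝓞 R) (𝓞 L) y) =
        (π.comp (toA ψ)) (algebraMap (𝓞 R) (𝓞 L) y) ^ p ^ m := by
      rw [RingHom.comp_apply, h1, frob_pow π σ hσ m ψ]
      rfl
    rw [h2]
    exact pow_eq_zero_iff (pow_ne_zero m hp.ne_zero)
  obtain ⟨k, hk⟩ := XPEL2.two_emb (RingHom.ker_isPrime (π.comp (toA ψ))) (hmem ψ)
    (π.comp (toA ψ)) (π.comp (toA φ)) rfl hker
  have h3 : φ = ((σ ^ k : QB ≃ₐ[ℚ] QB) : QB →ₐ[ℚ] QB).comp ψ := by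
    refine emb_inj hd π _ _ fun x => ?_
    rw [frob_pow π σ hσ k ψ]
    exact hk x
  refine ⟨k, fun y => ?_⟩
  exact DFunLike.congr_fun h3 y

/-- for every subfield `R ≠ L` every element of the Galois group has more orbits on the embeddings of `L`
than on those of `R` -/
def OrbC (L : Type) [Field L] [NumberField L] : Prop :=
  ∀ R : IntermediateField ℚ L, R ≠ ⊤ → ∀ σ : QB ≃ₐ[ℚ] QB, ∃ φ ψ : L →ₐ[ℚ] QB,
    (∃ m : ℕ, ∀ y : R, φ (y : L) = (σ ^ m) (ψ (y : L))) ∧ ∀ m : ℕ, ∃ y : L, φ y ≠ (σ ^ m) (ψ y)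

/-- no element of the Galois group permutes the embeddings of `L` in one cycle -/
def NoCyc (L : Type) [Field L] [NumberField L] : Prop :=
  ∀ σ : QB ≃ₐ[ℚ] QB, ∃ φ ψ : L →ₐ[ℚ] QB, ∀ m : ℕ, ∃ y : L, φ y ≠ (σ ^ m) (ψ y)

theorem not_bad {L : Type} [Field L] [NumberField L] (h : OrbC L) (R : IntermediateField ℚ L)
    (hR : R ≠ ⊤) {p : ℕ} (hp : p.Prime) (hd : ¬ (p : ℤ) ∣ discr L) : ¬ Bad R p := by
  intro hb
  obtain ⟨σ, hσ⟩ := bad_orbit R hp hd hb
  obtain ⟨φ, ψ, h1, h2⟩ := h R hR σ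
  obtain ⟨k, hk⟩ := hσ φ ψ h1
  obtain ⟨y, hy⟩ := h2 k
  exact hy (hk y)

theorem crit_orb {L : Type} [Field L] [NumberField L] (h : OrbC L) : Crit 1 L := by
  intro R hR
  refine ⟨ℚ, inferInstance, inferInstance, (Module.finrank_self ℚ).le, ?_, fun p hp _ hd hb => ?_⟩
  · rw [discr_rat, pow_one]
    push_cast
    rw [abs_one, one_mul]
    exact Pool.Agent.H514.GE.SIXN.one_le_disc R
  · exact absurd hb (not_bad h R hR hp hd)

theorem orb_of_noCyc {L : Type} [Field L] [NumberField L]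
    (hP : ∀ E : IntermediateField ℚ L, E = ⊥ ∨ E = ⊤) (h : NoCyc L) : OrbC L := by
  intro R hR σ
  have hR' : R = ⊥ := (hP R).resolve_right hR
  subst hR'
  obtain ⟨φ, ψ, h1⟩ := h σ
  refine ⟨φ, ψ, ⟨0, fun y => ?_⟩, h1⟩
  obtain ⟨q, hq⟩ := IntermediateField.mem_bot.1 y.2
  rw [← hq, pow_zero, AlgHom.commutes, AlgHom.commutes]
  rfl

/-- the primitive fields without `n`-cycle, or of even degree and square discriminant -/
theorem prim_expl {n l : ℕ} (hn : 2 ≤ n) (hl : 1 ≤ l) {ε : ℝ} (hε : 0 < ε) : ∃ C : ℝ, 0 < C ∧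
    ∀ (L : Type) [Field L] [NumberField L], Module.finrank ℚ L = n →
    (∀ E : IntermediateField ℚ L, E = ⊥ ∨ E = ⊤) → (NoCyc L ∨ (Even n ∧ IsSquare (discr L))) →
    (Nat.card {c : ClassGroup (𝓞 L) // c ^ l = 1} : ℝ) ≤
      C * |(discr L : ℝ)| ^ (1 / 2 - 1 / (l * n * (n - 1)) + ε : ℝ) := by
  obtain ⟨C, hC, h⟩ := g_EXPL n l hn hl ε hε
  refine ⟨C, hC, fun L _ _ hL hP hc => h L hL hP fun p hp hp2 hd => ?_⟩
  rcases hc with hc | ⟨h1, h2⟩
  · refine not_bad (orb_of_noCyc hP hc) ⊥ ?_ hp hd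
    intro h0
    have h1 : Module.finrank ℚ (⊥ : IntermediateField ℚ L) = 1 := IntermediateField.finrank_bot
    rw [h0, IntermediateField.finrank_top', hL] at h1
    omega
  · exact no_inert (by rw [hL]; exact h1) h2 p hp hp2 hd

end Pool.Agent.H514.NG
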