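import Pool.Agent.H514.NG.Orb

/-! # The criterion in terms of the Galois group

Owner helper514. -/

set_option autoImplicit false

namespace Pool.Agent.H514.NG

open NumberField OrbH

/-- `σ` has as many orbits on the embeddings of `L` as on those of `R` -/
def SameOrb {L : Type} [Field L] [NumberField L] (R : IntermediateField ℚ L) (σ : QB ≃ₐ[ℚ] QB) : Prop :=
  ∀ φ ψ : L →ₐ[ℚ] QB, (∃ m : ℕ, ∀ y : R, φ (y : L) = (σ ^ m) (ψ (y : L))) →
    ∃ k : ℕ, ∀ y : L, φ y = (σ ^ k) (ψ y)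

/-- for every `R ≠ L` there is a subfield `F` of `R` such that the elements of the Galois group with as many orbits on the
embeddings of `L` as on those of `R` fix two embeddings of `F` -/
def OrbG (L : Type) [Field L] [NumberField L] : Prop :=
  ∀ R : IntermediateField ℚ L, R ≠ ⊤ → ∃ F : IntermediateField ℚ L, F ≤ R ∧
    ∀ σ : QB ≃ₐ[ℚ] QB, SameOrb R σ → ∃ χ₁ χ₂ : L →ₐ[ℚ] QB, (∃ y : F, χ₁ (y : L) ≠ χ₂ (y : L)) ∧
      (∀ y : F, σ (χ₁ (y : L)) = χ₁ (y : L)) ∧ ∀ y : F, σ (χ₂ (y : L)) = χ₂ (y : L)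

/-- a bad prime gives an element of the Galois group with `SameOrb`, a Frobenius -/
theorem bad_orbit' {L : Type} [Field L] [NumberField L] (R : IntermediateField ℚ L) {p : ℕ}
    [hf : Fact p.Prime] (hd : ¬ (p : ℤ) ∣ discr L) (hb : Bad R p)
    (π : integralClosure ℤ QB →+* kk p) (σ : QB ≃ₐ[ℚ] QB)
    (hσ : ∀ (φ : L →ₐ[ℚ] QB) (x : 𝓞 L),
      π (toA ((σ : QB →ₐ[ℚ] QB).comp φ) x) = π (toA φ x) ^ p) : SameOrb R σ := by
  intro φ ψ
  rintro ⟨m, hm⟩
  have hmem : ∀ φ : L →ₐ[ℚ] QB, (p : 𝓞 L) ∈ RingHom.ker (π.comp (toA φ)) := by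
    intro φ
    rw [RingHom.mem_ker, map_natCast]
    exact CharP.cast_eq_zero (kk p) p
  have hker : RingHom.ker (π.comp (toA φ)) = RingHom.ker (π.comp (toA ψ)) := by
    refine hb _ _ (RingHom.ker_isPrime _) (RingHom.ker_isPrime _) (hmem φ) (hmem ψ) ?_
    ext y
    rw [Ideal.mem_comap, Ideal.mem_comap, RingHom.mem_ker, RingHom.mem_ker]
    have h1 : toA φ (algebraMap (𝓞 R) (𝓞 L) y) =
        toA (((σ ^ m : QB ≃ₐ[ℚ] QB) : QB →ₐ[ℚ] QB).comp ψ) (algebraMap (𝓞 R) (𝓞 L) y) := by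
      apply Subtype.ext
      rw [coe_toA, coe_toA]
      exact hm (y : R)
    have h2 : (π.comp (toA φ)) (algebraMap (𝓞 R) (𝓞 L) y) =
        (π.comp (toA ψ)) (algebraMap (𝓞 R) (𝓞 L) y) ^ p ^ m := by
      rw [RingHom.comp_apply, h1, frob_pow π σ hσ m ψ]
      rfl
    rw [h2]
    exact pow_eq_zero_iff (pow_ne_zero m hf.out.ne_zero)
  obtain ⟨k, hk⟩ := XPEL2.two_emb (RingHom.ker_isPrime (π.comp (toA ψ))) (hmem ψ)
    (π.comp (toA ψ)) (π.comp (toA φ)) rfl hker
  have h3 : φ = ((σ ^ k : QB ≃ₐ[ℚ] QB) : QB →ₐ[ℚ] QB).comp ψ := by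
    refine emb_inj hd π _ _ fun x => ?_
    rw [frob_pow π σ hσ k ψ]
    exact hk x
  exact ⟨k, fun y => DFunLike.congr_fun h3 y⟩

/-- a homomorphism to the closure of `𝔽_p` with values in `𝔽_p` -/
theorem norm_ker {K : Type} [Field K] [NumberField K] {p : ℕ} [hf : Fact p.Prime]
    (f : 𝓞 K →+* kk p) (h : ∀ x, ∃ m : ℤ, f x = (m : kk p)) :
    Ideal.absNorm (RingHom.ker f) = p := by
  have hpQ : (p : 𝓞 K) ∈ RingHom.ker f := by
    rw [RingHom.mem_ker, map_natCast]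
    exact CharP.cast_eq_zero (kk p) p
  have hprime : (RingHom.ker f).IsPrime := RingHom.ker_isPrime f
  have hne : RingHom.ker f ≠ ⊥ := XPEL2.ne_bot hpQ
  have hch : CharP (𝓞 K ⧸ RingHom.ker f) p := by
    refine (CharP.charP_iff_prime_eq_zero hf.out).2 ?_
    have h1 := Ideal.Quotient.eq_zero_iff_mem.2 hpQ
    rwa [map_natCast] at h1
  let g : ZMod p →+* (𝓞 K ⧸ RingHom.ker f) := ZMod.castHom (dvd_refl p) _
  have hg : Function.Bijective g := by
    refine ⟨g.injective, fun z => ?_⟩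
    obtain ⟨x, rfl⟩ := Ideal.Quotient.mk_surjective z
    obtain ⟨m, hm⟩ := h x
    refine ⟨(m : ZMod p), ?_⟩
    rw [map_intCast]
    symm
    have h1 : x - (m : 𝓞 K) ∈ RingHom.ker f := by
      rw [RingHom.mem_ker, map_sub, map_intCast, hm, sub_self]
    have h2 := Ideal.Quotient.eq.2 h1
    rw [h2, map_intCast]
  rw [Ideal.absNorm_apply, Submodule.cardQuot_apply]
  exact (Nat.card_congr (Equiv.ofBijective g hg)).symm.trans (Nat.card_zmod p)

theorem crit_orbG {L : Type} [Field L] [NumberField L] (h : OrbG L) :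
    Crit (Module.finrank ℚ L) L := by
  intro R hR
  obtain ⟨F, hFR, hF⟩ := h R hR
  have hn0 : 1 ≤ Module.finrank ℚ L := Module.finrank_pos
  refine ⟨F, inferInstance, inferInstance, ?_, ?_, ?_⟩
  · have e1 := Module.finrank_mul_finrank ℚ F L
    rw [← e1]
    exact Nat.le_mul_of_pos_right _ Module.finrank_pos
  · refine le_trans ?_ (GCRH.disc_le (discr_ne_zero R) hn0)
    have h1 : discr F ∣ discr R := by
      let _ : Algebra F R := (IntermediateField.inclusion hFR).toRingHom.toAlgebra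
      exact NumberField.discr_dvd_discr F R
    have h2 := Int.natAbs_le_of_dvd_ne_zero h1 (discr_ne_zero R)
    have h3 : |discr F| ≤ |discr R| := by
      rw [Int.abs_eq_natAbs, Int.abs_eq_natAbs]
      exact_mod_cast h2
    exact_mod_cast h3
  · intro p hp _ hd hb
    have hf : Fact p.Prime := ⟨hp⟩
    obtain ⟨π⟩ := pi_ex p
    obtain ⟨σ, hσ⟩ := frob_ex L π
    obtain ⟨χ₁, χ₂, ⟨y, hy⟩, h1, h2⟩ := hF σ (bad_orbit' R hd hb π σ hσ)
    have hdF : ¬ (p : ℤ) ∣ discr F := fun h => hd (h.trans (NumberField.discr_dvd_discr F L))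
    -- the homomorphisms
    have key : ∀ χ : L →ₐ[ℚ] QB, (∀ y : F, σ (χ (y : L)) = χ (y : L)) → ∀ x : 𝓞 F,
        ∃ m : ℤ, (π.comp (toA (χ.comp F.val))) x = (m : kk p) := by
      intro χ hχ x
      have e1 := hσ χ (algebraMap (𝓞 F) (𝓞 L) x)
      have e2 : toA ((σ : QB →ₐ[ℚ] QB).comp χ) (algebraMap (𝓞 F) (𝓞 L) x) =
          toA (χ.comp F.val) x := by
        apply Subtype.ext
        rw [coe_toA, coe_toA]
        exact hχ (x : F)
      have e3 : toA χ (algebraMap (𝓞 F) (𝓞 L) x) = toA (χ.comp F.val) x := Subtype.ext rfl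
      rw [e2, e3] at e1
      have e4 := (Subfield.mem_bot_iff_pow_eq_self (kk p) p).mpr e1.symm
      obtain ⟨m, hm⟩ := (mem_bot_iff_intCast p (kk p)).mp e4
      exact ⟨m, hm.symm⟩
    have k1 := key χ₁ h1
    have k2 := key χ₂ h2
    have hne : RingHom.ker (π.comp (toA (χ₁.comp F.val))) ≠
        RingHom.ker (π.comp (toA (χ₂.comp F.val))) := by
      intro heq
      apply hy
      have h3 : χ₁.comp F.val = χ₂.comp F.val := by
        refine emb_inj hdF π _ _ fun x => ?_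
        obtain ⟨m, hm⟩ := k1 x
        have h4 : x - (m : 𝓞 F) ∈ RingHom.ker (π.comp (toA (χ₁.comp F.val))) := by
          rw [RingHom.mem_ker, map_sub, map_intCast, hm, sub_self]
        rw [heq, RingHom.mem_ker, map_sub, map_intCast, sub_eq_zero] at h4
        exact hm.trans h4.symm
      exact DFunLike.congr_fun h3 y
    refine ⟨{RingHom.ker (π.comp (toA (χ₁.comp F.val))), RingHom.ker (π.comp (toA (χ₂.comp F.val)))},
      ?_, ?_⟩
    · rw [Finset.card_pair hne]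
    · intro Q hQ
      rw [Finset.mem_insert, Finset.mem_singleton] at hQ
      rcases hQ with rfl | rfl
      · exact ⟨RingHom.ker_isPrime _, norm_ker _ k1⟩
      · exact ⟨RingHom.ker_isPrime _, norm_ker _ k2⟩

end Pool.Agent.H514.NG
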