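import Pool.Agent.H514.NG.OrbG
import Pool.Graph.R_seed8.R836.PP.Prim

/-! # Primitive fields whose discriminant is a square times a bounded number: explicit exponent

Owner helper514; `expl_ap` follows EXPL (helper707). -/

set_option autoImplicit false

namespace Pool.Agent.H514.NG

open NumberField Filter Pool.Agent.TH847.LS Pool.Agent.TH847.LG
open scoped Classical nonZeroDivisors

namespace PrimDH

open EXPLH

/-- the count of the primes in a residue class which are used -/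
theorem count_ap {D : ℤ} (hD : D ≠ 0) {Y κ δ : ℝ} {q a X0 : ℕ} (hY : 1 ≤ Y) (hκ : κ < 1)
    (hX0 : X0 ≤ ⌊Y⌋₊) (hAP : ∀ X : ℕ, X0 ≤ X → δ * X / Real.log X ≤
      (((Finset.Icc 1 X).filter (fun p => p.Prime ∧ p % q = a % q)).card : ℝ))
    (hm : 2 * Y ^ (1 - κ) + Real.log |(D : ℝ)| / Real.log 2 ≤
      δ * (⌊Y⌋₊ : ℝ) / Real.log (⌊Y⌋₊ : ℝ)) :
    Y ^ (1 - κ) ≤ ((((Finset.Icc 1 ⌊Y⌋₊).filter (fun p => p.Prime ∧ p % q = a % q)).filter
      (fun p : ℕ => p ≠ 2 ∧ ¬ (p : ℤ) ∣ D)).card : ℝ) := by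
  have h1 := hAP ⌊Y⌋₊ hX0
  obtain ⟨A, hA⟩ : ∃ A : Finset ℕ, A = (Finset.Icc 1 ⌊Y⌋₊).filter
    (fun p => p.Prime ∧ p % q = a % q) := ⟨_, rfl⟩
  rw [← hA] at h1 ⊢
  have hD0 : D.natAbs ≠ 0 := Int.natAbs_ne_zero.2 hD
  have h2 : A ⊆ A.filter (fun p : ℕ => p ≠ 2 ∧ ¬ (p : ℤ) ∣ D) ∪ ({2} ∪ D.natAbs.primeFactors) := by
    intro p hp
    by_cases h3 : p = 2
    · exact Finset.mem_union_right _ (Finset.mem_union_left _ (Finset.mem_singleton.2 h3))
    · by_cases h4 : (p : ℤ) ∣ D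
      · refine Finset.mem_union_right _ (Finset.mem_union_right _ (Nat.mem_primeFactors.2
          ⟨?_, Int.natCast_dvd.1 h4, hD0⟩))
        rw [hA] at hp
        exact (Finset.mem_filter.1 hp).2.1
      · exact Finset.mem_union_left _ (Finset.mem_filter.2 ⟨hp, h3, h4⟩)
  have h3 : A.card ≤ (A.filter (fun p : ℕ => p ≠ 2 ∧ ¬ (p : ℤ) ∣ D)).card +
      (1 + D.natAbs.primeFactors.card) := by
    refine (Finset.card_le_card h2).trans ((Finset.card_union_le _ _).trans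
      (Nat.add_le_add_left ?_ _))
    exact (Finset.card_union_le _ _).trans (by rw [Finset.card_singleton])
  have h4 : (A.card : ℝ) ≤ ((A.filter (fun p : ℕ => p ≠ 2 ∧ ¬ (p : ℤ) ∣ D)).card : ℝ) +
      (1 + (D.natAbs.primeFactors.card : ℝ)) := by exact_mod_cast h3
  have h5 := Pool.Agent.K1H2.RF.few hD0
  have h6 : ((D.natAbs : ℕ) : ℝ) = |(D : ℝ)| := by
    rw [Nat.cast_natAbs]
    push_cast
    rfl
  rw [h6] at h5
  have h7 : 1 ≤ Y ^ (1 - κ) := Real.one_le_rpow hY (by linarith)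
  linarith

end PrimDH

open EXPLH PrimDH in
/-- explicit exponent for the primitive fields in which no prime of a residue class is inert -/
theorem expl_ap (hSEP : S_SEP) (hPRM : S_PRM) {n l : ℕ} (hn2 : 2 ≤ n) (hl : 1 ≤ l) (q a : ℕ) (hq : 0 < q)
    (ha : a.Coprime q) {ε : ℝ} (hε : 0 < ε) : ∃ C : ℝ, 0 < C ∧
    ∀ (L : Type) [Field L] [NumberField L], Module.finrank ℚ L = n →
    (∀ E : IntermediateField ℚ L, E = ⊥ ∨ E = ⊤) →
    (∀ p : ℕ, p.Prime → p % q = a % q → p ≠ 2 → ¬ (p : ℤ) ∣ discr L →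
      ¬ Bad (⊥ : IntermediateField ℚ L) p) →
    (Nat.card {c : ClassGroup (𝓞 L) // c ^ l = 1} : ℝ) ≤
      C * |(discr L : ℝ)| ^ (1 / 2 - 1 / (l * n * (n - 1)) + ε : ℝ) := by
  obtain ⟨δ, hδ0, X0, hAP⟩ := Pool.Agent.R836.PP.primes_AP q hq a ha
  have hnr : (2 : ℝ) ≤ n := by exact_mod_cast hn2
  have hlr : (1 : ℝ) ≤ l := by exact_mod_cast hl
  obtain ⟨κ, hκ⟩ : ∃ κ : ℝ, κ = min (ε / 3) (1 / 2) := ⟨_, rfl⟩
  have hκ0 : 0 < κ := by
    rw [hκ]
    exact lt_min (by positivity) (by norm_num)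
  have hκ1 : κ ≤ 1 / 2 := by rw [hκ]; exact min_le_right _ _
  have hκε : 3 * κ ≤ ε := by
    have : κ ≤ ε / 3 := by rw [hκ]; exact min_le_left _ _
    linarith
  obtain ⟨w, hw⟩ : ∃ w : ℝ, w = l * n * (n - 1) := ⟨_, rfl⟩
  have hw2 : 2 ≤ w := by
    rw [hw]
    have h1 : (2 : ℝ) ≤ l * n := by nlinarith
    nlinarith
  have hw0 : 0 < w := by linarith
  obtain ⟨θ, hθ⟩ : ∃ θ : ℝ, θ = (1 - κ) / w := ⟨_, rfl⟩
  have hθ0 : 0 < θ := by
    rw [hθ]
    exact div_pos (by linarith) hw0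
  obtain ⟨C1, hC10, hC1⟩ := Pool.Agent.Y159.PT.W_bound n hn2 κ hκ0
  obtain ⟨C0, hC0, hCl⟩ := Pool.Agent.H514.TR.t_CLT n
  obtain ⟨b, hb⟩ : ∃ b : ℝ, b = (2 * 150 ^ l) ^ (n * (n - 1)) := ⟨_, rfl⟩
  have e2 : ∀ᶠ x : ℝ in atTop, b < x ^ κ := (tendsto_rpow_atTop hκ0).eventually_gt_atTop _
  have e3 := Pool.Agent.K1H2.RF.many (δ := δ) hδ0 hθ0 hκ0 (by linarith : κ < 1) X0
  obtain ⟨D0, hD0⟩ := eventually_atTop.1 (e2.and e3)
  have hexp : 1 / 2 + κ - θ * (1 - κ) ≤ 1 / 2 - 1 / w + ε := by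
    have h1 := Pool.Agent.K1H2.RF.expo (by linarith : 1 ≤ w) hκ0 hκε
    refine le_trans (le_of_eq ?_) h1
    rw [hθ]
    ring
  have hexp0 : 0 ≤ 1 / 2 - 1 / w + ε := by
    have : 1 / w ≤ 1 / 2 := one_div_le_one_div_of_le (by norm_num) hw2
    linarith
  rw [← hw]
  refine ⟨max (C0 * |D0|) ((n + 1) * C1), lt_max_of_lt_right (by positivity), ?_⟩
  intro L _ _ hL hprim hnb
  obtain ⟨D, hD⟩ : ∃ D : ℝ, D = |(discr L : ℝ)| := ⟨_, rfl⟩
  have hD1 : (1 : ℝ) ≤ D := by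
    rw [hD]
    have := Int.one_le_abs (discr_ne_zero L)
    exact_mod_cast this
  have hDpos : 0 < D := by linarith
  obtain ⟨T, hT⟩ : ∃ T : ℝ, T = (Nat.card {c : ClassGroup (𝓞 L) // c ^ l = 1} : ℝ) := ⟨_, rfl⟩
  have hT0 : 0 ≤ T := by
    rw [hT]
    exact Nat.cast_nonneg _
  rw [← hT, ← hD]
  have hDe : 1 ≤ D ^ (1 / 2 - 1 / w + ε) := Real.one_le_rpow hD1 hexp0
  rcases lt_or_ge D D0 with hlt | hge
  · have h1 : T ≤ C0 * D := by
      rw [hT, hD]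
      refine le_trans ?_ (hCl L hL)
      exact_mod_cast Nat.card_le_card_of_injective
        (fun c : {c : ClassGroup (𝓞 L) // c ^ l = 1} => c.1) Subtype.val_injective
    have h2 : C0 * D ≤ C0 * |D0| := mul_le_mul_of_nonneg_left (hlt.le.trans (le_abs_self D0)) hC0.le
    calc T ≤ C0 * |D0| := h1.trans h2
      _ ≤ C0 * |D0| * D ^ (1 / 2 - 1 / w + ε) := le_mul_of_one_le_right (by positivity) hDe
      _ ≤ _ := mul_le_mul_of_nonneg_right (le_max_left _ _) (by positivity)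
  · obtain ⟨g2, g3, g4⟩ := hD0 D hge
    obtain ⟨N, hN, hW⟩ := hC1 L hL
    have hDn : ((discr L).natAbs : ℝ) = D := by
      rw [hD, Nat.cast_natAbs]
      push_cast
      rfl
    rw [hDn] at hW
    have hY1 : 1 ≤ D ^ θ := Real.one_le_rpow hD1 hθ0.le
    have hcount := count_ap (D := discr L) (discr_ne_zero L) hY1 (by linarith : κ < 1) g3 hAP (by rw [← hD]; exact g4)
    have hYk : (2 * (150 * D ^ θ) ^ l) ^ (n * (n - 1)) < |(discr L : ℝ)| := by
      rw [← hD]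
      have h1 : (2 * (150 * D ^ θ) ^ l) ^ (n * (n - 1)) = b * (D ^ θ) ^ (l * (n * (n - 1))) := by
        rw [hb, mul_pow 150, ← mul_assoc, mul_pow, ← pow_mul]
      have h2 : (D ^ θ) ^ (l * (n * (n - 1))) = D ^ (1 - κ) := by
        rw [← Real.rpow_natCast, ← Real.rpow_mul hDpos.le]
        congr 1
        have h3 : ((l * (n * (n - 1)) : ℕ) : ℝ) = w := by
          rw [hw]
          have : 1 ≤ n := by omega
          push_cast [Nat.cast_sub this]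
          ring
        rw [h3, hθ, div_mul_cancel₀ _ hw0.ne']
      rw [h1, h2]
      calc b * D ^ (1 - κ) < D ^ κ * D ^ (1 - κ) :=
            mul_lt_mul_of_pos_right g2 (Real.rpow_pos_of_pos hDpos _)
        _ = D := by
          rw [← Real.rpow_add hDpos]
          have : κ + (1 - κ) = 1 := by ring
          rw [this, Real.rpow_one]
    have hfb := field_bound hSEP hPRM hl L hL hprim (D ^ θ) hYk
      (((Finset.Icc 1 ⌊D ^ θ⌋₊).filter (fun p => p.Prime ∧ p % q = a % q)).filter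
        (fun p : ℕ => p ≠ 2 ∧ ¬ (p : ℤ) ∣ discr L)) (by
      intro p hp
      rw [Finset.mem_filter, Finset.mem_filter, Finset.mem_Icc] at hp
      obtain ⟨⟨⟨-, h2⟩, h3, h3'⟩, h4, h5⟩ := hp
      exact ⟨h3, (Nat.le_floor_iff (by linarith)).1 h2, hnb p h3 h3' h4 h5⟩) N hN
    rw [← hT] at hfb
    have h1 : (D ^ θ) ^ (1 - κ) * T ≤ (n + 1) * (C1 * D ^ (1 / 2 + κ)) := by
      refine (mul_le_mul_of_nonneg_right hcount hT0).trans (hfb.trans ?_)
      exact mul_le_mul_of_nonneg_left hW (by positivity)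
    have h2 : (D ^ θ) ^ (1 - κ) = D ^ (θ * (1 - κ)) := by rw [← Real.rpow_mul hDpos.le]
    have h3 : D ^ (1 / 2 + κ) = D ^ (θ * (1 - κ)) * D ^ (1 / 2 + κ - θ * (1 - κ)) := by
      rw [← Real.rpow_add hDpos]
      congr 1
      ring
    rw [h2, h3] at h1
    have h4 : D ^ (θ * (1 - κ)) * T ≤
        D ^ (θ * (1 - κ)) * ((n + 1) * C1 * D ^ (1 / 2 + κ - θ * (1 - κ))) := by
      refine h1.trans (le_of_eq ?_)
      ring
    have h5 : T ≤ (n + 1) * C1 * D ^ (1 / 2 + κ - θ * (1 - κ)) :=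
      le_of_mul_le_mul_left h4 (Real.rpow_pos_of_pos hDpos _)
    calc T ≤ (n + 1) * C1 * D ^ (1 / 2 + κ - θ * (1 - κ)) := h5
      _ ≤ (n + 1) * C1 * D ^ (1 / 2 - 1 / w + ε) := by
        refine mul_le_mul_of_nonneg_left ?_ (by positivity)
        exact Real.rpow_le_rpow_of_exponent_le hD1 hexp
      _ ≤ _ := mul_le_mul_of_nonneg_right (le_max_right _ _) (by positivity)

end Pool.Agent.H514.NG
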