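import Pool.Agent.H514.NG.PrimD

/-! # Primitive fields of discriminant `d m ^ 2` with bounded `d`: explicit exponent

Owner helper514. -/

set_option autoImplicit false

namespace Pool.Agent.H514.NG

open NumberField Filter
open scoped Classical nonZeroDivisors

namespace PrimDH

theorem res_congr {d : ℤ} {p r : ℕ} [hf : Fact p.Prime] (hp2 : p ≠ 2) (hr : Odd r)
    (h : p % (4 * d.natAbs) = r % (4 * d.natAbs)) : legendreSym p d = jacobiSym d r := by
  have hodd : Odd p := hf.out.odd_of_ne_two hp2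
  rw [jacobiSym.legendreSym.to_jacobiSym, jacobiSym.mod_right d hodd, h, ← jacobiSym.mod_right d hr]

/-- a nonsquare is not a square modulo some prime -/
theorem exists_nonres {d : ℤ} (hd : ¬ IsSquare d) :
    ∃ p : ℕ, p.Prime ∧ p ≠ 2 ∧ ¬ (p : ℤ) ∣ d ∧ ¬ IsSquare ((d : ℤ) : ZMod p) := by
  by_contra hno
  push Not at hno
  obtain ⟨F, i1, i2, h1, -, h3⟩ := t_QF d hd
  obtain ⟨A, hA1, hA⟩ := Pool.Agent.H514.TR.g_MANY 2
  have hd0 : d ≠ 0 := by
    rintro rfl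
    exact hd ⟨0, by norm_num⟩
  obtain ⟨B, hB⟩ : ∃ B : Finset ℕ, B = insert 2 d.natAbs.primeFactors := ⟨_, rfl⟩
  have e1 := (tendsto_rpow_atTop (show (0 : ℝ) < 1 / 200 by norm_num)).eventually_gt_atTop (B.card : ℝ)
  have e2 := Real.tendsto_log_atTop.eventually_ge_atTop (A * (1 + Real.log |(discr F : ℝ)|))
  have e3 := eventually_gt_atTop (1 : ℝ)
  obtain ⟨X, g1, g2, g3⟩ := (e1.and (e2.and e3)).exists
  have h4 := hA F h1.le X g3 g2 B (fun p hp _ hpB => by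
    rw [hB, Finset.mem_insert, not_or] at hpB
    have h5 : ¬ (p : ℤ) ∣ d := fun h => hpB.2 (Nat.mem_primeFactors.2
      ⟨hp, Int.natCast_dvd.1 h, Int.natAbs_ne_zero.2 hd0⟩)
    exact h3 p hp hpB.1 h5 (hno p hp hpB.1 h5))
  linarith

/-- the discriminant modulo an inert prime -/
theorem inert_res {L : Type} [Field L] [NumberField L] {p : ℕ} (hp : p.Prime) (hp2 : p ≠ 2)
    (hd : ¬ (p : ℤ) ∣ discr L) (hbad : Bad (⊥ : IntermediateField ℚ L) p) :
    IsSquare ((discr L : ℤ) : ZMod p) ↔ ¬ Even (Module.finrank ℚ L) := by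
  have e1 := t_RR L ⊥ p hp hbad
  have e2 := g_PEL L p hp hp2 hd
  have e3 := g_PEL (⊥ : IntermediateField ℚ L) p hp hp2 (by
    rw [discr_bot]
    intro h
    have h3 := Int.natAbs_dvd_natAbs.2 h
    rw [Int.natAbs_natCast, Int.natAbs_one, Nat.dvd_one] at h3
    exact hp.one_lt.ne' h3)
  have e5 : IsSquare ((discr (⊥ : IntermediateField ℚ L) : ℤ) : ZMod p) := by
    rw [discr_bot, Int.cast_one]
    exact IsSquare.one
  have e7 := e3.1 e5
  rw [IntermediateField.finrank_bot, ← e1, Nat.even_add] at e7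
  have e8 : ¬ Even (rr L p) := fun h => absurd (e7.2 h) (by decide)
  rw [e2, Nat.even_add]
  tauto

theorem sq_iff {D d m : ℤ} (h : D = d * m ^ 2) {p : ℕ} [Fact p.Prime] (hp : ¬ (p : ℤ) ∣ D) :
    (IsSquare ((D : ℤ) : ZMod p) ↔ IsSquare ((d : ℤ) : ZMod p)) ∧ ((d : ℤ) : ZMod p) ≠ 0 := by
  have hD : ((D : ℤ) : ZMod p) ≠ 0 := fun h0 => hp ((ZMod.intCast_zmod_eq_zero_iff_dvd D p).1 h0)
  have hc : ((D : ℤ) : ZMod p) = (d : ZMod p) * (m : ZMod p) ^ 2 := by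
    rw [h]
    push_cast
    rfl
  have hd0 : ((d : ℤ) : ZMod p) ≠ 0 := by
    intro h0
    rw [hc, h0, zero_mul] at hD
    exact hD rfl
  have hm0 : ((m : ℤ) : ZMod p) ≠ 0 := by
    intro h0
    rw [hc, h0, zero_pow two_ne_zero, mul_zero] at hD
    exact hD rfl
  refine ⟨⟨?_, ?_⟩, hd0⟩
  · rintro ⟨s, hs⟩
    refine ⟨s / (m : ZMod p), ?_⟩
    rw [hc] at hs
    field_simp
    rw [hs]
    ring
  · rintro ⟨s, hs⟩
    exact ⟨s * (m : ZMod p), by rw [hc, hs]; ring⟩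

end PrimDH

open PrimDH

theorem prim_fix {n l : ℕ} (hn : 2 ≤ n) (hl : 1 ≤ l) (d : ℤ) {ε : ℝ} (hε : 0 < ε) : ∃ C : ℝ, 0 < C ∧
    ∀ (L : Type) [Field L] [NumberField L], Module.finrank ℚ L = n →
    (∀ E : IntermediateField ℚ L, E = ⊥ ∨ E = ⊤) → (∃ m : ℤ, discr L = d * m ^ 2) →
    (Even n ∨ ¬ IsSquare (discr L)) →
    (Nat.card {c : ClassGroup (𝓞 L) // c ^ l = 1} : ℝ) ≤
      C * |(discr L : ℝ)| ^ (1 / 2 - 1 / (l * n * (n - 1)) + ε : ℝ) := by
  by_cases hd0 : d = 0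
  · refine ⟨1, one_pos, ?_⟩
    rintro L _ _ - - ⟨m, hm⟩ -
    rw [hd0, zero_mul] at hm
    exact absurd hm (discr_ne_zero L)
  have hq : 0 < 4 * d.natAbs := by
    have := Int.natAbs_pos.2 hd0
    omega
  by_cases hev : Even n
  · obtain ⟨C, hC, h⟩ := expl_ap t_SEP t_PRM hn hl (4 * d.natAbs) 1 hq (Nat.coprime_one_left _) hε
    refine ⟨C, hC, ?_⟩
    rintro L _ _ hL hP ⟨m, hm⟩ -
    refine h L hL hP fun p hp hpq hp2 hpd hb => ?_
    have hf : Fact p.Prime := ⟨hp⟩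
    obtain ⟨e1, e2⟩ := sq_iff hm hpd
    have e3 := inert_res hp hp2 hpd hb
    rw [hL, e1] at e3
    have e4 : ¬ IsSquare ((d : ℤ) : ZMod p) := fun h => (e3.1 h) hev
    have e5 := res_congr (d := d) hp2 odd_one hpq
    rw [jacobiSym.one_right] at e5
    exact e4 ((legendreSym.eq_one_iff p e2).1 e5)
  · by_cases hsq : IsSquare d
    · refine ⟨1, one_pos, ?_⟩
      rintro L _ _ - - ⟨m, hm⟩ hor
      exfalso
      rcases hor with h | h
      · exact hev h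
      · obtain ⟨s, hs⟩ := hsq
        exact h ⟨s * m, by rw [hm, hs]; ring⟩
    · obtain ⟨r, hr, hr2, hrd, hrn⟩ := exists_nonres hsq
      have hcop : r.Coprime (4 * d.natAbs) := by
        rw [Nat.Prime.coprime_iff_not_dvd hr]
        intro h
        rcases hr.dvd_mul.1 h with h4 | h4
        · have h5 : r ∣ 2 ^ 2 := h4
          exact hr2 ((Nat.prime_dvd_prime_iff_eq hr Nat.prime_two).1 (hr.dvd_of_dvd_pow h5))
        · exact hrd (Int.natCast_dvd.2 h4)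
      obtain ⟨C, hC, h⟩ := expl_ap t_SEP t_PRM hn hl (4 * d.natAbs) r hq hcop hε
      refine ⟨C, hC, ?_⟩
      rintro L _ _ hL hP ⟨m, hm⟩ -
      refine h L hL hP fun p hp hpq hp2 hpd hb => ?_
      have hf : Fact p.Prime := ⟨hp⟩
      have hfr : Fact r.Prime := ⟨hr⟩
      obtain ⟨e1, e2⟩ := sq_iff hm hpd
      have e3 := inert_res hp hp2 hpd hb
      rw [hL, e1] at e3
      have e4 : IsSquare ((d : ℤ) : ZMod p) := e3.2 hev
      have e5 := res_congr (d := d) hp2 (hr.odd_of_ne_two hr2) hpq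
      rw [← jacobiSym.legendreSym.to_jacobiSym, (legendreSym.eq_one_iff p e2).2 e4,
        (legendreSym.eq_neg_one_iff r).2 hrn] at e5
      norm_num at e5

/-- explicit exponent for the primitive fields without `n`-cycle, and for those of discriminant `d m ^ 2` with
`|d| ≤ k` and of even degree or with a discriminant which is not a square -/
theorem prim_all {n l : ℕ} (k : ℕ) (hn : 2 ≤ n) (hl : 1 ≤ l) {ε : ℝ} (hε : 0 < ε) : ∃ C : ℝ, 0 < C ∧
    ∀ (L : Type) [Field L] [NumberField L], Module.finrank ℚ L = n →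
    (∀ E : IntermediateField ℚ L, E = ⊥ ∨ E = ⊤) →
    (NoCyc L ∨ ((∃ d m : ℤ, discr L = d * m ^ 2 ∧ |d| ≤ k) ∧ (Even n ∨ ¬ IsSquare (discr L)))) →
    (Nat.card {c : ClassGroup (𝓞 L) // c ^ l = 1} : ℝ) ≤
      C * |(discr L : ℝ)| ^ (1 / 2 - 1 / (l * n * (n - 1)) + ε : ℝ) := by
  obtain ⟨C0, hC0, h0⟩ := prim_expl (n := n) (l := l) hn hl hε
  choose C hC h using fun d : ℤ => prim_fix (n := n) (l := l) hn hl d hε
  have hS : 0 ≤ ∑ d ∈ Finset.Icc (-(k : ℤ)) k, C d := Finset.sum_nonneg fun d _ => (hC d).le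
  refine ⟨C0 + ∑ d ∈ Finset.Icc (-(k : ℤ)) k, C d, by linarith, ?_⟩
  intro L _ _ hL hP hc
  have hD : (0 : ℝ) ≤ |(discr L : ℝ)| ^ (1 / 2 - 1 / (l * n * (n - 1)) + ε : ℝ) := by positivity
  rcases hc with hc | ⟨⟨d, m, hm, hdk⟩, hor⟩
  · refine (h0 L hL hP (Or.inl hc)).trans (mul_le_mul_of_nonneg_right (by linarith) hD)
  · have hmem : d ∈ Finset.Icc (-(k : ℤ)) k := Finset.mem_Icc.2 (abs_le.1 hdk)
    have h1 := Finset.single_le_sum (f := C) (fun d _ => (hC d).le) hmem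
    exact (h d L hL hP ⟨m, hm⟩ hor).trans (mul_le_mul_of_nonneg_right (by linarith) hD)

end Pool.Agent.H514.NG
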