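import Pool.Agent.H514.NG.Stm

/-! # The explicit exponent for primitive fields: statement

Owner helper514. -/

set_option autoImplicit false

namespace Pool.Agent.H514.NG

open NumberField Pool.Agent.TH847.LS
open scoped Classical nonZeroDivisors

/-- EXPL: fields without proper subfields in which no unramified odd prime is inert (`¬ Bad ⊥ p`: there are two
different primes above `p`), explicit exponent.  Proof.  `D = |discr L|`, `Y = D ^ (1/(l n (n-1))) / 600`, so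
that `(2 (150 Y) ^ l) ^ (n (n-1)) < D` (it is `≤ (2 / 4 ^ l) ^ (n (n-1)) D`, `l ≥ 1`, `n ≥ 2`).  `B` = the odd primes `p ≤ Y` with
`p ∤ discr L`.  For `p ∈ B` choose `Q_p, Q'_p, J_p, m_p` by PRM with `R = ⊥`.  For every `m ≤ n` apply
`Pool.Agent.K1H79.TOR.ev_m` (library K1H79/TOR/Ev.lean) to `B_m = {p ∈ B | m_p = m}`; `hsep`: let `(z) = Q_q ^ l * J_p ^ l`,
`w z ≤ (150 max(p, q)) ^ l ≤ (150 Y) ^ l` for all `w`.  By SEP (`R = ⊥`) `z ∉ ⊥`, so `ℚ⟮z⟯ ≠ ⊥` is `⊤` and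
`Pool.Agent.TH847.LG.disc_bound` gives `D ≤ (2 (150 Y) ^ l) ^ (n (n-1)) < D`, a contradiction.  So `|B_m| h ≤ W`, `|B| h ≤ (n+1) W`, and
`W ≤ C₁ D ^ (1/2 + κ)` (`Pool.Agent.Y159.PT.W_bound` or `Pool.Agent.H514.TR.GALH.cnt`).  `|B| ≥ π(Y) - 1 - ω(discr L) ≥ D ^ (1/(l n (n-1)) - κ)` for large `D`
(any lower bound `π(x) ≥ x ^ (1 - κ')` for large `x`, e.g. from `Pool.Agent.R836.PP.primes_AP`, see the file
K1H2/RF/FinM.lean and Num.lean of the library run efc1946e (`many`, `few`), which prove the analogous `S_FINM` with the primes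
`2` modulo `3` - these primes alone are enough here as well -, or `Mathlib/NumberTheory/Chebyshev.lean`), and for
bounded `D` the class number is bounded (`S_CLT`, proved in Pool/Agent/H514/TR/CLT.lean as `t_CLT`, or `QR.small` as there).  Model for SEP, PRM,
`ev_m` together: `Pool/Agent/H514/NG/SCN.lean` (store helper514_NG_SCN.lean). -/
def S_EXPL : Prop := ∀ n l : ℕ, 2 ≤ n → 1 ≤ l → ∀ ε : ℝ, 0 < ε → ∃ C : ℝ, 0 < C ∧
  ∀ (L : Type) [Field L] [NumberField L], Module.finrank ℚ L = n →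
    (∀ E : IntermediateField ℚ L, E = ⊥ ∨ E = ⊤) →
    (∀ p : ℕ, p.Prime → p ≠ 2 → ¬ (p : ℤ) ∣ discr L → ¬ Bad (⊥ : IntermediateField ℚ L) p) →
    (Nat.card {c : ClassGroup (𝓞 L) // c ^ l = 1} : ℝ) ≤
      C * |(discr L : ℝ)| ^ (1 / 2 - 1 / (l * n * (n - 1)) + ε : ℝ)

def S_EXPLof : Prop := S_SEP → S_PRM → S_EXPL

end Pool.Agent.H514.NG
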