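import Pool.Agent.H514.NG.Stm

/-! # Galois fields satisfy the criterion: statement

Owner helper514. -/

set_option autoImplicit false

namespace Pool.Agent.H514.NG

open NumberField Pointwise
open scoped Classical nonZeroDivisors

/-- GCR: Galois fields whose group satisfies `GrpC` satisfy the criterion.  Proof.  `G = Gal(L/ℚ)`, `n = |G|`.  Let
`R ≠ ⊤`, `U = R.fixingSubgroup ≠ ⊥`.  Let `N` be the normal closure of `U` in `G`, `N ≠ ⊥`.

(a) If `p` is bad for `R` and `P` is a prime of `L` above `p`, then `U ≤ stabilizer G P`: for `u ∈ U` the primes `P` and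
`u • P` have the same intersection with `𝓞 R` (`u` is trivial on `R`), so `u • P = P`.  This holds for all the primes
`g • P` as well, whose stabilizers are `g D g⁻¹`, `D = stabilizer G P`; so `g⁻¹ U g ≤ D` for all `g`, that is `N ≤ D`
(`Subgroup.normalClosure`, its elements are generated by the conjugates of `U`).

(b) If `p ∤ discr L` then `D` is cyclic (`Pool.Agent.K1H79.TOR.stab_cyclic`), hence `N` is cyclic.

Case 1: `N` is not cyclic.  Then there is no bad `p` with `p ∤ discr L`; `F = ℚ`.
Case 2: `N` is cyclic.  `Pool.Agent.K1H79.TOR.grp` gives a normal subgroup `H ≠ ⊤`, `N ≤ H`, such that `g ∈ H` for all `g` with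
`N ≤ zpowers g`.  `F = fixed field of H` (as in `K1H79.TOR.good_primes`, file Gap.lean: `FixedPoints.intermediateField H`,
`IsGaloisGroup H F L`); `F ≤ R` because `U ≤ N ≤ H` (`R` is the fixed field of `U`, `L/ℚ` is Galois), so `discr F ∣ discr R`
(`NumberField.discr_dvd_discr`, with the algebra structure of `IntermediateField.inclusion`) and `|discr F| ≤ |discr R| ≤ n |discr R| ^ n`
(`|discr R| ≥ 1`, `n ≥ 1`), `[F : ℚ] ≤ n`, `[F : ℚ] ≥ 2` as `H ≠ ⊤`.  For a bad `p ∤ discr L` let `P` be a prime above `p`, `D` its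
stabilizer, generated by `g`; `N ≤ D = zpowers g`, so `g ∈ H`, `D ≤ H`, and `Pool.Agent.K1H79.TOR.split` (file Dec.lean) gives the
set `S` of `[F : ℚ] ≥ 2` primes of norm `p`.  Everything needed is in the proof of `K1H79.TOR.good_primes`. -/
def S_GCR : Prop := ∀ (L : Type) [Field L] [NumberField L] [IsGalois ℚ L],
  Pool.Agent.H514.TR.GrpC Gal(L/ℚ) → Crit (Module.finrank ℚ L) L

end Pool.Agent.H514.NG
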